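import Pool.Agent.Flea.Defs
import Pool.Agent.FleaC.Geo

/-! # Closure under the moves, when only moves to unoccupied points are allowed -/

set_option autoImplicit false

namespace Pool.Agent.FleaU

open Pool.Agent.FleaC

/-- a triangle of distinct points connected with the start state, or a triangle with two coinciding
points which replaces a half square connected with it -/
def Gd (X : St) (P Q T : GaussianInt) : Prop :=
  (Distinct P Q T ∧ Conn X (st P Q T)) ∨
    ∃ l : ℕ, 1 ≤ l ∧ st P Q T = ({l, l, 0}, 0) ∧ Conn X ({l, 2 * l, l}, l)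

theorem Gd.perm {X : St} {P Q T P' Q' T' : GaussianInt} (h : Gd X P Q T)
    (e : ({P, Q, T} : Multiset GaussianInt) = {P', Q', T'}) : Gd X P' Q' T' := by
  rcases h with ⟨h1, h2⟩ | ⟨l, h1, h2, h3⟩
  · left
    refine ⟨?_, ?_⟩
    · rw [distinct_iff, ← e, ← distinct_iff]
      exact h1
    · rw [← st_perm e]
      exact h2
  · right
    exact ⟨l, h1, by rw [← st_perm e]; exact h2, h3⟩

theorem sq_facts {P Q R S : GaussianInt} {e : ℤ} (he : e = 1 ∨ e = -1)
    (hR : R.re = Q.re - e * (Q.im - P.im) ∧ R.im = Q.im + e * (Q.re - P.re))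
    (hS : S.re = P.re - e * (Q.im - P.im) ∧ S.im = P.im + e * (Q.re - P.re)) :
    dist2 P R = 2 * dist2 P Q ∧ dist2 Q R = dist2 P Q ∧ dist2 P S = dist2 P Q ∧
      dist2 Q S = 2 * dist2 P Q ∧ dist2 R S = dist2 P Q := by
  have he2 : e ^ 2 = 1 := by rcases he with rfl | rfl <;> norm_num
  obtain ⟨hR1, hR2⟩ := hR
  obtain ⟨hS1, hS2⟩ := hS
  have dPR : ((dist2 P R : ℕ) : ℤ) = 2 * dist2 P Q := by
    rw [dist2_cast, dist2_cast, hR1, hR2]
    linear_combination ((Q.im - P.im) ^ 2 + (Q.re - P.re) ^ 2) * he2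
  have dQR : ((dist2 Q R : ℕ) : ℤ) = dist2 P Q := by
    rw [dist2_cast, dist2_cast, hR1, hR2]
    linear_combination ((Q.im - P.im) ^ 2 + (Q.re - P.re) ^ 2) * he2
  have dPS : ((dist2 P S : ℕ) : ℤ) = dist2 P Q := by
    rw [dist2_cast, dist2_cast, hS1, hS2]
    linear_combination ((Q.im - P.im) ^ 2 + (Q.re - P.re) ^ 2) * he2
  have dQS : ((dist2 Q S : ℕ) : ℤ) = 2 * dist2 P Q := by
    rw [dist2_cast, dist2_cast, hS1, hS2]
    linear_combination ((Q.im - P.im) ^ 2 + (Q.re - P.re) ^ 2) * he2
  have dRS : ((dist2 R S : ℕ) : ℤ) = dist2 P Q := by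
    rw [dist2_cast, dist2_cast, hR1, hR2, hS1, hS2]
    ring
  refine ⟨?_, ?_, ?_, ?_, ?_⟩
  · exact_mod_cast dPR
  · exact_mod_cast dQR
  · exact_mod_cast dPS
  · exact_mod_cast dQS
  · exact_mod_cast dRS

theorem ne_of_dist {P Q : GaussianInt} (h : 1 ≤ dist2 P Q) : P ≠ Q := by
  rintro rfl
  rw [dist2_self] at h
  omega

theorem area_self_left (P Q : GaussianInt) : area2 P Q P = 0 := by
  unfold area2
  simp

theorem area_self_right (P Q : GaussianInt) : area2 P Q Q = 0 := by
  unfold area2
  have : (Q.re - P.re) * (Q.im - P.im) - (Q.im - P.im) * (Q.re - P.re) = 0 := by ring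
  rw [this]
  rfl

theorem st_val (P Q T : GaussianInt) :
    st P Q T = ({dist2 T P, dist2 Q T, dist2 P Q}, area2 P Q T) := rfl

theorem ms_a (l : ℕ) : ({l, l, 0} : Multiset ℕ) = {0, l, l} := rot3' l l 0

theorem ms_b (l : ℕ) : ({l, l, 0} : Multiset ℕ) = {l, 0, l} := by
  rw [ms_a, rot3]

/-- a move with sign `e`, from distinct `P`, `Q` -/
theorem gd_move {X : St} {P Q T R S : GaussianInt} (h : Gd X P Q T) (hPQ : P ≠ Q)
    (hsq : Square P Q R S) : Gd X R S T := by
  obtain ⟨e, he, hR, hS⟩ := square_iff.1 hsq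
  obtain ⟨d1, d2, d3, d4, d5⟩ := sq_facts he hR hS
  obtain ⟨k1, k2, k3, k4⟩ := move_effect (T := T) he hR hS
  have hc := dist2_pos hPQ
  have hRS : R ≠ S := ne_of_dist (by omega)
  have hz : (e * sarea P Q T).natAbs = area2 P Q T := by
    rw [area2_eq]
    rcases he with rfl | rfl <;> omega
  rcases h with ⟨hd, hconn⟩ | ⟨l, hl, hst, hconn⟩
  · -- distinct
    by_cases hTR : T = R
    · right
      have z : dist2 T R = 0 := by rw [hTR, dist2_self]
      have e1 : dist2 Q T = dist2 P Q := by rw [hTR]; exact d2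
      have e2 : dist2 T P = 2 * dist2 P Q := by rw [dist2_comm, hTR]; exact d1
      have hes : e * sarea P Q T = dist2 P Q := by
        rw [z, e1] at k3
        push_cast at k3
        linarith
      have hs : area2 P Q T = dist2 P Q := by rw [← hz, hes]; rfl
      refine ⟨dist2 P Q, hc, ?_, ?_⟩
      · rw [st_val, z, k4, hes, sub_self, Int.natAbs_zero, d5, dist2_comm S T, hTR, d5, ← ms_a]
      · rw [st_val, e1, e2, hs, rot3] at hconn
        exact hconn
    · by_cases hTS : T = S
      · right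
        have z : dist2 T S = 0 := by rw [hTS, dist2_self]
        have e1 : dist2 T P = dist2 P Q := by rw [dist2_comm, hTS]; exact d3
        have e2 : dist2 Q T = 2 * dist2 P Q := by rw [hTS]; exact d4
        have hes : e * sarea P Q T = dist2 P Q := by
          rw [z, e1] at k2
          push_cast at k2
          linarith
        have hs : area2 P Q T = dist2 P Q := by rw [← hz, hes]; rfl
        refine ⟨dist2 P Q, hc, ?_, ?_⟩
        · rw [st_val, dist2_comm S T, z, k4, hes, sub_self, Int.natAbs_zero, d5, hTS, dist2_comm S R, d5,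
            ← ms_b]
        · rw [st_val, e1, e2, hs] at hconn
          exact hconn
      · left
        have hmv : Move {P, Q, T} {R, S, T} := by
          refine ⟨P, Q, T, R, S, hsq, ?_, ?_, rfl, rfl⟩
          · simp only [Multiset.insert_eq_cons, Multiset.mem_cons, Multiset.mem_singleton, not_or]
            exact ⟨(ne_of_dist (by omega)).symm, (ne_of_dist (by omega)).symm, fun h => hTR h.symm⟩
          · simp only [Multiset.insert_eq_cons, Multiset.mem_cons, Multiset.mem_singleton, not_or]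
            exact ⟨(ne_of_dist (by omega)).symm, (ne_of_dist (by omega)).symm, fun h => hTS h.symm⟩
        obtain ⟨P', Q', T', g1, g2, g3⟩ := sound hd hmv
        refine ⟨?_, ?_⟩
        · rw [distinct_iff, g1, ← distinct_iff]
          exact g2
        · rw [st_perm g1]
          exact conn_equiv.trans hconn g3.conn
  · -- two points coincide: `T = P` or `T = Q`
    left
    have hm : ({dist2 T P, dist2 Q T, dist2 P Q} : Multiset ℕ) = {l, l, 0} := congrArg Prod.fst hst
    have hTT : dist2 P Q = l ∧ (dist2 T P = 0 ∨ dist2 Q T = 0) := by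
      rcases ms3 hm with ⟨h1, h2, h3⟩ | ⟨h1, h2, h3⟩ | ⟨h1, h2, h3⟩ | ⟨h1, h2, h3⟩ |
        ⟨h1, h2, h3⟩ | ⟨h1, h2, h3⟩
      · omega
      · exact ⟨h3, Or.inr h2⟩
      · omega
      · exact ⟨h3, Or.inr h2⟩
      · exact ⟨h3, Or.inl h1⟩
      · exact ⟨h3, Or.inl h1⟩
    obtain ⟨hl1, h0⟩ := hTT
    rcases h0 with h0 | h0
    · have hTP : T = P := by
        by_contra hne
        have := dist2_pos hne
        omega
      subst hTP
      have es : sarea T Q T = 0 := by unfold sarea; ring
      refine ⟨⟨hRS, ?_, ?_⟩, ?_⟩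
      · exact (ne_of_dist (by omega)).symm
      · exact ne_of_dist (by omega)
      · rw [st_val, k4, es, mul_zero, sub_zero, Int.natAbs_natCast, d5, d1, dist2_comm S T, d3, hl1, rot3]
        exact hconn
    · have hTQ : T = Q := by
        by_contra hne
        have := dist2_pos (Ne.symm hne)
        omega
      subst hTQ
      have es : sarea P T T = 0 := by unfold sarea; ring
      refine ⟨⟨hRS, ?_, ?_⟩, ?_⟩
      · exact (ne_of_dist (by omega)).symm
      · exact ne_of_dist (by omega)
      · rw [st_val, k4, es, mul_zero, sub_zero, Int.natAbs_natCast, d5, d2, dist2_comm S T, d4, hl1]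
        exact hconn

theorem I_eq : Pool.Agent.FleaC.I = Pool.Agent.Flea.I := rfl

/-- the pairs which come from these triangles -/
def Prs (X : St) (a b : GaussianInt) : Prop :=
  ∃ P Q T : GaussianInt, Gd X P Q T ∧ Q - P = a ∧ T - Q = I * b

theorem prs_clo (X : St) : Pool.Agent.Flea.Clo (Prs X) := by
  have hI : ∀ z : GaussianInt, I * (I * z) = -z := by
    intro z
    have : I * I = (-1 : GaussianInt) := by
      apply Zsqrtd.ext <;> simp [I]
    rw [← mul_assoc, this, neg_one_mul]
  refine ⟨?_, ?_, ?_, ?_, ?_⟩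
  · rintro a b ⟨P, Q, T, h, h1, h2⟩
    by_cases ha : a = 0
    · exact ⟨P, Q, T, h, h1, by rw [h2, ha, add_zero]⟩
    · have hPQ : P ≠ Q := by
        rintro rfl
        exact ha (by rw [← h1, sub_self])
      have hm := gd_move (R := Q - I * (Q - P)) (S := P - I * (Q - P)) h hPQ (Or.inr ⟨rfl, rfl⟩)
      refine ⟨P - I * (Q - P), Q - I * (Q - P), T, hm.perm (rot3 _ _ _), ?_, ?_⟩
      · rw [← h1]; ring
      · have h3 : T - (Q - I * (Q - P)) = (T - Q) + I * (Q - P) := by ring
        rw [h3, h1, h2]; ring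
  · rintro a b ⟨P, Q, T, h, h1, h2⟩
    by_cases ha : a = 0
    · exact ⟨P, Q, T, h, h1, by rw [h2, ha, sub_zero]⟩
    · have hPQ : P ≠ Q := by
        rintro rfl
        exact ha (by rw [← h1, sub_self])
      have hm := gd_move (R := Q + I * (Q - P)) (S := P + I * (Q - P)) h hPQ (Or.inl ⟨rfl, rfl⟩)
      refine ⟨P + I * (Q - P), Q + I * (Q - P), T, hm.perm (rot3 _ _ _), ?_, ?_⟩
      · rw [← h1]; ring
      · have h3 : T - (Q + I * (Q - P)) = (T - Q) - I * (Q - P) := by ring
        rw [h3, h1, h2]; ring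
  · rintro a b ⟨P, Q, T, h, h1, h2⟩
    by_cases hb : b = 0
    · exact ⟨P, Q, T, h, by rw [h1, hb, add_zero], h2⟩
    · have h4 : I * (T - Q) = -b := by rw [h2, hI]
      have hQT : Q ≠ T := by
        rintro rfl
        rw [sub_self, mul_zero] at h4
        exact hb (by rw [eq_comm, neg_eq_zero] at h4; exact h4)
      have hm := gd_move (R := T + b) (S := Q + b) (h.perm (p231 P Q T)) hQT (Or.inr ⟨by rw [h4]; ring, by rw [h4]; ring⟩)
      refine ⟨P, Q + b, T + b, hm.perm ?_, ?_, ?_⟩
      · rw [p321]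
      · rw [← h1]; ring
      · have h3 : T + b - (Q + b) = T - Q := by ring
        rw [h3, h2]
  · rintro a b ⟨P, Q, T, h, h1, h2⟩
    by_cases hb : b = 0
    · exact ⟨P, Q, T, h, by rw [h1, hb, sub_zero], h2⟩
    · have h4 : I * (T - Q) = -b := by rw [h2, hI]
      have hQT : Q ≠ T := by
        rintro rfl
        rw [sub_self, mul_zero] at h4
        exact hb (by rw [eq_comm, neg_eq_zero] at h4; exact h4)
      have hm := gd_move (R := T - b) (S := Q - b) (h.perm (p231 P Q T)) hQT (Or.inl ⟨by rw [h4]; ring, by rw [h4]; ring⟩)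
      refine ⟨P, Q - b, T - b, hm.perm ?_, ?_, ?_⟩
      · rw [p321]
      · rw [← h1]; ring
      · have h3 : T - b - (Q - b) = T - Q := by ring
        rw [h3, h2]
  · rintro a b ⟨P, Q, T, h, h1, h2⟩
    refine ⟨Q, T, P, h.perm (p231 P Q T), h2, ?_⟩
    have h3 : P - T = -(T - Q) - (Q - P) := by ring
    change P - T = I * (I * a - b)
    rw [h3, h1, h2, mul_sub, hI]
    ring

/-- A positive area of a pair occurs. -/
theorem occurs_of_prs {A B C : GaussianInt} (hd : Distinct A B C) {a b : GaussianInt} {D : ℕ}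
    (hD : 1 ≤ D) (h : Prs (st A B C) a b) (hR : Pool.Agent.Flea.R a b = D) : Occurs A B C D := by
  obtain ⟨P, Q, T, h1, h2, h3⟩ := h
  have hP : T - P = a + I * b := by
    rw [← h2, ← h3]; ring
  have hIr : (I * b).re = -b.im := by simp [I]
  have hIi : (I * b).im = b.re := by simp [I]
  have e1 : Q.re - P.re = a.re := by rw [← h2]; rfl
  have e2 : Q.im - P.im = a.im := by rw [← h2]; rfl
  have e3 : T.re - P.re = a.re - b.im := by
    have : (T - P).re = (a + I * b).re := by rw [hP]
    rw [Zsqrtd.re_add, hIr] at this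
    exact this
  have e4 : T.im - P.im = a.im + b.re := by
    have : (T - P).im = (a + I * b).im := by rw [hP]
    rw [Zsqrtd.im_add, hIi] at this
    exact this
  have harea : area2 P Q T = D := by
    unfold area2
    rw [e1, e2, e3, e4]
    have : a.re * (a.im + b.re) - a.im * (a.re - b.im) = (D : ℤ) := by
      rw [← hR]
      unfold Pool.Agent.Flea.R
      ring
    rw [this]
    exact Int.natAbs_natCast D
  rcases h1 with ⟨g1, g2⟩ | ⟨l, -, g2, -⟩
  · rw [occurs_iff hd]
    obtain ⟨n, hn, hp⟩ := short (val_st g1) g2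
    refine ⟨n, ?_, _, hp, harea⟩
    rw [harea] at hn
    have : sg (st A B C) = sides A B C := by
      unfold st
      rw [sg_mk]
      rfl
    rw [this] at hn
    exact hn
  · exfalso
    have : area2 P Q T = 0 := congrArg Prod.snd g2
    omega

end Pool.Agent.FleaU
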