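import Pool.Agent.FleaU.One

/-! # Corollaries of the uniform density theorem -/

set_option autoImplicit false

namespace Pool.Agent.FleaU

open Finset Pool.Agent.FleaC

/-- `D` is not attained by some primitive triangle with sides at most `N` -/
def Non (N D : ℕ) : Prop :=
  ∃ A B C : GaussianInt, Adm true A B C ∧ SidesLe N A B C ∧ ¬ Occurs A B C D

theorem non_of_bad {deg : Bool} {N D : ℕ} (h : Bad deg N D) : Non N D := by
  obtain ⟨A, B, C, h1, h2, h3⟩ := h
  exact ⟨A, B, C, ⟨h1.1, h1.2.1, Or.inl rfl⟩, h2, h3.1⟩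

/-- the number of elements of a window in terms of `range X` -/
theorem ncard_window (P : ℕ → Prop) [DecidablePred P] (Y X : ℕ) :
    {D : ℕ | Y ≤ D ∧ D < Y + X ∧ P D}.ncard = ((range X).filter fun n => P (Y + n)).card := by
  have : {D : ℕ | Y ≤ D ∧ D < Y + X ∧ P D} =
      (((range X).filter fun n => P (Y + n)).image fun n => Y + n : Finset ℕ) := by
    ext D
    simp only [Set.mem_ofPred_eq, coe_image, coe_filter, mem_range, Set.mem_image]
    constructor
    · rintro ⟨h1, h2, h3⟩
      exact ⟨D - Y, ⟨by omega, by rw [Nat.add_sub_cancel' h1]; exact h3⟩, Nat.add_sub_cancel' h1⟩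
    · rintro ⟨n, ⟨h1, h2⟩, rfl⟩
      exact ⟨by omega, by omega, h2⟩
  rw [this, Set.ncard_coe_finset, card_image_of_injective _ (add_right_injective Y)]

open Classical in
/-- few exceptions in every long window -/
theorem window {η C5 : ℝ} {A5 : ℕ} (h0 : 0 < η) (h1 : η < 1) (hC : 1 ≤ C5)
    (hmain : ∀ (N Y X : ℕ), 1 ≤ N → 1 ≤ X →
      ((((range X).filter fun n : ℕ => Non N (Y + n)).card : ℕ) : ℝ) ≤
        C5 * (N : ℝ) ^ A5 * (X : ℝ) ^ (1 - η)) :
    ∃ A K : ℕ, A5 ≤ A ∧ C5 ≤ K ∧ ∀ N q Y X : ℕ, 1 ≤ N → 1 ≤ q → K * (N * q) ^ A ≤ X →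
      q * ((range X).filter fun n : ℕ => Non N (Y + n)).card < X := by
  set A : ℕ := ⌈((A5 : ℝ) + 1) / η⌉₊ with hA
  set K : ℕ := ⌈(C5 + 1) ^ (1 / η)⌉₊ with hK
  have hA1 : ((A5 : ℝ) + 1) / η ≤ A := Nat.le_ceil _
  have hA2 : (A5 : ℝ) + 1 ≤ A * η := by
    rwa [div_le_iff₀ h0] at hA1
  have hK1 : (C5 + 1) ^ (1 / η) ≤ K := Nat.le_ceil _
  have hC1 : 1 ≤ C5 + 1 := by linarith
  have hK2 : C5 + 1 ≤ K := by
    refine le_trans ?_ hK1
    calc C5 + 1 = (C5 + 1) ^ (1 : ℝ) := (Real.rpow_one _).symm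
      _ ≤ (C5 + 1) ^ (1 / η) := by
          apply Real.rpow_le_rpow_of_exponent_le hC1
          rw [le_div_iff₀ h0]
          linarith
  refine ⟨A, K, ?_, by linarith, ?_⟩
  · have : (A5 : ℝ) ≤ A := by
      have hA0 : (0 : ℝ) ≤ A := Nat.cast_nonneg A
      nlinarith
    exact_mod_cast this
  · intro N q Y X hN hq hX
    have hNR : (1 : ℝ) ≤ N := by exact_mod_cast hN
    have hqR : (1 : ℝ) ≤ q := by exact_mod_cast hq
    have hNq : (1 : ℝ) ≤ (N : ℝ) * q := by nlinarith
    have hXR : (K : ℝ) * ((N : ℝ) * q) ^ A ≤ X := by exact_mod_cast hX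
    have hKpos : (1 : ℝ) ≤ K := by linarith
    have hX1 : (1 : ℝ) ≤ X := by
      have : (1 : ℝ) ≤ ((N : ℝ) * q) ^ A := one_le_pow₀ hNq
      nlinarith
    have hX1' : 1 ≤ X := by exact_mod_cast hX1
    have hXpos : (0 : ℝ) < X := by linarith
    have hXη : (C5 + 1) * ((N : ℝ) ^ A5 * q) ≤ (X : ℝ) ^ η := by
      have k1 : ((K : ℝ) * ((N : ℝ) * q) ^ A) ^ η ≤ (X : ℝ) ^ η :=
        Real.rpow_le_rpow (by positivity) hXR h0.le
      refine le_trans ?_ k1
      rw [Real.mul_rpow (by positivity) (by positivity)]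
      have k2 : C5 + 1 ≤ (K : ℝ) ^ η := by
        calc C5 + 1 = ((C5 + 1) ^ (1 / η)) ^ η := by
              rw [← Real.rpow_mul (by linarith), one_div, inv_mul_cancel₀ h0.ne', Real.rpow_one]
          _ ≤ (K : ℝ) ^ η := Real.rpow_le_rpow (by positivity) hK1 h0.le
      have k3 : (N : ℝ) ^ A5 * q ≤ (((N : ℝ) * q) ^ A) ^ η := by
        calc (N : ℝ) ^ A5 * q ≤ ((N : ℝ) * q) ^ A5 * ((N : ℝ) * q) := by
              refine mul_le_mul (pow_le_pow_left₀ (by linarith) (by nlinarith) _) (by nlinarith)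
                (by linarith) (by positivity)
          _ = ((N : ℝ) * q) ^ ((A5 : ℝ) + 1) := by
              rw [Real.rpow_add (by linarith), Real.rpow_one, Real.rpow_natCast]
          _ ≤ ((N : ℝ) * q) ^ (A * η) := Real.rpow_le_rpow_of_exponent_le hNq hA2
          _ = (((N : ℝ) * q) ^ A) ^ η := by
              rw [Real.rpow_mul (by linarith), Real.rpow_natCast]
      exact mul_le_mul k2 k3 (by positivity) (by positivity)
    have k4 := hmain N Y X hN hX1'
    have k5 : (q : ℝ) * ((((range X).filter fun n : ℕ => Non N (Y + n)).card : ℕ) : ℝ) < X := by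
      have k6 : (X : ℝ) ^ (1 - η) * (X : ℝ) ^ η = X := by
        rw [← Real.rpow_add hXpos, sub_add_cancel, Real.rpow_one]
      have k7 : 0 < (X : ℝ) ^ (1 - η) := Real.rpow_pos_of_pos hXpos _
      have k8 : 0 < (N : ℝ) ^ A5 * q := by positivity
      calc (q : ℝ) * ((((range X).filter fun n : ℕ => Non N (Y + n)).card : ℕ) : ℝ)
          ≤ q * (C5 * (N : ℝ) ^ A5 * (X : ℝ) ^ (1 - η)) := mul_le_mul_of_nonneg_left k4 (by linarith)
        _ = (X : ℝ) ^ (1 - η) * (C5 * ((N : ℝ) ^ A5 * q)) := by ring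
        _ < (X : ℝ) ^ (1 - η) * ((C5 + 1) * ((N : ℝ) ^ A5 * q)) := by
            refine mul_lt_mul_of_pos_left ?_ k7
            nlinarith
        _ ≤ (X : ℝ) ^ (1 - η) * (X : ℝ) ^ η := mul_le_mul_of_nonneg_left hXη k7.le
        _ = X := k6
    exact_mod_cast k5

open Classical in
/-- an element of a residue class which is attained by all triangles -/
theorem progression {A K : ℕ} (hw : ∀ N q Y X : ℕ, 1 ≤ N → 1 ≤ q → K * (N * q) ^ A ≤ X →
      q * ((range X).filter fun n : ℕ => Non N (Y + n)).card < X) (hK : 1 ≤ K)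
    {N q : ℕ} (hN : 1 ≤ N) (hq : 1 ≤ q) (r Y : ℕ) :
    ∃ D : ℕ, Y ≤ D ∧ D < Y + K * (N * q) ^ (A + 1) ∧ D % q = r % q ∧ ¬ Non N D := by
  set M : ℕ := K * (N * q) ^ A with hM
  have hNq : 1 ≤ N * q := Nat.mul_pos hN hq
  have hM1 : 1 ≤ M := Nat.mul_pos hK (pow_pos hNq _)
  by_contra hcon
  push Not at hcon
  set o : ℕ := (r + (q - 1) * Y) % q with ho
  have hoq : o < q := Nat.mod_lt _ hq
  have hmod : ∀ j : ℕ, (Y + (o + q * j)) % q = r % q := by
    intro j
    have e1 : (Y + (o + q * j)) % q = (Y + o) % q := by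
      rw [← add_assoc, Nat.add_mul_mod_self_left]
    rw [e1, ho, Nat.add_mod_mod]
    have e2 : Y + (r + (q - 1) * Y) = r + q * Y := by
      obtain ⟨q', rfl⟩ : ∃ q', q = q' + 1 := ⟨q - 1, by omega⟩
      rw [Nat.add_sub_cancel]
      ring
    rw [e2, Nat.add_mul_mod_self_left]
  have hqM : q * M ≤ K * (N * q) ^ (A + 1) := by
    rw [hM, pow_succ]
    calc q * (K * (N * q) ^ A) = K * ((N * q) ^ A * q) := by ring
      _ ≤ K * ((N * q) ^ A * (N * q)) :=
          Nat.mul_le_mul_left _ (Nat.mul_le_mul_left _ (Nat.le_mul_of_pos_left _ hN))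
  have hin : ∀ j : ℕ, j < M → o + q * j < q * M := by
    intro j hj
    have : q * j + q ≤ q * M := by
      calc q * j + q = q * (j + 1) := by ring
        _ ≤ q * M := Nat.mul_le_mul_left _ hj
    omega
  have hsub : (range M).image (fun j => o + q * j) ⊆ (range (q * M)).filter fun n : ℕ => Non N (Y + n) := by
    intro n hn
    rw [mem_image] at hn
    obtain ⟨j, hj, rfl⟩ := hn
    rw [mem_range] at hj
    rw [mem_filter, mem_range]
    refine ⟨hin j hj, ?_⟩
    by_contra hno
    have h1 := hin j hj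
    exact hno (hcon (Y + (o + q * j)) (by omega) (by omega) (hmod j))
  have hcard : M ≤ ((range (q * M)).filter fun n : ℕ => Non N (Y + n)).card := by
    have h1 := card_le_card hsub
    rw [card_image_of_injective, card_range] at h1
    · exact h1
    · intro i j hij
      have hij' : o + q * i = o + q * j := hij
      exact Nat.eq_of_mul_eq_mul_left hq (Nat.add_left_cancel hij')
  have h2 := hw N q Y (q * M) hN hq (by
    rw [← hM]
    exact Nat.le_mul_of_pos_left _ hq)
  have h3 : q * M ≤ q * ((range (q * M)).filter fun n : ℕ => Non N (Y + n)).card :=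
    Nat.mul_le_mul_left _ hcard
  omega

/-! ### the largest length with a given proportion of missed areas -/

theorem sidesLe_zero {A B C : GaussianInt} (hd : Distinct A B C) : ¬ SidesLe 0 A B C := by
  intro h
  have h1 := dist2_pos hd.1
  have h2 := h.1
  omega

/-- the number of missed doubled areas below `X` -/
noncomputable def cnt (deg : Bool) (N : ℕ) : ℕ → ℕ
  | 0 => 0
  | X + 1 => by
    classical
    exact cnt deg N X + if Bad deg N X then 1 else 0

theorem cnt_eq (deg : Bool) (N X : ℕ) : cnt deg N X = {D : ℕ | D < X ∧ Bad deg N D}.ncard := by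
  classical
  induction X with
  | zero =>
    have : {D : ℕ | D < 0 ∧ Bad deg N D} = ∅ := by
      ext D
      simp
    rw [this, Set.ncard_empty]
    rfl
  | succ X ih =>
    change cnt deg N X + (if Bad deg N X then 1 else 0) = _
    rw [ih]
    by_cases h : Bad deg N X
    · rw [if_pos h]
      have e : {D : ℕ | D < X + 1 ∧ Bad deg N D} = insert X {D : ℕ | D < X ∧ Bad deg N D} := by
        ext D
        simp only [Set.mem_ofPred_eq, Set.mem_insert_iff]
        constructor
        · rintro ⟨h1, h2⟩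
          rcases Nat.lt_succ_iff_lt_or_eq.1 h1 with h3 | h3
          · exact Or.inr ⟨h3, h2⟩
          · exact Or.inl h3
        · rintro (rfl | ⟨h1, h2⟩)
          · exact ⟨Nat.lt_succ_self _, h⟩
          · exact ⟨by omega, h2⟩
      rw [e, Set.ncard_insert_of_notMem (fun hm => lt_irrefl X hm.1)
        ((Set.finite_Iio X).subset fun D hD => hD.1)]
    · rw [if_neg h, add_zero]
      congr 1
      ext D
      simp only [Set.mem_ofPred_eq]
      constructor
      · rintro ⟨h1, h2⟩
        exact ⟨by omega, h2⟩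
      · rintro ⟨h1, h2⟩
        rcases Nat.lt_succ_iff_lt_or_eq.1 h1 with h3 | h3
        · exact ⟨h3, h2⟩
        · rw [h3] at h2
          exact absurd h2 h

theorem pr_cnt (deg : Bool) : Primrec₂ (cnt deg) := by
  classical
  have hb : PrimrecPred (fun x : ℕ × (ℕ × ℕ) => Bad deg x.1 x.2.1) :=
    (pr_bad deg).comp (Primrec.fst.pair (Primrec.fst.comp Primrec.snd))
  have hstep : Primrec₂ (fun (N : ℕ) (x : ℕ × ℕ) => x.2 + if Bad deg N x.1 then 1 else 0) := by
    apply Primrec₂.mk
    exact Primrec.nat_add.comp (Primrec.snd.comp Primrec.snd)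
      (Primrec.ite hb (Primrec.const 1) (Primrec.const 0))
  have h := Primrec.nat_rec (f := fun _ : ℕ => (0 : ℕ)) (Primrec.const 0) hstep
  have key : ∀ N X : ℕ, Nat.rec (motive := fun _ => ℕ) 0
      (fun n IH => IH + if Bad deg N n then 1 else 0) X = cnt deg N X := by
    intro N X
    induction X with
    | zero => rfl
    | succ X ih =>
      change Nat.rec (motive := fun _ => ℕ) 0
        (fun n IH => IH + if Bad deg N n then 1 else 0) X + (if Bad deg N X then 1 else 0) = _
      rw [ih]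
      rfl
  exact h.of_eq key

theorem cnt_le {deg : Bool} {N X : ℕ} {P : ℕ → Prop} [DecidablePred P] (h : ∀ D, Bad deg N D → P D) :
    cnt deg N X ≤ ((range X).filter P).card := by
  rw [cnt_eq, ← Set.ncard_coe_finset]
  refine Set.ncard_le_ncard ?_ (Finset.finite_toSet _)
  rintro D ⟨h1, h2⟩
  rw [mem_coe, mem_filter, mem_range]
  exact ⟨h1, h D h2⟩

open Classical in
/-- The largest `X` such that more than `X / q` of the numbers below `X` are missed is a primitive
recursive function with a polynomial bound. -/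
theorem proportion {A K : ℕ} (hw : ∀ N q Y X : ℕ, 1 ≤ N → 1 ≤ q → K * (N * q) ^ A ≤ X →
      q * ((range X).filter fun n : ℕ => Non N (Y + n)).card < X) (deg : Bool) :
    ∃ F : ℕ → ℕ → ℕ, Primrec₂ F ∧ ∀ N q : ℕ, F N q ≤ K * (N * q) ^ A ∧
      (∀ X : ℕ, F N q < X → q * {D : ℕ | D < X ∧ Bad deg N D}.ncard ≤ X) ∧
      (F N q ≠ 0 → F N q < q * {D : ℕ | D < F N q ∧ Bad deg N D}.ncard) := by
  have hbound : ∀ N q X : ℕ, K * (N * q) ^ A < X → ¬ X < q * cnt deg N X := by
    intro N q X hX hlt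
    rcases Nat.eq_zero_or_pos q with rfl | hq
    · omega
    rcases Nat.eq_zero_or_pos N with rfl | hN
    · have : cnt deg 0 X = 0 := by
        rw [cnt_eq]
        have : {D : ℕ | D < X ∧ Bad deg 0 D} = ∅ := by
          ext D
          simp only [Set.mem_ofPred_eq, Set.mem_empty_iff_false, iff_false, not_and]
          rintro - ⟨A', B', C', h1, h2, -⟩
          exact sidesLe_zero h1.1 h2
        rw [this, Set.ncard_empty]
      rw [this] at hlt
      omega
    · have h1 := hw N q 0 X hN hq hX.le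
      have h2 : cnt deg N X ≤ ((range X).filter fun n : ℕ => Non N (0 + n)).card :=
        cnt_le fun D hD => by
          rw [zero_add]
          exact non_of_bad hD
      have h3 := Nat.mul_le_mul_left q h2
      omega
  refine ⟨fun N q => Nat.findGreatest (fun X => X < q * cnt deg N X) (K * (N * q) ^ A), ?_, ?_⟩
  · have hNq : Primrec (fun x : ℕ × ℕ => x.1 * x.2) := Primrec.nat_mul.comp Primrec.fst Primrec.snd
    have h1 : Primrec (fun x : ℕ × ℕ => K * (x.1 * x.2) ^ A) :=
      Primrec.nat_mul.comp (Primrec.const K) (pr_pow hNq (Primrec.const A))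
    have h2 : PrimrecRel (fun (x : ℕ × ℕ) (X : ℕ) => X < x.2 * cnt deg x.1 X) := by
      refine PrimrecPred.primrecRel (p := fun y : (ℕ × ℕ) × ℕ => y.2 < y.1.2 * cnt deg y.1.1 y.2) ?_
      exact Primrec.nat_lt.comp Primrec.snd (Primrec.nat_mul.comp (Primrec.snd.comp Primrec.fst)
        ((pr_cnt deg).comp (Primrec.fst.comp Primrec.fst) Primrec.snd))
    have h3 := Primrec.nat_findGreatest (f := fun x : ℕ × ℕ => K * (x.1 * x.2) ^ A)
      (p := fun (x : ℕ × ℕ) (X : ℕ) => X < x.2 * cnt deg x.1 X) h1 h2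
    apply Primrec₂.mk
    refine h3.of_eq ?_
    intro x
    rfl
  · intro N q
    refine ⟨Nat.findGreatest_le _, ?_, ?_⟩
    · intro X hX
      rw [← cnt_eq]
      by_contra hcon
      push Not at hcon
      rcases Nat.lt_or_ge (K * (N * q) ^ A) X with h | h
      · exact hbound N q X h hcon
      · exact absurd (Nat.le_findGreatest (P := fun X => X < q * cnt deg N X) h hcon) (not_le.2 hX)
    · intro h0
      rw [← cnt_eq]
      exact Nat.findGreatest_of_ne_zero (P := fun X => X < q * cnt deg N X)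
        (n := K * (N * q) ^ A) rfl h0

end Pool.Agent.FleaU
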