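import Pool.Agent.Flea.Fin

/-! # The density theorem for nodes with a polynomial constant -/

set_option autoImplicit false

namespace Pool.Agent.FleaU

open Finset Pool.Agent.Flea

-- MODULE f3
private theorem f3_big {C A M X : ℝ} (k : ℕ) (hC : 1 ≤ C) (hA : 1 ≤ A) (hM : 1 ≤ M) :
    24 * 2 ^ k * (18 * C) ^ 3 * (A * X + A ^ 3) / M + 3 * (18 * C * A) ^ 2 ≤
      1944 * C ^ 2 * (4 * 2 ^ k * (18 * C * A) * X / M) + (24 * 2 ^ k + 3) * (18 * C * A) ^ 3 := by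
  have hM0 : 0 < M := by linarith
  have b1 : 24 * 2 ^ k * (18 * C) ^ 3 * (A * X + A ^ 3) / M =
      1944 * C ^ 2 * (4 * 2 ^ k * (18 * C * A) * X / M) + 24 * 2 ^ k * (18 * C * A) ^ 3 / M := by
    ring
  have b4 : 1 ≤ 18 * C * A := by nlinarith
  have b2 : 24 * 2 ^ k * (18 * C * A) ^ 3 / M ≤ 24 * 2 ^ k * (18 * C * A) ^ 3 :=
    div_le_self (by positivity) hM
  have b3 : (18 * C * A) ^ 2 ≤ (18 * C * A) ^ 3 := pow_le_pow_right₀ b4 (by norm_num)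
  rw [b1]
  linarith

private theorem f3_size {Z s : ℝ} (u k : ℕ) (hs : 2 ≤ s) (hs2 : s ^ 2 = Z) (hk : 2 * u + 3 < k + 1) :
    8 * (Z ^ u) ^ 2 * s < Z ^ (k + 1) := by
  have a1 : s ≤ Z := by rw [← hs2]; nlinarith
  have a2 : 4 ≤ Z := by rw [← hs2]; nlinarith
  have a3 : 8 * (Z ^ u) ^ 2 * s ≤ Z ^ (2 * u + 3) := by
    have e : Z ^ (2 * u + 3) = (Z * Z) * (Z ^ u) ^ 2 * Z := by ring
    rw [e]
    apply mul_le_mul _ a1 (by linarith) (by positivity)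
    apply mul_le_mul_of_nonneg_right _ (by positivity)
    nlinarith
  exact lt_of_le_of_lt a3 (pow_lt_pow_right₀ (by linarith) hk)

private theorem f3_pow {Z s X : ℝ} {u K : ℕ} (hK : K = 8 * u + 4) (hs : 2 ≤ s) (hs2 : s ^ 2 = Z) (hX : Z ^ K ≤ X) :
    (8 * (Z ^ u) ^ 2 * s) ^ 3 ≤ 512 * X ^ (3 / 4 : ℝ) := by
  have hZ : 1 ≤ Z := by rw [← hs2]; nlinarith
  have hZ0 : 0 < Z := by linarith
  have a1 : s ^ 3 ≤ Z ^ 2 := by
    rw [← hs2]
    calc s ^ 3 ≤ s ^ 4 := pow_le_pow_right₀ (by linarith) (by norm_num)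
      _ = (s ^ 2) ^ 2 := by ring
  have h1 : (8 * (Z ^ u) ^ 2 * s) ^ 3 ≤ 512 * Z ^ (6 * u + 2) := by
    calc (8 * (Z ^ u) ^ 2 * s) ^ 3 = 512 * (Z ^ u) ^ 6 * s ^ 3 := by ring
      _ ≤ 512 * (Z ^ u) ^ 6 * Z ^ 2 := mul_le_mul_of_nonneg_left a1 (by positivity)
      _ = 512 * Z ^ (6 * u + 2) := by ring
  have h2 : Z ^ (6 * u + 2) ≤ X ^ (3 / 4 : ℝ) := by
    calc Z ^ (6 * u + 2) ≤ Z ^ (6 * u + 3) := pow_le_pow_right₀ hZ (by omega)
      _ = (Z ^ K) ^ (3 / 4 : ℝ) := by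
          rw [hK, ← Real.rpow_natCast Z (8 * u + 4), ← Real.rpow_mul hZ0.le, ← Real.rpow_natCast Z (6 * u + 3)]
          congr 1
          push_cast
          ring
      _ ≤ X ^ (3 / 4 : ℝ) := Real.rpow_le_rpow (by positivity) hX (by norm_num)
  exact h1.trans (mul_le_mul_of_nonneg_left h2 (by norm_num))

open Classical in
/-- one value of `r` -/
private theorem f3_one {κ C c B c2 : ℝ} {u r k K X : ℕ} (hκ : 0 < κ) (hC : 1 ≤ C) (hc : 0 < c) (hu : 1 ≤ u)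
    (hc2 : 0 < c2) (hK : K = 8 * u + 4) (hk : k = 4 * K) (hr1 : 1 ≤ r)
    (hcmp : Real.exp (B * r) * 2 ^ r ≤ c2 * ((2 : ℝ) ^ 2 ^ r) ^ (κ / 4))
    {RR : G → G → Prop} {d : ℝ} (hd : 0 < d) (T : ℝ) (hT : T = 2 ^ 2 ^ (r - 1) / 2) (hT1 : 1 ≤ T)
    (Y : ℕ) (hY : Y = 2 ^ (2 ^ r * u)) (hA1 : 1 ≤ 8 / 9 * (Y : ℝ) ^ 2 * T / C) (U : Finset (ℤ × G))
    (hU : ∀ p ∈ U, 0 < p.1 ∧ p.1 ^ 2 < ((2 ^ 2 ^ r : ℕ) : ℤ) ∧ IsCoprime p.2.re p.2.im ∧
          (∀ q : ℕ, q.Prime → (q : ℤ) ∣ N p.2 → 2 ^ 2 ^ r ≤ q) ∧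
          (8 / 9 * Y ^ 2 * T / C ≤ (N p.2 : ℝ)) ∧ ((N p.2 : ℝ) ≤ 16 * Y ^ 2 * T) ∧
          ∀ n : ℤ, Hit p.2 n p.1 → ∃ v w, RR v w ∧ R v w = n)
    (hcard : c * (T / d) ^ (1 + κ) * Real.exp (-(B * r)) * Y ^ 2 / Real.log Y ≤ (U.card : ℝ))
    (hX1 : 2 ^ (2 ^ r * K) ≤ X) (hX2 : X < 2 ^ (2 ^ (r + 1) * K)) (η : ℝ) (hη : η ≤ κ / (8 * K)) (hη2 : η ≤ 1 / 4)
    (m : ℤ) :
    ((((range X).filter fun n : ℕ => ¬ ∃ v w, RR v w ∧ R v w = (n : ℤ) + m).card : ℕ) : ℝ) ≤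
      (1944 * C ^ 2 * (64 * 2 ^ k * d * u * c2 * (2 * d) ^ κ / c) + (24 * 2 ^ k + 3) * 512) * (X : ℝ) ^ (1 - η) := by
  have hX0 : 0 < X := lt_of_lt_of_le (by positivity) hX1
  have hXR : (1 : ℝ) ≤ X := by exact_mod_cast hX0
  have hKpos : 0 < K := by omega
  have hKR : (0 : ℝ) < K := by exact_mod_cast hKpos
  set z : ℕ := 2 ^ 2 ^ r with hz
  have hz2 : 2 ≤ z := by
    rw [hz]
    calc 2 = 2 ^ 1 := by norm_num
      _ ≤ 2 ^ 2 ^ r := Nat.pow_le_pow_right (by norm_num) Nat.one_le_two_pow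
  have hzR : ((z : ℕ) : ℝ) = (2 : ℝ) ^ 2 ^ r := by rw [hz]; push_cast; rfl
  have hzpos : (0 : ℝ) < (2 : ℝ) ^ 2 ^ r := by positivity
  have hz1R : (1 : ℝ) ≤ (2 : ℝ) ^ 2 ^ r := one_le_pow₀ (by norm_num)
  -- s
  set s : ℝ := 2 ^ 2 ^ (r - 1) with hs
  have hspos : 0 < s := by positivity
  have hs2 : s ^ 2 = (2 : ℝ) ^ 2 ^ r := by
    rw [hs, ← pow_mul, ← pow_succ, Nat.sub_add_cancel hr1]
  have hY2 : 2 ≤ Y := by
    rw [hY]
    calc 2 = 2 ^ 1 := by norm_num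
      _ ≤ 2 ^ (2 ^ r * u) := Nat.pow_le_pow_right (by norm_num) (Nat.mul_pos (by positivity) hu)
  have hYR : (2 : ℝ) ≤ Y := by exact_mod_cast hY2
  have hlogY : 0 < Real.log Y := Real.log_pos (by linarith)
  have hTpos : 0 < T := by linarith
  have hMpos : (0 : ℝ) < U.card := by
    refine lt_of_lt_of_le ?_ hcard
    positivity
  have hne : U.Nonempty := by
    rw [← card_pos]
    exact_mod_cast hMpos
  have hXz : X < z ^ (2 * K) := by
    rw [hz, ← pow_mul]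
    calc X < 2 ^ (2 ^ (r + 1) * K) := hX2
      _ = 2 ^ (2 ^ r * (2 * K)) := by rw [pow_succ]; ring_nf
  -- A
  have hCpos : 0 < C := by linarith
  set A : ℝ := 8 / 9 * Y ^ 2 * T / C with hA
  have hCA : 18 * C * A = 16 * Y ^ 2 * T := by
    rw [hA]; field_simp; ring
  have hsize : 16 * (Y : ℝ) ^ 2 * T = 8 * (((2 : ℝ) ^ 2 ^ r) ^ u) ^ 2 * s := by
    rw [hT, hY]
    push_cast
    have : ((2 : ℝ) ^ (2 ^ r * u)) = ((2 : ℝ) ^ 2 ^ r) ^ u := by rw [← pow_mul]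
    rw [this]
    ring
  have hs2' : 2 ≤ s := by
    rw [hs]
    calc (2 : ℝ) = 2 ^ 1 := by norm_num
      _ ≤ 2 ^ 2 ^ (r - 1) := pow_le_pow_right₀ (by norm_num) Nat.one_le_two_pow
  have hkk : 18 * C * A < (z : ℝ) ^ (k + 1) := by
    rw [hCA, hsize, hzR]
    exact f3_size u k hs2' hs2 (by omega)
  have hmom := moment_win z k X m hz2 U hne A (18 * C) hA1 (by linarith) (by
    intro p hp
    obtain ⟨h1, h2, h3, h4, h5, h6, -⟩ := hU p hp
    exact ⟨h1, h2, h3, h4, h5, by rw [hCA]; exact h6⟩) hkk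
  have hsub : ((((range X).filter fun n : ℕ => ¬ ∃ v w, RR v w ∧ R v w = (n : ℤ) + m).card : ℕ) : ℝ) ≤
      ((((range X).filter fun n : ℕ => ∀ p ∈ U, ¬ Hit p.2 (n + m) p.1).card : ℕ) : ℝ) := by
    have : ((range X).filter fun n : ℕ => ¬ ∃ v w, RR v w ∧ R v w = (n : ℤ) + m) ⊆
        ((range X).filter fun n : ℕ => ∀ p ∈ U, ¬ Hit p.2 (n + m) p.1) := by
      intro n hn
      rw [mem_filter] at hn ⊢
      exact ⟨hn.1, fun p hp hh => hn.2 ((hU p hp).2.2.2.2.2.2 (n + m) hh)⟩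
    exact_mod_cast card_le_card this
  refine hsub.trans (hmom.trans ?_)
  have hM1 : (1 : ℝ) ≤ U.card := by exact_mod_cast hne.card_pos
  refine (f3_big (X := (X : ℝ)) k hC hA1 hM1).trans ?_
  rw [hCA]
  -- powers of X
  have hXle : (X : ℝ) ≤ ((2 : ℝ) ^ 2 ^ r) ^ (2 * K) := by
    have := hXz.le
    rw [← hzR]
    exact_mod_cast this
  have hXge : ((2 : ℝ) ^ 2 ^ r) ^ K ≤ X := by
    rw [← pow_mul]
    exact_mod_cast hX1
  have e1 : (X : ℝ) ^ (κ / (8 * K)) ≤ ((2 : ℝ) ^ 2 ^ r) ^ (κ / 4) := by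
    calc (X : ℝ) ^ (κ / (8 * K)) ≤ (((2 : ℝ) ^ 2 ^ r) ^ (2 * K)) ^ (κ / (8 * K)) :=
          Real.rpow_le_rpow (by positivity) hXle (by positivity)
      _ = ((2 : ℝ) ^ 2 ^ r) ^ (κ / 4) := by
          rw [← Real.rpow_natCast, ← Real.rpow_mul hzpos.le]
          congr 1
          push_cast
          field_simp
          ring
  have hη1 : (X : ℝ) ^ (1 - κ / (8 * K)) ≤ (X : ℝ) ^ (1 - η) :=
    Real.rpow_le_rpow_of_exponent_le hXR (by linarith)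
  have hη3 : (X : ℝ) ^ (3 / 4 : ℝ) ≤ (X : ℝ) ^ (1 - η) :=
    Real.rpow_le_rpow_of_exponent_le hXR (by linarith)
  -- second term
  have t2 : (24 * 2 ^ k + 3) * (16 * (Y : ℝ) ^ 2 * T) ^ 3 ≤ (24 * 2 ^ k + 3) * 512 * (X : ℝ) ^ (1 - η) := by
    have h1 := f3_pow (X := (X : ℝ)) hK hs2' hs2 hXge
    rw [← hsize] at h1
    rw [mul_assoc (24 * 2 ^ k + 3 : ℝ)]
    refine mul_le_mul_of_nonneg_left ?_ (by positivity)
    exact h1.trans (mul_le_mul_of_nonneg_left hη3 (by norm_num))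
  -- first term
  have hTd : 0 < T / d := by positivity
  have hcp : 0 < (T / d) ^ (1 + κ) := Real.rpow_pos_of_pos hTd _
  have t1 : 4 * 2 ^ k * (16 * (Y : ℝ) ^ 2 * T) * X / U.card ≤
      64 * 2 ^ k * d * u * c2 * (2 * d) ^ κ / c * (X : ℝ) ^ (1 - η) := by
    set L : ℝ := c * (T / d) ^ (1 + κ) * Real.exp (-(B * r)) * Y ^ 2 / Real.log Y with hL
    have hLpos : 0 < L := by rw [hL]; positivity
    have h1 : 4 * 2 ^ k * (16 * (Y : ℝ) ^ 2 * T) * X / U.card ≤ 4 * 2 ^ k * (16 * (Y : ℝ) ^ 2 * T) * X / L :=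
      div_le_div_of_nonneg_left (by positivity) hLpos hcard
    refine h1.trans ?_
    have h2 : (T / d) ^ (1 + κ) = T / d * (s / (2 * d)) ^ κ := by
      rw [Real.rpow_add hTd, Real.rpow_one]
      congr 2
      rw [hT]; field_simp
    have h3 : (s / (2 * d)) ^ κ = ((2 : ℝ) ^ 2 ^ r) ^ (κ / 2) / (2 * d) ^ κ := by
      rw [Real.div_rpow hspos.le (by positivity)]
      congr 1
      rw [← hs2, ← Real.rpow_natCast, ← Real.rpow_mul hspos.le]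
      congr 1
      push_cast
      ring
    have h4 : ((2 : ℝ) ^ 2 ^ r) ^ (κ / 2) = ((2 : ℝ) ^ 2 ^ r) ^ (κ / 4) * ((2 : ℝ) ^ 2 ^ r) ^ (κ / 4) := by
      rw [← Real.rpow_add hzpos]; congr 1; ring
    have h5 : Real.log Y ≤ 2 ^ r * u := by
      rw [hY]
      push_cast
      rw [Real.log_pow]
      push_cast
      have := Real.log_two_lt_d9
      have h6 : (0 : ℝ) ≤ 2 ^ r * u := by positivity
      exact mul_le_of_le_one_right h6 (by linarith)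
    set W : ℝ := ((2 : ℝ) ^ 2 ^ r) ^ (κ / 4) with hW
    have hWpos : 0 < W := Real.rpow_pos_of_pos hzpos _
    have h6 : Real.exp (B * r) * Real.log Y ≤ u * (c2 * W) := by
      calc Real.exp (B * r) * Real.log Y ≤ Real.exp (B * r) * (2 ^ r * u) :=
            mul_le_mul_of_nonneg_left h5 (by positivity)
        _ = u * (Real.exp (B * r) * 2 ^ r) := by ring
        _ ≤ u * (c2 * W) := mul_le_mul_of_nonneg_left hcmp (by positivity)
    have hdk : 0 < (2 * d) ^ κ := Real.rpow_pos_of_pos (by positivity) _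
    have h7 : 4 * 2 ^ k * (16 * (Y : ℝ) ^ 2 * T) * X / L =
        64 * 2 ^ k * d * (2 * d) ^ κ / c * X * (Real.exp (B * r) * Real.log Y) / (W * W) := by
      rw [hL, h2, h3, h4, Real.exp_neg]
      have hY0 : (Y : ℝ) ≠ 0 := by positivity
      have hE : Real.exp (B * r) ≠ 0 := (Real.exp_pos _).ne'
      field_simp
      ring
    have h8 : (X : ℝ) / W ≤ (X : ℝ) ^ (1 - η) := by
      refine le_trans ?_ hη1
      rw [Real.rpow_sub (by linarith), Real.rpow_one]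
      exact div_le_div_of_nonneg_left (by positivity) (Real.rpow_pos_of_pos (by linarith) _) e1
    calc 4 * 2 ^ k * (16 * (Y : ℝ) ^ 2 * T) * X / L
        = 64 * 2 ^ k * d * (2 * d) ^ κ / c * X * (Real.exp (B * r) * Real.log Y) / (W * W) := h7
      _ ≤ 64 * 2 ^ k * d * (2 * d) ^ κ / c * X * (u * (c2 * W)) / (W * W) := by
          refine div_le_div_of_nonneg_right (mul_le_mul_of_nonneg_left h6 ?_) (by positivity)
          positivity
      _ = 64 * 2 ^ k * d * u * c2 * (2 * d) ^ κ / c * (X / W) := by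
          field_simp
      _ ≤ 64 * 2 ^ k * d * u * c2 * (2 * d) ^ κ / c * (X : ℝ) ^ (1 - η) := by
          refine mul_le_mul_of_nonneg_left h8 ?_
          positivity
  have t1' := mul_le_mul_of_nonneg_left t1 (by positivity : (0 : ℝ) ≤ 1944 * C ^ 2)
  calc 1944 * C ^ 2 * (4 * 2 ^ k * (16 * (Y : ℝ) ^ 2 * T) * X / U.card) +
        (24 * 2 ^ k + 3) * (16 * (Y : ℝ) ^ 2 * T) ^ 3
      ≤ 1944 * C ^ 2 * (64 * 2 ^ k * d * u * c2 * (2 * d) ^ κ / c * (X : ℝ) ^ (1 - η)) +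
        (24 * 2 ^ k + 3) * 512 * (X : ℝ) ^ (1 - η) := add_le_add t1' t2
    _ = _ := by ring

/-- `2 ^ clog 2 x ≤ 2 x` -/
private theorem two_pow_clog {x : ℕ} (hx : 1 ≤ x) : 2 ^ Nat.clog 2 x ≤ 2 * x := by
  rcases Nat.lt_or_ge 1 x with h | h
  · have h1 := Nat.pow_pred_clog_lt_self (b := 2) (by norm_num) h
    have h2 : 0 < Nat.clog 2 x := Nat.clog_pos (by norm_num) h
    have h3 : 2 ^ Nat.clog 2 x = 2 ^ (Nat.clog 2 x).pred * 2 := by
      rw [← pow_succ]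
      congr 1
      exact (Nat.succ_pred_eq_of_pos h2).symm
    omega
  · have : x = 1 := by omega
    subst this
    simp

/-- the size of the threshold -/
private theorem thr (r0 n1 K : ℕ) (hn : 2 ≤ n1) :
    2 ^ (2 ^ (max r0 (Nat.clog 2 (Nat.clog 2 n1) + 1)) * K) ≤ 2 ^ (2 ^ r0 * K) * (2 * n1) ^ (4 * K) := by
  have h0 : 1 ≤ Nat.clog 2 n1 := Nat.clog_pos (by norm_num) hn
  have h1 : 2 ^ (Nat.clog 2 (Nat.clog 2 n1) + 1) ≤ 4 * Nat.clog 2 n1 := by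
    have := two_pow_clog h0
    rw [pow_succ]
    omega
  have h2 : 2 ^ (max r0 (Nat.clog 2 (Nat.clog 2 n1) + 1)) ≤ 2 ^ r0 + 4 * Nat.clog 2 n1 := by
    rcases le_total r0 (Nat.clog 2 (Nat.clog 2 n1) + 1) with h | h
    · rw [max_eq_right h]
      exact h1.trans (Nat.le_add_left _ _)
    · rw [max_eq_left h]
      exact Nat.le_add_right _ _
  calc 2 ^ (2 ^ (max r0 (Nat.clog 2 (Nat.clog 2 n1) + 1)) * K)
      ≤ 2 ^ ((2 ^ r0 + 4 * Nat.clog 2 n1) * K) :=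
        Nat.pow_le_pow_right (by norm_num) (Nat.mul_le_mul_right _ h2)
    _ = 2 ^ (2 ^ r0 * K) * (2 ^ Nat.clog 2 n1) ^ (4 * K) := by
        rw [add_mul, pow_add, ← pow_mul]
        congr 2
        ring
    _ ≤ 2 ^ (2 ^ r0 * K) * (2 * n1) ^ (4 * K) :=
        Nat.mul_le_mul_left _ (Nat.pow_le_pow_left (two_pow_clog (by omega)) _)

open Classical in
/-- **the main theorem** for nodes, with a constant which is polynomial in `D a b` -/
theorem main_eff : ∃ (η C5 : ℝ) (A : ℕ), 0 < η ∧ η < 1 ∧ 0 < C5 ∧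
    ∀ (RR : G → G → Prop), Clo RR → ∀ a b : G, Node RR a b → ∀ m : ℤ, ∀ X : ℕ, 1 ≤ X →
      ((((range X).filter fun n : ℕ => ¬ ∃ v w, RR v w ∧ R v w = (n : ℤ) + m).card : ℕ) : ℝ) ≤
        C5 * (D a b : ℝ) ^ A * (X : ℝ) ^ (1 - η) := by
  obtain ⟨κ, C, c, B, u, r0, hκ, hC, hc, hB, hu, hfam⟩ := family
  obtain ⟨c2, hc2, hcmp⟩ := cmp_exp κ B hκ hB
  set K : ℕ := 8 * u + 4 with hK
  set k : ℕ := 4 * K with hk
  have hKpos : 0 < K := by omega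
  have hKR : (0 : ℝ) < K := by exact_mod_cast hKpos
  set η : ℝ := min (κ / (8 * K)) (1 / 4) with hη
  have hη0 : 0 < η := lt_min (by positivity) (by norm_num)
  have hηa : η ≤ κ / (8 * K) := min_le_left _ _
  have hηb : η ≤ 1 / 4 := min_le_right _ _
  -- the constants
  set e1 : ℕ := 4 * K with he1
  set e2 : ℕ := ⌈κ⌉₊ with he2
  set E1 : ℝ := 2 ^ (2 ^ r0 * K) * (2 * (2 * C + 5)) ^ (4 * K) with hE1
  set E2 : ℝ := 1944 * C ^ 2 * (64 * 2 ^ k * u * c2 * 2 ^ e2 / c) + (24 * 2 ^ k + 3) * 512 with hE2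
  have hE1p : 0 < E1 := by rw [hE1]; positivity
  have hE2p : 0 < E2 := by rw [hE2]; positivity
  refine ⟨η, E1 + E2, e1 + (e2 + 1), hη0, by linarith, by linarith, ?_⟩
  intro RR hclo a b hab m X hX
  set d : ℝ := (D a b : ℝ) with hd
  have hd0 : 0 < d := by rw [hd]; exact_mod_cast hab.pos
  have hd1 : 1 ≤ d := by
    rw [hd]
    have := hab.pos
    exact_mod_cast this
  -- a lower bound for r
  set n1 : ℕ := ⌊2 * d + 2 * C + 2⌋₊ + 1 with hn1def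
  have hn1 : 2 * d + 2 * C + 2 < n1 := by
    rw [hn1def]
    push_cast
    exact Nat.lt_floor_add_one _
  have hn1' : (n1 : ℝ) ≤ (2 * C + 5) * d := by
    rw [hn1def]
    push_cast
    have := Nat.floor_le (show (0 : ℝ) ≤ 2 * d + 2 * C + 2 by positivity)
    nlinarith
  have hn12 : 2 ≤ n1 := by
    have : (2 : ℝ) < n1 := by linarith
    exact_mod_cast this.le
  set r1 : ℕ := max r0 (Nat.clog 2 (Nat.clog 2 n1) + 1) with hr1
  set X0 : ℕ := 2 ^ (2 ^ r1 * K) with hX0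
  set c3 : ℝ := 1944 * C ^ 2 * (64 * 2 ^ k * d * u * c2 * (2 * d) ^ κ / c) + (24 * 2 ^ k + 3) * 512 with hc3
  have hc3pos : 0 ≤ c3 := by
    rw [hc3]
    have : 0 ≤ (2 * d) ^ κ := Real.rpow_nonneg (by positivity) _
    positivity
  -- the size of the constant
  have hX0d : (X0 : ℝ) ≤ E1 * d ^ (e1 + (e2 + 1)) := by
    have h1 : (X0 : ℝ) ≤ 2 ^ (2 ^ r0 * K) * (2 * n1) ^ (4 * K) := by
      have := thr r0 n1 K hn12
      rw [hX0, hr1]
      exact_mod_cast this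
    have h2 : ((2 : ℝ) * n1) ^ (4 * K) ≤ (2 * ((2 * C + 5) * d)) ^ (4 * K) :=
      pow_le_pow_left₀ (by positivity) (by linarith) _
    have h3 : (2 * ((2 * C + 5) * d)) ^ (4 * K) = (2 * (2 * C + 5)) ^ (4 * K) * d ^ e1 := by
      rw [he1, ← mul_pow]
      ring_nf
    have h4 : d ^ e1 ≤ d ^ (e1 + (e2 + 1)) := pow_le_pow_right₀ hd1 (by omega)
    calc (X0 : ℝ) ≤ 2 ^ (2 ^ r0 * K) * (2 * n1) ^ (4 * K) := h1
      _ ≤ 2 ^ (2 ^ r0 * K) * ((2 * (2 * C + 5)) ^ (4 * K) * d ^ e1) := by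
          rw [← h3]
          exact mul_le_mul_of_nonneg_left h2 (by positivity)
      _ = E1 * d ^ e1 := by rw [hE1]; ring
      _ ≤ E1 * d ^ (e1 + (e2 + 1)) := mul_le_mul_of_nonneg_left h4 hE1p.le
  have hc3d : c3 ≤ E2 * d ^ (e1 + (e2 + 1)) := by
    have h1 : (2 * d) ^ κ ≤ (2 * d) ^ e2 := by
      rw [← Real.rpow_natCast]
      exact Real.rpow_le_rpow_of_exponent_le (by linarith) (Nat.le_ceil κ)
    have h2 : (2 * d) ^ e2 = 2 ^ e2 * d ^ e2 := mul_pow _ _ _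
    have h3 : d * ((2 * d) ^ κ) ≤ 2 ^ e2 * d ^ (e1 + (e2 + 1)) := by
      calc d * ((2 * d) ^ κ) ≤ d * ((2 * d) ^ e2) := mul_le_mul_of_nonneg_left h1 hd0.le
        _ = 2 ^ e2 * d ^ (e2 + 1) := by rw [h2]; ring
        _ ≤ 2 ^ e2 * d ^ (e1 + (e2 + 1)) :=
            mul_le_mul_of_nonneg_left (pow_le_pow_right₀ hd1 (by omega)) (by positivity)
    have h4 : (1 : ℝ) ≤ d ^ (e1 + (e2 + 1)) := one_le_pow₀ hd1
    have h5 : c3 = 1944 * C ^ 2 * (64 * 2 ^ k * u * c2 / c) * (d * ((2 * d) ^ κ)) +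
        (24 * 2 ^ k + 3) * 512 := by
      rw [hc3]; ring
    have h6 : E2 * d ^ (e1 + (e2 + 1)) = 1944 * C ^ 2 * (64 * 2 ^ k * u * c2 / c) *
        (2 ^ e2 * d ^ (e1 + (e2 + 1))) + (24 * 2 ^ k + 3) * 512 * d ^ (e1 + (e2 + 1)) := by
      rw [hE2]; ring
    rw [h5, h6]
    refine add_le_add (mul_le_mul_of_nonneg_left h3 (by positivity)) ?_
    exact le_mul_of_one_le_right (by positivity) h4
  have hXR : (1 : ℝ) ≤ X := by exact_mod_cast hX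
  have hXp : (1 : ℝ) ≤ (X : ℝ) ^ (1 - η) := Real.one_le_rpow hXR (by linarith)
  have hfin : (X0 + c3) * (X : ℝ) ^ (1 - η) ≤ (E1 + E2) * d ^ (e1 + (e2 + 1)) * (X : ℝ) ^ (1 - η) := by
    refine mul_le_mul_of_nonneg_right ?_ (by linarith)
    rw [add_mul]
    exact add_le_add hX0d hc3d
  refine le_trans ?_ hfin
  rcases lt_or_ge X X0 with hlt | hge
  · have h1 : ((((range X).filter fun n : ℕ => ¬ ∃ v w, RR v w ∧ R v w = (n : ℤ) + m).card : ℕ) : ℝ) ≤ X := by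
      have := card_filter_le (range X) (fun n : ℕ => ¬ ∃ v w, RR v w ∧ R v w = (n : ℤ) + m)
      rw [card_range] at this
      exact_mod_cast this
    have h2 : (X : ℝ) ≤ X0 := by exact_mod_cast hlt.le
    have h3 : (0 : ℝ) ≤ X0 := by positivity
    nlinarith
  · -- choose r
    have hbd : ∀ m : ℕ, 2 ^ (2 ^ m * K) ≤ X → m ≤ X := by
      intro m hm
      have h1 : m < 2 ^ m := Nat.lt_two_pow_self
      have h2 : 2 ^ m ≤ 2 ^ m * K := Nat.le_mul_of_pos_right _ hKpos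
      have h3 : 2 ^ m * K < 2 ^ (2 ^ m * K) := Nat.lt_two_pow_self
      omega
    set r : ℕ := Nat.findGreatest (fun m => 2 ^ (2 ^ m * K) ≤ X) X with hr
    have hr1r : r1 ≤ r := Nat.le_findGreatest (hbd r1 hge) hge
    have hX1 : 2 ^ (2 ^ r * K) ≤ X :=
      Nat.findGreatest_spec (P := fun m => 2 ^ (2 ^ m * K) ≤ X) (hbd r1 hge) hge
    have hX2 : X < 2 ^ (2 ^ (r + 1) * K) := by
      by_contra hcon
      push Not at hcon
      have := Nat.le_findGreatest (P := fun m => 2 ^ (2 ^ m * K) ≤ X) (hbd (r + 1) hcon) hcon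
      omega
    have hr0 : r0 ≤ r := (le_max_left _ _).trans hr1r
    have hn1r : Nat.clog 2 (Nat.clog 2 n1) + 1 ≤ r := (le_max_right _ _).trans hr1r
    have hrone : 1 ≤ r := by omega
    have hn1p : n1 ≤ 2 ^ 2 ^ (r - 1) := by
      have h1 : Nat.clog 2 n1 ≤ 2 ^ (r - 1) := by
        calc Nat.clog 2 n1 ≤ 2 ^ Nat.clog 2 (Nat.clog 2 n1) := Nat.le_pow_clog (by norm_num) _
          _ ≤ 2 ^ (r - 1) := Nat.pow_le_pow_right (by norm_num) (by omega)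
      calc n1 ≤ 2 ^ Nat.clog 2 n1 := Nat.le_pow_clog (by norm_num) _
        _ ≤ 2 ^ 2 ^ (r - 1) := Nat.pow_le_pow_right (by norm_num) h1
    set T : ℝ := 2 ^ 2 ^ (r - 1) / 2 with hT
    have hTn : (n1 : ℝ) ≤ 2 * T := by
      have h4 : (n1 : ℝ) ≤ 2 ^ 2 ^ (r - 1) := by exact_mod_cast hn1p
      rw [hT]; linarith
    have hdT : d ≤ T := by linarith
    have hT1 : 1 ≤ T := by linarith
    have hT2 : T ^ 2 < 2 ^ 2 ^ r := by
      rw [hT, div_pow, ← pow_mul, ← pow_succ, Nat.sub_add_cancel hrone]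
      have : (0 : ℝ) < 2 ^ 2 ^ r := by positivity
      linarith
    set Y : ℕ := 2 ^ (2 ^ r * u) with hY
    have hY1 : (1 : ℝ) ≤ Y := by
      have : 1 ≤ Y := Nat.one_le_two_pow
      exact_mod_cast this
    have hA1 : 1 ≤ 8 / 9 * (Y : ℝ) ^ 2 * T / C := by
      rw [le_div_iff₀ (by linarith)]
      have h1 : (n1 : ℝ) ≤ Y := by
        have h1 : 2 ^ (r - 1) ≤ 2 ^ r := Nat.pow_le_pow_right (by norm_num) (by omega)
        have h2 : 2 ^ r ≤ 2 ^ r * u := Nat.le_mul_of_pos_right _ hu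
        have h4 : n1 ≤ Y := hn1p.trans (Nat.pow_le_pow_right (by norm_num) (h1.trans h2))
        exact_mod_cast h4
      have h2 : 2 * C ≤ (Y : ℝ) ^ 2 := by nlinarith
      nlinarith
    obtain ⟨U, hU, hcard⟩ := hfam RR hclo a b hab r hr0 T hdT hT1 hT2 Y le_rfl
    have := f3_one (K := K) (k := k) hκ hC hc hu hc2 hK hk hrone (hcmp r) hd0 T rfl hT1 Y rfl hA1 U hU hcard
      hX1 hX2 η hηa hηb m
    refine this.trans ?_
    rw [← hc3]
    have h3 : (0 : ℝ) ≤ X0 := by positivity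
    nlinarith

end Pool.Agent.FleaU
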