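import Pool.Agent.Flea.Root

/-! # A first node of polynomial size -/

set_option autoImplicit false

namespace Pool.Agent.FleaU

open Pool.Agent.Flea

/-- bounded Bezout coefficients -/
theorem bezout {x y : ℤ} (h : IsCoprime x y) :
    ∃ t s : ℤ, t * x + s * y = 1 ∧ |t| ≤ |y| + 1 ∧ |s| ≤ |x| + 1 := by
  obtain ⟨t0, s0, h0⟩ := h
  by_cases hy : y = 0
  · subst hy
    rw [mul_zero, add_zero] at h0
    have hx : x = 1 ∨ x = -1 := Int.isUnit_iff.1 (IsUnit.of_mul_eq_one_right t0 h0)
    rcases hx with rfl | rfl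
    · exact ⟨1, 0, by norm_num, by norm_num, by norm_num⟩
    · exact ⟨-1, 0, by norm_num, by norm_num, by norm_num⟩
  · have hy' : 0 < |y| := abs_pos.2 hy
    have e1 := Int.emod_nonneg t0 hy
    have e2 := Int.emod_lt_abs t0 hy
    have e3 : t0 % y = t0 - y * (t0 / y) := by
      rw [Int.emod_def]
    refine ⟨t0 % y, s0 + (t0 / y) * x, ?_, ?_, ?_⟩
    · rw [e3]
      linear_combination h0
    · rw [abs_of_nonneg e1]
      linarith
    · set t := t0 % y with ht
      set s := s0 + (t0 / y) * x with hs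
      have h1 : t * x + s * y = 1 := by
        rw [e3, hs]
        linear_combination h0
      have h2 : |s| * |y| ≤ 1 + |t| * |x| := by
        rw [← abs_mul, ← abs_mul]
        have : s * y = 1 - t * x := by linarith
        rw [this]
        calc |1 - t * x| ≤ |1| + |t * x| := abs_sub _ _
          _ = 1 + |t * x| := by norm_num
      rw [abs_of_nonneg e1] at h2
      have h3 : t * |x| ≤ (|y| - 1) * |x| := by
        refine mul_le_mul_of_nonneg_right ?_ (abs_nonneg x)
        linarith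
      have h4 : |s| * |y| ≤ |y| * (|x| + 1) := by
        have := abs_nonneg x
        nlinarith
      have h5 : |y| * |s| ≤ |y| * (|x| + 1) := by rw [mul_comm]; exact h4
      exact le_of_mul_le_mul_left h5 hy'

/-- all coordinates are at most `M` in absolute value -/
def Bnd (M : ℤ) (a b : G) : Prop := |a.re| ≤ M ∧ |a.im| ≤ M ∧ |b.re| ≤ M ∧ |b.im| ≤ M

private theorem r1_node {RR : G → G → Prop} (hc : Clo RR) {a b : G} (hab : RR a b) (hcop : IsCoprime a b)
    (hD : 0 < D a b) {x y : ℤ} (hxy : IsCoprime x y) {u : G} (hu : u = x * a + y * b) (h1 : 9 * D a b ≤ N u)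
    (h2 : 4 * |u.im| ≤ u.re) : ∃ a' b' : G, Node RR a' b' ∧ D a' b' ≤ N u := by
  have hN : 0 < N u := by linarith
  obtain ⟨a', q1, q2, q3, q4, q5, -⟩ := neighbour hc hab hcop hxy hu hN
  refine ⟨a', I * u, ⟨q1, q2, ?_, q4, ?_, ?_, ?_, ?_⟩, ?_⟩
  · rw [q3]; linarith
  · rw [N_I_mul]; exact q5
  · rw [N_I_mul, q3]; linarith
  · rw [N_I_mul, q3]; linarith
  · rw [re_I_mul, im_I_mul, abs_neg]; exact h2
  · rw [q3]; linarith

theorem prod_bd {p q A B : ℤ} (hp : |p| ≤ A) (hq : |q| ≤ B) : |p * q| ≤ A * B := by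
  rw [abs_mul]
  exact mul_le_mul hp hq (abs_nonneg _) ((abs_nonneg _).trans hp)

/-- a first node, from a circle with `0 < D` -/
theorem root_pos {RR : G → G → Prop} (hc : Clo RR) {a b : G} (hab : RR a b) (hcop : IsCoprime a b)
    (hD : 0 < D a b) {M : ℤ} (hM : 1 ≤ M) (hB : Bnd M a b) :
    ∃ a' b' : G, Node RR a' b' ∧ D a' b' ≤ 7000 * M ^ 8 := by
  obtain ⟨m1, m2, m3, m4⟩ := hB
  have hg : 0 < Int.gcd b.im (-a.im) := by
    rw [Nat.pos_iff_ne_zero]
    intro h0
    rw [Int.gcd_eq_zero_iff] at h0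
    unfold D at hD
    have e1 := h0.1
    have e2 : a.im = 0 := by linarith [h0.2]
    rw [e1, e2] at hD
    simp at hD
  obtain ⟨g, x1, y1, hg0, hg1, e1, e2⟩ := Int.exists_gcd_one' hg
  have hc1 : IsCoprime x1 y1 := Int.isCoprime_iff_gcd_eq_one.2 hg1
  obtain ⟨t, s', hst, ht, hs⟩ := bezout hc1
  have hg' : (0 : ℤ) < g := by exact_mod_cast hg0
  have hg1' : (1 : ℤ) ≤ g := hg'
  have hx1 : |x1| ≤ M := by
    have : |b.im| = |x1| * g := by rw [e1, abs_mul, abs_of_pos hg']
    have h0 := abs_nonneg x1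
    nlinarith
  have hy1 : |y1| ≤ M := by
    have : |a.im| = |y1| * g := by rw [← abs_neg a.im, e2, abs_mul, abs_of_pos hg']
    have h0 := abs_nonneg y1
    nlinarith
  set δ := x1 * a.re + y1 * b.re with hδ
  have hδg : δ * g = D a b := by rw [hδ]; unfold D; linear_combination (-a.re) * e1 - b.re * e2
  have hδ0 : 0 < δ := by
    have : 0 < δ * g := by
      rw [hδg]; exact hD
    exact pos_of_mul_pos_left this hg'.le
  have hδD : δ ≤ D a b := by
    rw [← hδg]
    nlinarith
  have hDM : D a b ≤ 2 * M ^ 2 := by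
    have k1 := (abs_le.1 (prod_bd m1 m4)).2
    have k2 := (abs_le.1 (prod_bd m2 m3)).1
    unfold D
    nlinarith
  have him : x1 * a.im + y1 * b.im = 0 := by
    have : (x1 * a.im + y1 * b.im) * g = 0 := by linear_combination (-a.im) * e1 - b.im * e2
    exact (mul_eq_zero.1 this).resolve_right hg'.ne'
  set w : G := ((-s' : ℤ) : G) * a + ((t : ℤ) : G) * b with hw
  have ht2 : |t| ≤ 2 * M := by linarith
  have hs2 : |(-s')| ≤ 2 * M := by rw [abs_neg]; linarith
  have hwre : |w.re| ≤ 4 * M ^ 2 := by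
    rw [hw, re_comb]
    refine (abs_add_le _ _).trans ?_
    have k1 := prod_bd hs2 m1
    have k2 := prod_bd ht2 m3
    nlinarith
  have hwim : |w.im| ≤ 4 * M ^ 2 := by
    rw [hw, im_comb]
    refine (abs_add_le _ _).trans ?_
    have k1 := prod_bd hs2 m2
    have k2 := prod_bd ht2 m4
    nlinarith
  set m : ℤ := 9 * D a b + 1 + |w.re| + 4 * |w.im| with hm
  have hm0 : 0 < m := by positivity
  have hmM : m ≤ 39 * M ^ 2 := by
    have : (1 : ℤ) ≤ M ^ 2 := by nlinarith
    rw [hm]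
    linarith
  set x : ℤ := m * x1 - s' with hx
  set y : ℤ := m * y1 + t with hy
  set u : G := (x : G) * a + (y : G) * b with hu
  have hure : u.re = m * δ + w.re := by
    rw [hu, hw, re_comb, re_comb, hδ, hx, hy]; ring
  have huim : u.im = w.im := by
    rw [hu, hw, im_comb, im_comb, hx, hy]; linear_combination m * him
  have hxy : IsCoprime x y := ⟨-y1, x1, by rw [hx, hy]; linear_combination hst⟩
  have h3 : m + w.re ≤ u.re := by rw [hure]; nlinarith
  have h4 := neg_abs_le w.re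
  have h5 := abs_nonneg w.im
  have h6 := abs_nonneg w.re
  have hNu : N u ≤ 7000 * M ^ 8 := by
    have hM2 : (1 : ℤ) ≤ M ^ 2 := by nlinarith
    have k1 : m * δ ≤ 39 * M ^ 2 * (2 * M ^ 2) :=
      mul_le_mul hmM (hδD.trans hDM) hδ0.le (by positivity)
    have k2 : |u.re| ≤ 82 * M ^ 4 := by
      rw [hure]
      refine (abs_add_le _ _).trans ?_
      rw [abs_of_pos (mul_pos hm0 hδ0)]
      have : M ^ 2 ≤ M ^ 4 := by nlinarith
      nlinarith
    have k3 : |u.im| ≤ 4 * M ^ 4 := by
      rw [huim]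
      have : M ^ 2 ≤ M ^ 4 := by nlinarith
      linarith
    have k4 : u.re ^ 2 ≤ (82 * M ^ 4) ^ 2 := by
      rw [← sq_abs]
      exact pow_le_pow_left₀ (abs_nonneg _) k2 2
    have k5 : u.im ^ 2 ≤ (4 * M ^ 4) ^ 2 := by
      rw [← sq_abs]
      exact pow_le_pow_left₀ (abs_nonneg _) k3 2
    have k6 : (0 : ℤ) ≤ M ^ 8 := by positivity
    unfold N
    calc u.re ^ 2 + u.im ^ 2 ≤ (82 * M ^ 4) ^ 2 + (4 * M ^ 4) ^ 2 := add_le_add k4 k5
      _ = 6740 * M ^ 8 := by ring
      _ ≤ 7000 * M ^ 8 := by linarith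
  obtain ⟨a', b', n1, n2⟩ := r1_node hc hab hcop hD hxy hu (by
      have : 9 * D a b + 1 ≤ u.re := by linarith
      unfold N
      nlinarith [sq_nonneg u.im]) (by rw [huim]; linarith)
  exact ⟨a', b', n1, n2.trans hNu⟩

theorem root_eff {RR : G → G → Prop} (hc : Clo RR) {a b : G} (hab : RR a b) (hcop : IsCoprime a b)
    (hb : b ≠ 0) {M : ℤ} (hM : 1 ≤ M) (hB : Bnd M a b) :
    ∃ a' b' : G, Node RR a' b' ∧ D a' b' ≤ 7000 * (2 * M) ^ 8 := by
  obtain ⟨m1, m2, m3, m4⟩ := hB
  by_cases hD : 0 < D a b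
  · exact root_pos hc hab hcop hD (by linarith)
      ⟨by linarith, by linarith, by linarith, by linarith⟩
  · have h1 := hc.rot a b hab
    have hI : I * I = -1 := by
      apply ext' <;> simp [I]
    have hD2 : D (I * b) (I * a - b) = N b - D a b := by
      unfold D N
      simp only [Zsqrtd.re_sub, Zsqrtd.im_sub, re_I_mul, im_I_mul]
      ring
    have hIu : IsUnit I := IsUnit.of_mul_eq_one (-I) (by rw [mul_neg, hI, neg_neg])
    have hcop2 : IsCoprime (I * b) (I * a - b) := by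
      have e : I * a - b = I * a + I * b * I := by
        linear_combination (-b) * hI
      rw [e]
      apply IsCoprime.add_mul_left_right
      exact (isCoprime_mul_unit_left_left hIu _ _).2 ((isCoprime_mul_unit_left_right hIu _ _).2 hcop.symm)
    refine root_pos hc h1 hcop2 (by rw [hD2]; have := N_pos hb; linarith) (by linarith) ⟨?_, ?_, ?_, ?_⟩
    · rw [re_I_mul, abs_neg]
      linarith
    · rw [im_I_mul]
      linarith
    · rw [Zsqrtd.re_sub, re_I_mul]
      refine (abs_sub _ _).trans ?_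
      rw [abs_neg]
      linarith
    · rw [Zsqrtd.im_sub, im_I_mul]
      refine (abs_sub _ _).trans ?_
      linarith

end Pool.Agent.FleaU
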