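import Pool.Agent.FleaU.Ref2

/-! # The exponent 4/3 for the orbit of the unit triangle: inequalities -/

set_option autoImplicit false

namespace Pool.Agent.FleaU

-- BEGIN row eigA
/-- Tangent (Bernoulli) of `x ^ (-1/3)` at `s + c`: `s ^ (-1/3) ≥ (s+c) ^ (-1/3) +
(1/3) c (s+c) ^ (-4/3)`, multiplied by `3 / c`; as `sev_A` (FleaU/Sev) with `1/3` in place of `2/5`. -/
theorem eig_A {s c : ℝ} (hs : 0 < s) (hc : 0 < c) :
    (s + c) ^ (-(4 / 3) : ℝ) + 3 * (s + c) ^ (-(1 / 3) : ℝ) / c ≤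
      3 * s ^ (-(1 / 3) : ℝ) / c := by
  have hX : 0 < s + c := by linarith
  obtain ⟨u, hu⟩ : ∃ u, u = c / (s + c) := ⟨_, rfl⟩
  have hu0 : 0 < u := by rw [hu]; positivity
  have hu1 : u < 1 := by rw [hu, div_lt_one hX]; linarith
  have hcu : c = u * (s + c) := by rw [hu]; field_simp
  have hsu : s = (s + c) * (1 - u) := by nlinarith
  have h1 : (1 + -u) ^ (1 / 3 : ℝ) ≤ 1 + 1 / 3 * -u :=
    rpow_one_add_le_one_add_mul_self (by linarith) (by norm_num) (by norm_num)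
  have h2 : 0 < (1 + -u) ^ (1 / 3 : ℝ) := Real.rpow_pos_of_pos (by linarith) _
  have h3 : 1 + 1 / 3 * u ≤ (1 - u) ^ (-(1 / 3) : ℝ) := by
    rw [Real.rpow_neg (by linarith), ← sub_eq_add_neg] at *
    rw [le_inv_comm₀ (by linarith) h2]
    refine h1.trans ?_
    rw [← one_div, le_div_iff₀ (by linarith)]
    nlinarith
  have h4 : s ^ (-(1 / 3) : ℝ) = (s + c) ^ (-(1 / 3) : ℝ) * (1 - u) ^ (-(1 / 3) : ℝ) := by
    conv_lhs => rw [hsu]
    exact Real.mul_rpow hX.le (by linarith)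
  have h5 : (s + c) ^ (-(1 / 3) : ℝ) = (s + c) * (s + c) ^ (-(4 / 3) : ℝ) := by
    conv_rhs => rw [← Real.rpow_one (s + c)]
    rw [Real.rpow_one, ← Real.rpow_one_add' hX.le (by norm_num)]
    norm_num
  have h6 : 0 < (s + c) ^ (-(4 / 3) : ℝ) := Real.rpow_pos_of_pos hX _
  rw [← sub_nonneg]
  have h7 : 3 * s ^ (-(1 / 3) : ℝ) / c -
      ((s + c) ^ (-(4 / 3) : ℝ) + 3 * (s + c) ^ (-(1 / 3) : ℝ) / c) =
      (3 * (s + c) * (s + c) ^ (-(4 / 3) : ℝ) / c) *
        ((1 - u) ^ (-(1 / 3) : ℝ) - (1 + 1 / 3 * u)) := by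
    rw [h4, h5, hu]
    field_simp
    ring
  rw [h7]
  exact mul_nonneg (by positivity) (sub_nonneg.2 h3)
-- END row eigA

-- BEGIN row eigB
/-- Midpoint inequality of the convex function `x ^ (-8/3)`; as `sev_B` (FleaU/Sev) with `5/3`, `8/3`,
`4/3` in place of `9/5`, `14/5`, `7/5`. -/
theorem eig_B {P c : ℝ} (hP : 0 < P) (hc : 0 < c) :
    5 / 3 * c * (P + c / 2) ^ (-(8 / 3) : ℝ) ≤ P ^ (-(5 / 3) : ℝ) - (P + c) ^ (-(5 / 3) : ℝ) := by
  obtain ⟨Q, hQe⟩ : ∃ Q, Q = P + c / 2 := ⟨_, rfl⟩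
  have hQ : c / 2 < Q := by linarith
  have hQ0 : 0 < Q := by linarith
  have hder : ∀ t ∈ Set.Icc (0 : ℝ) (c / 2), HasDerivAt
      (fun t : ℝ => (Q - t) ^ (-(5 / 3) : ℝ) - (Q + t) ^ (-(5 / 3) : ℝ) -
        10 / 3 * t * Q ^ (-(8 / 3) : ℝ))
      (5 / 3 * ((Q - t) ^ (-(8 / 3) : ℝ) + (Q + t) ^ (-(8 / 3) : ℝ) - 2 * Q ^ (-(8 / 3) : ℝ)))
      t := by
    rintro t ⟨ht0, ht1⟩
    have h1 : HasDerivAt (fun t : ℝ => (Q - t) ^ (-(5 / 3) : ℝ))
        (-1 * (-(5 / 3)) * (Q - t) ^ (-(5 / 3) - 1 : ℝ)) t :=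
      ((hasDerivAt_id t).const_sub Q).rpow_const (Or.inl (by simp only [id]; linarith))
    have h2 : HasDerivAt (fun t : ℝ => (Q + t) ^ (-(5 / 3) : ℝ))
        (1 * (-(5 / 3)) * (Q + t) ^ (-(5 / 3) - 1 : ℝ)) t :=
      ((hasDerivAt_id t).const_add Q).rpow_const (Or.inl (by simp only [id]; linarith))
    have h3 : HasDerivAt (fun t : ℝ => 10 / 3 * t * Q ^ (-(8 / 3) : ℝ))
        (10 / 3 * 1 * Q ^ (-(8 / 3) : ℝ)) t :=
      ((hasDerivAt_id t).const_mul (10 / 3)).mul_const _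
    have h4 := (h1.sub h2).sub h3
    have h5 : (-(5 / 3) - 1 : ℝ) = -(8 / 3) := by norm_num
    rw [h5] at h4
    refine h4.congr_deriv ?_
    ring
  have hmono : MonotoneOn (fun t : ℝ => (Q - t) ^ (-(5 / 3) : ℝ) - (Q + t) ^ (-(5 / 3) : ℝ) -
        10 / 3 * t * Q ^ (-(8 / 3) : ℝ)) (Set.Icc 0 (c / 2)) := by
    refine monotoneOn_of_deriv_nonneg (convex_Icc 0 (c / 2))
      (fun t ht => (hder t ht).continuousAt.continuousWithinAt)
      (fun t ht => (hder t (interior_subset ht)).differentiableAt.differentiableWithinAt) ?_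
    intro t ht
    have ht' := interior_subset ht
    rw [(hder t ht').deriv]
    obtain ⟨ht0, ht1⟩ := ht'
    have ha : 0 < Q - t := by linarith
    have hb : 0 < Q + t := by linarith
    have e1 : (Q - t) ^ (-(8 / 3) : ℝ) = ((Q - t) ^ (-(4 / 3) : ℝ)) ^ 2 := by
      rw [← Real.rpow_natCast, ← Real.rpow_mul ha.le]
      norm_num
    have e2 : (Q + t) ^ (-(8 / 3) : ℝ) = ((Q + t) ^ (-(4 / 3) : ℝ)) ^ 2 := by
      rw [← Real.rpow_natCast, ← Real.rpow_mul hb.le]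
      norm_num
    have e3 : Q ^ (-(8 / 3) : ℝ) = (Q * Q) ^ (-(4 / 3) : ℝ) := by
      rw [Real.mul_rpow hQ0.le hQ0.le, ← Real.rpow_add hQ0]
      norm_num
    have e4 : (Q * Q) ^ (-(4 / 3) : ℝ) ≤ (Q - t) ^ (-(4 / 3) : ℝ) * (Q + t) ^ (-(4 / 3) : ℝ) := by
      rw [← Real.mul_rpow ha.le hb.le]
      exact Real.rpow_le_rpow_of_nonpos (mul_pos ha hb) (by nlinarith) (by norm_num)
    rw [e1, e2, e3]
    nlinarith [sq_nonneg ((Q - t) ^ (-(4 / 3) : ℝ) - (Q + t) ^ (-(4 / 3) : ℝ))]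
  have h := hmono (Set.left_mem_Icc.2 (by linarith)) (Set.right_mem_Icc.2 (by linarith))
    (show (0 : ℝ) ≤ c / 2 by linarith)
  simp only [sub_zero, add_zero, sub_self, mul_zero, zero_mul] at h
  have g1 : Q - c / 2 = P := by rw [hQe]; ring
  have g2 : Q + c / 2 = P + c := by rw [hQe]; ring
  rw [g1, g2] at h
  rw [← hQe]
  linarith
-- END row eigB

-- BEGIN row eigC
private theorem eigC_conc {a b : ℝ} (ha : 0 ≤ a) (hb : 0 ≤ b) :
    a ^ (2 / 3 : ℝ) + b ^ (2 / 3 : ℝ) ≤ 2 * ((a + b) / 2) ^ (2 / 3 : ℝ) := by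
  have h := (Real.concaveOn_rpow (p := 2 / 3) (by norm_num) (by norm_num)).2
    (show a ∈ Set.Ici (0 : ℝ) from ha) (show b ∈ Set.Ici (0 : ℝ) from hb)
    (show (0 : ℝ) ≤ 1 / 2 by norm_num) (show (0 : ℝ) ≤ 1 / 2 by norm_num) (by norm_num)
  simp only [smul_eq_mul] at h
  have e : 1 / 2 * a + 1 / 2 * b = (a + b) / 2 := by ring
  rw [e] at h
  linarith

private theorem eigC_pow {x : ℝ} (hx : 0 < x) : ((x ^ 2)⁻¹) ^ (2 / 3 : ℝ) = x ^ (-(4 / 3) : ℝ) := by
  rw [← Real.rpow_natCast, ← Real.rpow_neg hx.le, ← Real.rpow_mul hx.le]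
  norm_num

private theorem eigC_rho {e t g : ℝ} (he : 0 ≤ e) (ht1 : t ≤ 4 / 9 * e)
    (hg : g ≤ 2 / 27) :
    g * (1 - ((1 + e) ^ 4)⁻¹) ≤ 2 / 3 * (1 - ((1 + e) ^ 2 + t) / ((1 + e) ^ 2 - t) ^ 2) := by
  obtain ⟨Q, hQ⟩ : ∃ Q, Q = 1 + 14 / 9 * e + e ^ 2 := ⟨_, rfl⟩
  obtain ⟨N, hN⟩ : ∃ N, N = 1 + 22 / 9 * e + e ^ 2 := ⟨_, rfl⟩
  have hQ0 : 0 < Q := by rw [hQ]; positivity
  have hN0 : 0 < N := by rw [hN]; positivity
  have hF : 0 < (1 + e) ^ 4 := by positivity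
  have h1 : ((1 + e) ^ 2 + t) / ((1 + e) ^ 2 - t) ^ 2 ≤ N / Q ^ 2 := by
    refine div_le_div₀ hN0.le (by rw [hN]; nlinarith) (by positivity) ?_
    exact pow_le_pow_left₀ hQ0.le (by rw [hQ]; nlinarith) 2
  have h2 : 0 ≤ 1 - ((1 + e) ^ 4)⁻¹ := by
    have h3 : ((1 + e) ^ 4)⁻¹ ≤ 1 := inv_le_one_of_one_le₀ (one_le_pow₀ (by linarith))
    linarith
  have h3 : g * (1 - ((1 + e) ^ 4)⁻¹) ≤ 2 / 27 * (1 - ((1 + e) ^ 4)⁻¹) :=
    mul_le_mul_of_nonneg_right hg h2
  have h4 : 2 / 27 * (1 - ((1 + e) ^ 4)⁻¹) ≤ 2 / 3 * (1 - N / Q ^ 2) := by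
    have e1 : 2 / 27 * (1 - ((1 + e) ^ 4)⁻¹) =
        2 / 27 * (4 * e + 6 * e ^ 2 + 4 * e ^ 3 + e ^ 4) / (1 + e) ^ 4 := by
      field_simp
      ring
    have e2 : 2 / 3 * (1 - N / Q ^ 2) =
        2 / 3 * (2 / 3 * e + 277 / 81 * e ^ 2 + 28 / 9 * e ^ 3 + e ^ 4) / Q ^ 2 := by
      rw [eq_div_iff (by positivity)]
      have h5 : 2 / 3 * (1 - N / Q ^ 2) * Q ^ 2 = 2 / 3 * (Q ^ 2 - N) := by
        field_simp
      rw [h5, hQ, hN]
      ring
    rw [e1, e2]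
    have p2 : 0 ≤ e ^ 2 := by positivity
    have p3 : 0 ≤ e ^ 3 := by positivity
    have p4 : 0 ≤ e ^ 4 := by positivity
    refine div_le_div₀ (by positivity) (by linarith) (by positivity) ?_
    rw [hQ]
    nlinarith
  linarith

private theorem eigC_conv {x B : ℝ} (hx : 0 < x) (hB : 0 < B) :
    B ^ (-(10 / 3) : ℝ) * (1 + 10 / 3 * (1 - x / B)) ≤ x ^ (-(10 / 3) : ℝ) := by
  have hw : 0 < B / x := div_pos hB hx
  have h1 := one_add_mul_self_le_rpow_one_add (s := B / x - 1) (by linarith)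
    (show (1 : ℝ) ≤ 10 / 3 by norm_num)
  rw [add_sub_cancel] at h1
  have h2 : 1 + 10 / 3 * (1 - x / B) ≤ 1 + 10 / 3 * (B / x - 1) := by
    have h3 : 2 ≤ B / x + x / B := by
      have h4 : B / x + x / B - 2 = (B - x) ^ 2 / (x * B) := by
        field_simp
        ring
      have h5 : 0 ≤ (B - x) ^ 2 / (x * B) := by positivity
      linarith
    linarith
  have h3 : x ^ (-(10 / 3) : ℝ) = B ^ (-(10 / 3) : ℝ) * (B / x) ^ (10 / 3 : ℝ) := by
    rw [Real.div_rpow hB.le hx.le, Real.rpow_neg hB.le, Real.rpow_neg hx.le]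
    have h6 : 0 < B ^ (10 / 3 : ℝ) := Real.rpow_pos_of_pos hB _
    have h7 : 0 < x ^ (10 / 3 : ℝ) := Real.rpow_pos_of_pos hx _
    field_simp
  rw [h3]
  exact mul_le_mul_of_nonneg_left (h2.trans h1) (Real.rpow_nonneg hB.le _)

private theorem eigC_core {M e t g X Y : ℝ} (hM : 0 < M) (he : 0 ≤ e)
    (ht1 : t ≤ 4 / 9 * e) (hg0 : 0 ≤ g) (hg : g ≤ 2 / 27) (hX0 : 0 < X) (hY0 : 0 < Y)
    (hs : X + Y = 2 * (M * (1 + e))) (hXY : X * Y = M ^ 2 * ((1 + e) ^ 2 - t)) :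
    (X ^ (-(4 / 3) : ℝ) + Y ^ (-(4 / 3) : ℝ)) -
      g * M ^ 2 * (X ^ (-(10 / 3) : ℝ) + Y ^ (-(10 / 3) : ℝ)) ≤
      2 * (M ^ (-(4 / 3) : ℝ) * (1 - g)) := by
  obtain ⟨ρ, hρ⟩ : ∃ ρ, ρ = ((1 + e) ^ 2 + t) / ((1 + e) ^ 2 - t) ^ 2 := ⟨_, rfl⟩
  have hQ : 0 < (1 + e) ^ 2 - t := by nlinarith
  have hN : 0 < (1 + e) ^ 2 + t := by
    have h1 : 0 < X ^ 2 + Y ^ 2 := by positivity
    have h2 : X ^ 2 + Y ^ 2 = 2 * (M ^ 2 * ((1 + e) ^ 2 + t)) := by
      have h3 : X ^ 2 + Y ^ 2 = (X + Y) ^ 2 - 2 * (X * Y) := by ring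
      rw [h3, hs, hXY]
      ring
    rw [h2] at h1
    have h4 : 0 < M ^ 2 := by positivity
    by_contra hcon
    have h5 : M ^ 2 * ((1 + e) ^ 2 + t) ≤ 0 :=
      mul_nonpos_of_nonneg_of_nonpos h4.le (not_lt.1 hcon)
    linarith
  have hρ0 : 0 < ρ := by rw [hρ]; positivity
  have hMp : 0 < M ^ (-(4 / 3) : ℝ) := Real.rpow_pos_of_pos hM _
  -- first sum
  have hS1 : X ^ (-(4 / 3) : ℝ) + Y ^ (-(4 / 3) : ℝ) ≤
      2 * (M ^ (-(4 / 3) : ℝ) * (1 - 2 / 3 * (1 - ρ))) := by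
    rw [← eigC_pow hX0, ← eigC_pow hY0]
    refine (eigC_conc (by positivity) (by positivity)).trans ?_
    have h1 : ((X ^ 2)⁻¹ + (Y ^ 2)⁻¹) / 2 = (M ^ 2)⁻¹ * ρ := by
      have h2 : ((X ^ 2)⁻¹ + (Y ^ 2)⁻¹) / 2 = ((X + Y) ^ 2 - 2 * (X * Y)) / (2 * (X * Y) ^ 2) := by
        field_simp
        ring
      rw [h2, hs, hXY, hρ]
      field_simp
      ring
    rw [h1, Real.mul_rpow (by positivity) hρ0.le, eigC_pow hM]
    have h3 : ρ ^ (2 / 3 : ℝ) ≤ 1 - 2 / 3 * (1 - ρ) := by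
      have h4 := rpow_one_add_le_one_add_mul_self (s := ρ - 1) (p := 2 / 3) (by linarith)
        (by norm_num) (by norm_num)
      rw [add_sub_cancel] at h4
      linarith
    exact mul_le_mul_of_nonneg_left (mul_le_mul_of_nonneg_left h3 hMp.le) (by norm_num)
  -- second sum
  have hB : 0 < M * (1 + e) := by positivity
  have hS2 : 2 * (M ^ (-(4 / 3) : ℝ) / M ^ 2 * ((1 + e) ^ 4)⁻¹) ≤
      X ^ (-(10 / 3) : ℝ) + Y ^ (-(10 / 3) : ℝ) := by
    have h1 := eigC_conv hX0 hB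
    have h2 := eigC_conv hY0 hB
    have h3 : (M * (1 + e)) ^ (-(10 / 3) : ℝ) * (1 + 10 / 3 * (1 - X / (M * (1 + e)))) +
        (M * (1 + e)) ^ (-(10 / 3) : ℝ) * (1 + 10 / 3 * (1 - Y / (M * (1 + e)))) =
        2 * (M * (1 + e)) ^ (-(10 / 3) : ℝ) := by
      have h4 : X / (M * (1 + e)) + Y / (M * (1 + e)) = 2 := by
        rw [← add_div, hs, mul_div_assoc, div_self hB.ne', mul_one]
      linear_combination (-(10 / 3) * (M * (1 + e)) ^ (-(10 / 3) : ℝ)) * h4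
    have h5 : M ^ (-(4 / 3) : ℝ) / M ^ 2 * ((1 + e) ^ 4)⁻¹ ≤ (M * (1 + e)) ^ (-(10 / 3) : ℝ) := by
      rw [Real.mul_rpow hM.le (by positivity)]
      have h6 : M ^ (-(10 / 3) : ℝ) = M ^ (-(4 / 3) : ℝ) / M ^ 2 := by
        rw [show (-(10 / 3) : ℝ) = -(4 / 3) - 2 by norm_num, Real.rpow_sub hM, Real.rpow_two]
      have h7 : ((1 + e) ^ 4)⁻¹ ≤ (1 + e) ^ (-(10 / 3) : ℝ) := by
        have h8 : ((1 + e) ^ 4)⁻¹ = (1 + e) ^ (-(4 : ℕ) : ℝ) := by
          rw [Real.rpow_neg (by positivity), Real.rpow_natCast]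
        rw [h8]
        exact Real.rpow_le_rpow_of_exponent_le (by linarith) (by norm_num)
      rw [h6]
      exact mul_le_mul_of_nonneg_left h7 (by positivity)
    linarith
  have hS3 : g * M ^ 2 * (2 * (M ^ (-(4 / 3) : ℝ) / M ^ 2 * ((1 + e) ^ 4)⁻¹)) ≤
      g * M ^ 2 * (X ^ (-(10 / 3) : ℝ) + Y ^ (-(10 / 3) : ℝ)) :=
    mul_le_mul_of_nonneg_left hS2 (by positivity)
  have hS4 : g * M ^ 2 * (2 * (M ^ (-(4 / 3) : ℝ) / M ^ 2 * ((1 + e) ^ 4)⁻¹)) =
      2 * (M ^ (-(4 / 3) : ℝ) * (g * ((1 + e) ^ 4)⁻¹)) := by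
    field_simp
  have hr := eigC_rho he ht1 hg
  rw [← hρ] at hr
  have hfin : 2 * (M ^ (-(4 / 3) : ℝ) * (1 - 2 / 3 * (1 - ρ))) -
      2 * (M ^ (-(4 / 3) : ℝ) * (g * ((1 + e) ^ 4)⁻¹)) ≤ 2 * (M ^ (-(4 / 3) : ℝ) * (1 - g)) := by
    have h1 : M ^ (-(4 / 3) : ℝ) * ((1 - 2 / 3 * (1 - ρ)) - g * ((1 + e) ^ 4)⁻¹) ≤
        M ^ (-(4 / 3) : ℝ) * (1 - g) := mul_le_mul_of_nonneg_left (by linarith) hMp.le
    linarith
  linarith

/-- As `sev_C` (FleaU/Sev): `M = (P + c/2) ^ 2`, `y = c/2 + h`, `z = c/2 - h`, `H = h ^ 2`,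
`X = c (P+u) = M + H + c h`, `Y = c (P+v) = M + H - c h`, `B = M + H`, `e = H / M`,
`G = (3/8) P ^ 2 c ^ 2`, `G ≤ (2/27) M ^ 2` because `(P - c) (P - c/4) ≥ 0` gives `9 P c ≤ 4 M`. After
multiplication by `c ^ (-4/3)` it is `X ^ (-4/3) + Y ^ (-4/3) - G (X ^ (-10/3) + Y ^ (-10/3)) ≤
2 (M ^ (-4/3) - G M ^ (-10/3))`. Power mean (concavity of `x ^ (2/3)`): `X ^ (-4/3) + Y ^ (-4/3) ≤
2 M ^ (-4/3) ρ ^ (2/3)`, `ρ = ((1+e)^2 + (4/9) e) / ((1+e)^2 - (4/9) e)^2 ≤ 1`, `ρ ^ (2/3) ≤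
1 - (2/3) (1 - ρ)`. Convexity of `x ^ (-10/3)`: `X ^ (-10/3) + Y ^ (-10/3) ≥ 2 B ^ (-10/3) ≥
2 M ^ (-10/3) (1+e) ^ (-4)`. So it is enough that `(2/27) (1 - (1+e) ^ (-4)) ≤ (2/3) (1 - ρ)`, and this is
`(2/27) (4 + 6 e + 4 e^2 + e^3) / (1+e)^4 ≤ (2/3) (2/3 + (277/81) e + (28/9) e^2 + e^3) /
(1 + (14/9) e + e^2)^2`, true coefficient by coefficient since `(1+e)^4 ≥ (1 + (14/9) e + e^2)^2`. -/
theorem eig_C {P c u v y z : ℝ} (hc : 0 < c) (hP : c ≤ P) (hu : c * u = P ^ 2 + y ^ 2)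
    (hv : c * v = P ^ 2 + z ^ 2) (hyz : y + z = c) :
    ((P + u) ^ (-(4 / 3) : ℝ) - 3 / 8 * (P ^ 2 * (P + u) ^ (-(10 / 3) : ℝ))) +
      ((P + v) ^ (-(4 / 3) : ℝ) - 3 / 8 * (P ^ 2 * (P + v) ^ (-(10 / 3) : ℝ))) ≤
      2 * (c ^ (4 / 3 : ℝ) * (P + c / 2) ^ (-(8 / 3) : ℝ) *
        (1 - 3 / 8 * (P * c / (P + c / 2) ^ 2) ^ 2)) := by
  have hP0 : 0 < P := lt_of_lt_of_le hc hP
  obtain ⟨h, hh⟩ : ∃ h, h = (y - z) / 2 := ⟨_, rfl⟩
  obtain ⟨M, hM⟩ : ∃ M, M = (P + c / 2) ^ 2 := ⟨_, rfl⟩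
  have hMc : 9 / 4 * c ^ 2 ≤ M := by rw [hM]; nlinarith
  have hMP : 9 * (P * c) ≤ 4 * M := by
    rw [hM]
    nlinarith [mul_nonneg (sub_nonneg.2 hP) (show 0 ≤ P - c / 4 by linarith)]
  have hM0 : 0 < M := by rw [hM]; positivity
  have hy : y = c / 2 + h := by rw [hh]; linarith
  have hz : z = c / 2 - h := by rw [hh]; linarith
  have hX : c * (P + u) = M + h ^ 2 + c * h := by
    rw [mul_add, hu, hM, hy]; ring
  have hY : c * (P + v) = M + h ^ 2 - c * h := by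
    rw [mul_add, hv, hM, hz]; ring
  obtain ⟨X, hXd⟩ : ∃ X, X = M + h ^ 2 + c * h := ⟨_, rfl⟩
  obtain ⟨Y, hYd⟩ : ∃ Y, Y = M + h ^ 2 - c * h := ⟨_, rfl⟩
  have hX0 : 0 < X := by rw [hXd]; nlinarith [sq_nonneg (h + c / 2)]
  have hY0 : 0 < Y := by rw [hYd]; nlinarith [sq_nonneg (h - c / 2)]
  have eX : P + u = X / c := by rw [hXd, ← hX]; field_simp
  have eY : P + v = Y / c := by rw [hYd, ← hY]; field_simp
  have hd1 : ∀ {w : ℝ}, 0 < w → (w / c) ^ (-(4 / 3) : ℝ) = c ^ (4 / 3 : ℝ) * w ^ (-(4 / 3) : ℝ) := by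
    intro w hw
    rw [Real.div_rpow hw.le hc.le, Real.rpow_neg hc.le, div_inv_eq_mul, mul_comm]
  have hd2 : ∀ {w : ℝ}, 0 < w →
      (w / c) ^ (-(10 / 3) : ℝ) = c ^ (4 / 3 : ℝ) * c ^ 2 * w ^ (-(10 / 3) : ℝ) := by
    intro w hw
    rw [Real.div_rpow hw.le hc.le, Real.rpow_neg hc.le, div_inv_eq_mul, mul_comm,
      show (10 / 3 : ℝ) = 4 / 3 + 2 by norm_num, Real.rpow_add hc, Real.rpow_two]
  have eM : (P + c / 2) ^ (-(8 / 3) : ℝ) = M ^ (-(4 / 3) : ℝ) := by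
    rw [hM, ← Real.rpow_natCast, ← Real.rpow_mul (by positivity)]
    norm_num
  obtain ⟨g, hg⟩ : ∃ g, g = 3 / 8 * (P * c / M) ^ 2 := ⟨_, rfl⟩
  have hg0 : 0 ≤ g := by rw [hg]; positivity
  have hg1 : g ≤ 2 / 27 := by
    have h1 : P * c / M ≤ 4 / 9 := by
      rw [div_le_iff₀ hM0]
      linarith
    have h2 : (P * c / M) ^ 2 ≤ (4 / 9) ^ 2 := pow_le_pow_left₀ (by positivity) h1 2
    rw [hg]
    linarith
  have hgM : g * M ^ 2 = 3 / 8 * (P ^ 2 * c ^ 2) := by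
    rw [hg]
    field_simp
  have hcore := eigC_core (M := M) (e := h ^ 2 / M) (t := c ^ 2 * h ^ 2 / M ^ 2) (g := g)
    hM0 (by positivity) (by
      rw [div_le_iff₀ (by positivity)]
      have h1 : 4 / 9 * (h ^ 2 / M) * M ^ 2 = 4 / 9 * M * h ^ 2 := by field_simp
      rw [h1]
      nlinarith [sq_nonneg h]) hg0 hg1 hX0 hY0
    (by rw [hXd, hYd]; field_simp; ring)
    (by rw [hXd, hYd]; field_simp; ring)
  rw [hgM] at hcore
  rw [eX, eY, hd1 hX0, hd1 hY0, hd2 hX0, hd2 hY0, eM, ← hM, ← hg]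
  have hcp : 0 ≤ c ^ (4 / 3 : ℝ) := by positivity
  have hm := mul_le_mul_of_nonneg_left hcore hcp
  calc _ = c ^ (4 / 3 : ℝ) * ((X ^ (-(4 / 3) : ℝ) + Y ^ (-(4 / 3) : ℝ)) -
      3 / 8 * (P ^ 2 * c ^ 2) * (X ^ (-(10 / 3) : ℝ) + Y ^ (-(10 / 3) : ℝ))) := by ring
    _ ≤ _ := hm
    _ = _ := by ring
-- END row eigC

-- BEGIN row eigD
private theorem eigD_up {a b : ℝ} (n : ℕ) (ha : 0 ≤ a) (hb : 0 ≤ b) (h : a ^ n ≤ b ^ 3) :
    a ^ ((n : ℝ) / 3) ≤ b := by
  have h1 : a ^ ((n : ℝ) / 3) = (a ^ n) ^ ((1 : ℝ) / 3) := by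
    rw [← Real.rpow_natCast, ← Real.rpow_mul ha]
    congr 1
    ring
  have h2 : (b ^ 3) ^ ((1 : ℝ) / 3) = b := by
    rw [← Real.rpow_natCast, ← Real.rpow_mul hb]
    norm_num
  calc a ^ ((n : ℝ) / 3) = (a ^ n) ^ ((1 : ℝ) / 3) := h1
    _ ≤ (b ^ 3) ^ ((1 : ℝ) / 3) := Real.rpow_le_rpow (pow_nonneg ha n) h (by norm_num)
    _ = b := h2

private theorem eigD_int {l r Q b₁ b₂ b₃ x : ℝ} (hlx : l ≤ x) (hxr : x ≤ r) (hl : 1 / 2 ≤ l)
    (hr : r ≤ 1) (hQ : x / (1 + 3 * x / 2) ^ 2 ≤ Q) (p1 : 0 ≤ b₁) (p2 : 0 ≤ b₂) (p3 : 0 ≤ b₃)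
    (e1 : Q ^ 4 ≤ b₁ ^ 3) (e2 : l / (1 + 2 * l) ^ 5 ≤ b₂ ^ 3)
    (e3 : (r / (1 + r / 2) ^ 2) ^ 4 ≤ b₃ ^ 3)
    (e : 2 * b₁ + 6 / 5 * b₂ + 2 * (b₃ * (1 - 3 / 8 * (l / (1 + l / 2) ^ 2) ^ 2)) +
      3 / 8 * (1 - l) ^ 2 ≤ 999 / 1000) :
    2 * (x ^ (4 / 3 : ℝ) * (1 + 3 * x / 2) ^ (-(8 / 3) : ℝ)) +
      6 / 5 * (x ^ (1 / 3 : ℝ) * (1 + 2 * x) ^ (-(5 / 3) : ℝ)) +
      2 * (x ^ (4 / 3 : ℝ) * (1 + x / 2) ^ (-(8 / 3) : ℝ) *
        (1 - 3 / 8 * (x / (1 + x / 2) ^ 2) ^ 2)) ≤ 999 / 1000 - 3 / 8 * (1 - x) ^ 2 := by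
  have hl0 : 0 < l := by linarith
  have hx : 0 < x := hl0.trans_le hlx
  have hrp : 0 < r := hx.trans_le hxr
  have hx1 : x ≤ 1 := hxr.trans hr
  have a1 : x ^ (4 / 3 : ℝ) * (1 + 3 * x / 2) ^ (-(8 / 3) : ℝ) ≤ b₁ := by
    have h := eigD_up (a := x / (1 + 3 * x / 2) ^ 2) (b := b₁) 4 (by positivity) p1
      ((pow_le_pow_left₀ (by positivity) hQ 4).trans e1)
    have h3 : x ^ (4 / 3 : ℝ) * (1 + 3 * x / 2) ^ (-(8 / 3) : ℝ) =
        (x / (1 + 3 * x / 2) ^ 2) ^ (4 / 3 : ℝ) := by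
      rw [Real.div_rpow hx.le (by positivity), ← Real.rpow_natCast, ← Real.rpow_mul (by positivity),
        Real.rpow_neg (by positivity), ← div_eq_mul_inv]
      norm_num
    rw [h3]
    simpa using h
  have a2 : x ^ (1 / 3 : ℝ) * (1 + 2 * x) ^ (-(5 / 3) : ℝ) ≤ b₂ := by
    have h0 : x / (1 + 2 * x) ^ 5 ≤ l / (1 + 2 * l) ^ 5 := by
      have g1 : x / (1 + 2 * x) ^ 2 ≤ l / (1 + 2 * l) ^ 2 := by
        rw [div_le_div_iff₀ (by positivity) (by positivity)]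
        have k1 : 1 / 4 ≤ x * l := by nlinarith
        nlinarith [mul_nonneg (sub_nonneg.2 hlx) (sub_nonneg.2 k1)]
      have g2 : 1 / (1 + 2 * x) ^ 3 ≤ 1 / (1 + 2 * l) ^ 3 := by
        apply one_div_le_one_div_of_le (by positivity)
        exact pow_le_pow_left₀ (by positivity) (by linarith) 3
      have g3 := mul_le_mul g1 g2 (by positivity) (by positivity)
      have g4 : ∀ y : ℝ, 0 < y → y / (1 + 2 * y) ^ 2 * (1 / (1 + 2 * y) ^ 3) = y / (1 + 2 * y) ^ 5 := by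
        intro y hy
        field_simp
      rwa [g4 x hx, g4 l hl0] at g3
    have h := eigD_up (a := x / (1 + 2 * x) ^ 5) (b := b₂) 1 (by positivity) p2
      (by rw [pow_one]; exact h0.trans e2)
    have h3 : x ^ (1 / 3 : ℝ) * (1 + 2 * x) ^ (-(5 / 3) : ℝ) =
        (x / (1 + 2 * x) ^ 5) ^ (1 / 3 : ℝ) := by
      rw [Real.div_rpow hx.le (by positivity), ← Real.rpow_natCast, ← Real.rpow_mul (by positivity),
        Real.rpow_neg (by positivity), ← div_eq_mul_inv]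
      norm_num
    rw [h3]
    simpa using h
  have hz : ∀ y w : ℝ, 0 < y → y ≤ w → w ≤ 1 → y / (1 + y / 2) ^ 2 ≤ w / (1 + w / 2) ^ 2 := by
    intro y w hy hyw hw
    have hw0 : 0 < w := hy.trans_le hyw
    rw [div_le_div_iff₀ (by positivity) (by positivity)]
    nlinarith [mul_nonneg (sub_nonneg.2 hyw) (mul_nonneg hy.le hw0.le),
      mul_nonneg (sub_nonneg.2 hyw) (sub_nonneg.2 hw),
      mul_nonneg (mul_nonneg (sub_nonneg.2 hyw) hy.le) (sub_nonneg.2 hw)]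
  have a3 : x ^ (4 / 3 : ℝ) * (1 + x / 2) ^ (-(8 / 3) : ℝ) ≤ b₃ := by
    have h := eigD_up (a := x / (1 + x / 2) ^ 2) (b := b₃) 4 (by positivity) p3
      ((pow_le_pow_left₀ (by positivity) (hz x r hx hxr hr) 4).trans e3)
    have h3 : x ^ (4 / 3 : ℝ) * (1 + x / 2) ^ (-(8 / 3) : ℝ) =
        (x / (1 + x / 2) ^ 2) ^ (4 / 3 : ℝ) := by
      rw [Real.div_rpow hx.le (by positivity), ← Real.rpow_natCast, ← Real.rpow_mul (by positivity),
        Real.rpow_neg (by positivity), ← div_eq_mul_inv]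
      norm_num
    rw [h3]
    simpa using h
  have zl := hz l x hl0 hlx hx1
  have zl0 : 0 ≤ l / (1 + l / 2) ^ 2 := by positivity
  have zx1 : x / (1 + x / 2) ^ 2 ≤ 1 := by
    rw [div_le_one (by positivity)]
    nlinarith [sq_nonneg x]
  have zx0 : 0 ≤ x / (1 + x / 2) ^ 2 := by positivity
  have s1 : (l / (1 + l / 2) ^ 2) ^ 2 ≤ (x / (1 + x / 2) ^ 2) ^ 2 := pow_le_pow_left₀ zl0 zl 2
  have s2 : (x / (1 + x / 2) ^ 2) ^ 2 ≤ 1 := pow_le_one₀ zx0 zx1
  have a4 : x ^ (4 / 3 : ℝ) * (1 + x / 2) ^ (-(8 / 3) : ℝ) *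
      (1 - 3 / 8 * (x / (1 + x / 2) ^ 2) ^ 2) ≤ b₃ * (1 - 3 / 8 * (l / (1 + l / 2) ^ 2) ^ 2) :=
    mul_le_mul a3 (by linarith) (by linarith) p3
  have s3 : (1 - x) ^ 2 ≤ (1 - l) ^ 2 := pow_le_pow_left₀ (by linarith) (by linarith) 2
  linarith

private theorem eigD_lo {l r b₁ b₂ b₃ x : ℝ} (hlx : l ≤ x) (hxr : x ≤ r) (hl : 1 / 2 ≤ l)
    (hr : r ≤ 2 / 3) (p1 : 0 ≤ b₁) (p2 : 0 ≤ b₂) (p3 : 0 ≤ b₃)
    (e1 : (r / (1 + 3 * r / 2) ^ 2) ^ 4 ≤ b₁ ^ 3) (e2 : l / (1 + 2 * l) ^ 5 ≤ b₂ ^ 3)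
    (e3 : (r / (1 + r / 2) ^ 2) ^ 4 ≤ b₃ ^ 3)
    (e : 2 * b₁ + 6 / 5 * b₂ + 2 * (b₃ * (1 - 3 / 8 * (l / (1 + l / 2) ^ 2) ^ 2)) +
      3 / 8 * (1 - l) ^ 2 ≤ 999 / 1000) :
    2 * (x ^ (4 / 3 : ℝ) * (1 + 3 * x / 2) ^ (-(8 / 3) : ℝ)) +
      6 / 5 * (x ^ (1 / 3 : ℝ) * (1 + 2 * x) ^ (-(5 / 3) : ℝ)) +
      2 * (x ^ (4 / 3 : ℝ) * (1 + x / 2) ^ (-(8 / 3) : ℝ) *
        (1 - 3 / 8 * (x / (1 + x / 2) ^ 2) ^ 2)) ≤ 999 / 1000 - 3 / 8 * (1 - x) ^ 2 := by
  refine eigD_int hlx hxr hl (by linarith) ?_ p1 p2 p3 e1 e2 e3 e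
  have hx : 0 < x := by linarith
  have hrp : 0 < r := by linarith
  rw [div_le_div_iff₀ (by positivity) (by positivity)]
  have k1 : x * r ≤ 4 / 9 := by nlinarith
  nlinarith [mul_nonneg (sub_nonneg.2 hxr) (sub_nonneg.2 k1)]

private theorem eigD_hi {l r b₁ b₂ b₃ x : ℝ} (hlx : l ≤ x) (hxr : x ≤ r) (hl : 2 / 3 ≤ l)
    (hr : r ≤ 1) (p1 : 0 ≤ b₁) (p2 : 0 ≤ b₂) (p3 : 0 ≤ b₃)
    (e1 : (l / (1 + 3 * l / 2) ^ 2) ^ 4 ≤ b₁ ^ 3) (e2 : l / (1 + 2 * l) ^ 5 ≤ b₂ ^ 3)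
    (e3 : (r / (1 + r / 2) ^ 2) ^ 4 ≤ b₃ ^ 3)
    (e : 2 * b₁ + 6 / 5 * b₂ + 2 * (b₃ * (1 - 3 / 8 * (l / (1 + l / 2) ^ 2) ^ 2)) +
      3 / 8 * (1 - l) ^ 2 ≤ 999 / 1000) :
    2 * (x ^ (4 / 3 : ℝ) * (1 + 3 * x / 2) ^ (-(8 / 3) : ℝ)) +
      6 / 5 * (x ^ (1 / 3 : ℝ) * (1 + 2 * x) ^ (-(5 / 3) : ℝ)) +
      2 * (x ^ (4 / 3 : ℝ) * (1 + x / 2) ^ (-(8 / 3) : ℝ) *
        (1 - 3 / 8 * (x / (1 + x / 2) ^ 2) ^ 2)) ≤ 999 / 1000 - 3 / 8 * (1 - x) ^ 2 := by
  refine eigD_int hlx hxr (by linarith) hr ?_ p1 p2 p3 e1 e2 e3 e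
  have hx : 0 < x := by linarith
  have hl0 : 0 < l := by linarith
  rw [div_le_div_iff₀ (by positivity) (by positivity)]
  have k1 : 4 / 9 ≤ x * l := by nlinarith
  nlinarith [mul_nonneg (sub_nonneg.2 hlx) (sub_nonneg.2 k1)]

/-- Numerics (least margin 0.0048, at `x = 1`; 0.0058 at `x = 1/2`). On `[l, r]`: the first term is
`2 (x / (1 + 3 x / 2)^2) ^ (4/3)`, the base increases up to `x = 2/3`, then decreases; the second is
`(6/5) (x / (1 + 2 x)) ^ (1/3) (1 + 2 x) ^ (-4/3)`, first factor increasing, second decreasing; the third is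
`2 z ^ (4/3) (1 - (3/8) z ^ 2)`, `z = x / (1 + x/2)^2` increasing. Many short intervals, numbers by
`a ^ (n/3) ≤ b` if `a ^ n ≤ b ^ 3`, as `sev_D` (FleaU/Sev). -/
theorem eig_D {x : ℝ} (h1 : 1 / 2 ≤ x) (h2 : x ≤ 1) :
    2 * (x ^ (4 / 3 : ℝ) * (1 + 3 * x / 2) ^ (-(8 / 3) : ℝ)) +
      6 / 5 * (x ^ (1 / 3 : ℝ) * (1 + 2 * x) ^ (-(5 / 3) : ℝ)) +
      2 * (x ^ (4 / 3 : ℝ) * (1 + x / 2) ^ (-(8 / 3) : ℝ) *
        (1 - 3 / 8 * (x / (1 + x / 2) ^ 2) ^ 2)) ≤ 999 / 1000 - 3 / 8 * (1 - x) ^ 2 := by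
  rcases le_total x (253 / 500) with h | h
  · exact eigD_lo (l := 1 / 2) (r := 253 / 500) (b₁ := 8944 / 100000) (b₂ := 25000 / 100000) (b₃ := 22097 / 100000)
      h1 h (by norm_num) (by norm_num) (by norm_num) (by norm_num) (by norm_num) (by norm_num)
      (by norm_num) (by norm_num) (by norm_num)
  replace h1 := h
  clear h
  rcases le_total x (64 / 125) with h | h
  · exact eigD_lo (l := 253 / 500) (r := 64 / 125) (b₁ := 8963 / 100000) (b₂ := 24851 / 100000) (b₃ := 22305 / 100000)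
      h1 h (by norm_num) (by norm_num) (by norm_num) (by norm_num) (by norm_num) (by norm_num)
      (by norm_num) (by norm_num) (by norm_num)
  replace h1 := h
  clear h
  rcases le_total x (259 / 500) with h | h
  · exact eigD_lo (l := 64 / 125) (r := 259 / 500) (b₁ := 8980 / 100000) (b₂ := 24703 / 100000) (b₃ := 22510 / 100000)
      h1 h (by norm_num) (by norm_num) (by norm_num) (by norm_num) (by norm_num) (by norm_num)
      (by norm_num) (by norm_num) (by norm_num)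
  replace h1 := h
  clear h
  rcases le_total x (131 / 250) with h | h
  · exact eigD_lo (l := 259 / 500) (r := 131 / 250) (b₁ := 8997 / 100000) (b₂ := 24556 / 100000) (b₃ := 22714 / 100000)
      h1 h (by norm_num) (by norm_num) (by norm_num) (by norm_num) (by norm_num) (by norm_num)
      (by norm_num) (by norm_num) (by norm_num)
  replace h1 := h
  clear h
  rcases le_total x (53 / 100) with h | h
  · exact eigD_lo (l := 131 / 250) (r := 53 / 100) (b₁ := 9013 / 100000) (b₂ := 24410 / 100000) (b₃ := 22916 / 100000)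
      h1 h (by norm_num) (by norm_num) (by norm_num) (by norm_num) (by norm_num) (by norm_num)
      (by norm_num) (by norm_num) (by norm_num)
  replace h1 := h
  clear h
  rcases le_total x (67 / 125) with h | h
  · exact eigD_lo (l := 53 / 100) (r := 67 / 125) (b₁ := 9028 / 100000) (b₂ := 24265 / 100000) (b₃ := 23116 / 100000)
      h1 h (by norm_num) (by norm_num) (by norm_num) (by norm_num) (by norm_num) (by norm_num)
      (by norm_num) (by norm_num) (by norm_num)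
  replace h1 := h
  clear h
  rcases le_total x (271 / 500) with h | h
  · exact eigD_lo (l := 67 / 125) (r := 271 / 500) (b₁ := 9043 / 100000) (b₂ := 24122 / 100000) (b₃ := 23314 / 100000)
      h1 h (by norm_num) (by norm_num) (by norm_num) (by norm_num) (by norm_num) (by norm_num)
      (by norm_num) (by norm_num) (by norm_num)
  replace h1 := h
  clear h
  rcases le_total x (137 / 250) with h | h
  · exact eigD_lo (l := 271 / 500) (r := 137 / 250) (b₁ := 9056 / 100000) (b₂ := 23980 / 100000) (b₃ := 23511 / 100000)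
      h1 h (by norm_num) (by norm_num) (by norm_num) (by norm_num) (by norm_num) (by norm_num)
      (by norm_num) (by norm_num) (by norm_num)
  replace h1 := h
  clear h
  rcases le_total x (277 / 500) with h | h
  · exact eigD_lo (l := 137 / 250) (r := 277 / 500) (b₁ := 9068 / 100000) (b₂ := 23839 / 100000) (b₃ := 23705 / 100000)
      h1 h (by norm_num) (by norm_num) (by norm_num) (by norm_num) (by norm_num) (by norm_num)
      (by norm_num) (by norm_num) (by norm_num)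
  replace h1 := h
  clear h
  rcases le_total x (14 / 25) with h | h
  · exact eigD_lo (l := 277 / 500) (r := 14 / 25) (b₁ := 9080 / 100000) (b₂ := 23699 / 100000) (b₃ := 23898 / 100000)
      h1 h (by norm_num) (by norm_num) (by norm_num) (by norm_num) (by norm_num) (by norm_num)
      (by norm_num) (by norm_num) (by norm_num)
  replace h1 := h
  clear h
  rcases le_total x (283 / 500) with h | h
  · exact eigD_lo (l := 14 / 25) (r := 283 / 500) (b₁ := 9091 / 100000) (b₂ := 23560 / 100000) (b₃ := 24089 / 100000)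
      h1 h (by norm_num) (by norm_num) (by norm_num) (by norm_num) (by norm_num) (by norm_num)
      (by norm_num) (by norm_num) (by norm_num)
  replace h1 := h
  clear h
  rcases le_total x (143 / 250) with h | h
  · exact eigD_lo (l := 283 / 500) (r := 143 / 250) (b₁ := 9101 / 100000) (b₂ := 23423 / 100000) (b₃ := 24279 / 100000)
      h1 h (by norm_num) (by norm_num) (by norm_num) (by norm_num) (by norm_num) (by norm_num)
      (by norm_num) (by norm_num) (by norm_num)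
  replace h1 := h
  clear h
  rcases le_total x (29 / 50) with h | h
  · exact eigD_lo (l := 143 / 250) (r := 29 / 50) (b₁ := 9113 / 100000) (b₂ := 23286 / 100000) (b₃ := 24529 / 100000)
      h1 h (by norm_num) (by norm_num) (by norm_num) (by norm_num) (by norm_num) (by norm_num)
      (by norm_num) (by norm_num) (by norm_num)
  replace h1 := h
  clear h
  rcases le_total x (147 / 250) with h | h
  · exact eigD_lo (l := 29 / 50) (r := 147 / 250) (b₁ := 9124 / 100000) (b₂ := 23106 / 100000) (b₃ := 24775 / 100000)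
      h1 h (by norm_num) (by norm_num) (by norm_num) (by norm_num) (by norm_num) (by norm_num)
      (by norm_num) (by norm_num) (by norm_num)
  replace h1 := h
  clear h
  rcases le_total x (149 / 250) with h | h
  · exact eigD_lo (l := 147 / 250) (r := 149 / 250) (b₁ := 9134 / 100000) (b₂ := 22928 / 100000) (b₃ := 25019 / 100000)
      h1 h (by norm_num) (by norm_num) (by norm_num) (by norm_num) (by norm_num) (by norm_num)
      (by norm_num) (by norm_num) (by norm_num)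
  replace h1 := h
  clear h
  rcases le_total x (151 / 250) with h | h
  · exact eigD_lo (l := 149 / 250) (r := 151 / 250) (b₁ := 9143 / 100000) (b₂ := 22752 / 100000) (b₃ := 25260 / 100000)
      h1 h (by norm_num) (by norm_num) (by norm_num) (by norm_num) (by norm_num) (by norm_num)
      (by norm_num) (by norm_num) (by norm_num)
  replace h1 := h
  clear h
  rcases le_total x (153 / 250) with h | h
  · exact eigD_lo (l := 151 / 250) (r := 153 / 250) (b₁ := 9150 / 100000) (b₂ := 22578 / 100000) (b₃ := 25497 / 100000)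
      h1 h (by norm_num) (by norm_num) (by norm_num) (by norm_num) (by norm_num) (by norm_num)
      (by norm_num) (by norm_num) (by norm_num)
  replace h1 := h
  clear h
  rcases le_total x (31 / 50) with h | h
  · exact eigD_lo (l := 153 / 250) (r := 31 / 50) (b₁ := 9156 / 100000) (b₂ := 22406 / 100000) (b₃ := 25732 / 100000)
      h1 h (by norm_num) (by norm_num) (by norm_num) (by norm_num) (by norm_num) (by norm_num)
      (by norm_num) (by norm_num) (by norm_num)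
  replace h1 := h
  clear h
  rcases le_total x (157 / 250) with h | h
  · exact eigD_lo (l := 31 / 50) (r := 157 / 250) (b₁ := 9162 / 100000) (b₂ := 22236 / 100000) (b₃ := 25964 / 100000)
      h1 h (by norm_num) (by norm_num) (by norm_num) (by norm_num) (by norm_num) (by norm_num)
      (by norm_num) (by norm_num) (by norm_num)
  replace h1 := h
  clear h
  rcases le_total x (319 / 500) with h | h
  · exact eigD_lo (l := 157 / 250) (r := 319 / 500) (b₁ := 9167 / 100000) (b₂ := 22068 / 100000) (b₃ := 26249 / 100000)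
      h1 h (by norm_num) (by norm_num) (by norm_num) (by norm_num) (by norm_num) (by norm_num)
      (by norm_num) (by norm_num) (by norm_num)
  replace h1 := h
  clear h
  rcases le_total x (81 / 125) with h | h
  · exact eigD_lo (l := 319 / 500) (r := 81 / 125) (b₁ := 9170 / 100000) (b₂ := 21861 / 100000) (b₃ := 26530 / 100000)
      h1 h (by norm_num) (by norm_num) (by norm_num) (by norm_num) (by norm_num) (by norm_num)
      (by norm_num) (by norm_num) (by norm_num)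
  replace h1 := h
  clear h
  rcases le_total x (329 / 500) with h | h
  · exact eigD_lo (l := 81 / 125) (r := 329 / 500) (b₁ := 9172 / 100000) (b₂ := 21656 / 100000) (b₃ := 26807 / 100000)
      h1 h (by norm_num) (by norm_num) (by norm_num) (by norm_num) (by norm_num) (by norm_num)
      (by norm_num) (by norm_num) (by norm_num)
  replace h1 := h
  clear h
  rcases le_total x (2 / 3) with h | h
  · exact eigD_lo (l := 329 / 500) (r := 2 / 3) (b₁ := 9173 / 100000) (b₂ := 21455 / 100000) (b₃ := 27043 / 100000)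
      h1 h (by norm_num) (by norm_num) (by norm_num) (by norm_num) (by norm_num) (by norm_num)
      (by norm_num) (by norm_num) (by norm_num)
  replace h1 := h
  clear h
  rcases le_total x (509 / 750) with h | h
  · exact eigD_hi (l := 2 / 3) (r := 509 / 750) (b₁ := 9173 / 100000) (b₂ := 21282 / 100000) (b₃ := 27364 / 100000)
      h1 h (by norm_num) (by norm_num) (by norm_num) (by norm_num) (by norm_num) (by norm_num)
      (by norm_num) (by norm_num) (by norm_num)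
  replace h1 := h
  clear h
  rcases le_total x (259 / 375) with h | h
  · exact eigD_hi (l := 509 / 750) (r := 259 / 375) (b₁ := 9172 / 100000) (b₂ := 21047 / 100000) (b₃ := 27679 / 100000)
      h1 h (by norm_num) (by norm_num) (by norm_num) (by norm_num) (by norm_num) (by norm_num)
      (by norm_num) (by norm_num) (by norm_num)
  replace h1 := h
  clear h
  rcases le_total x (527 / 750) with h | h
  · exact eigD_hi (l := 259 / 375) (r := 527 / 750) (b₁ := 9169 / 100000) (b₂ := 20816 / 100000) (b₃ := 27988 / 100000)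
      h1 h (by norm_num) (by norm_num) (by norm_num) (by norm_num) (by norm_num) (by norm_num)
      (by norm_num) (by norm_num) (by norm_num)
  replace h1 := h
  clear h
  rcases le_total x (43 / 60) with h | h
  · exact eigD_hi (l := 527 / 750) (r := 43 / 60) (b₁ := 9164 / 100000) (b₂ := 20589 / 100000) (b₃ := 28341 / 100000)
      h1 h (by norm_num) (by norm_num) (by norm_num) (by norm_num) (by norm_num) (by norm_num)
      (by norm_num) (by norm_num) (by norm_num)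
  replace h1 := h
  clear h
  rcases le_total x (274 / 375) with h | h
  · exact eigD_hi (l := 43 / 60) (r := 274 / 375) (b₁ := 9157 / 100000) (b₂ := 20329 / 100000) (b₃ := 28686 / 100000)
      h1 h (by norm_num) (by norm_num) (by norm_num) (by norm_num) (by norm_num) (by norm_num)
      (by norm_num) (by norm_num) (by norm_num)
  replace h1 := h
  clear h
  rcases le_total x (56 / 75) with h | h
  · exact eigD_hi (l := 274 / 375) (r := 56 / 75) (b₁ := 9147 / 100000) (b₂ := 20074 / 100000) (b₃ := 29070 / 100000)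
      h1 h (by norm_num) (by norm_num) (by norm_num) (by norm_num) (by norm_num) (by norm_num)
      (by norm_num) (by norm_num) (by norm_num)
  replace h1 := h
  clear h
  rcases le_total x (286 / 375) with h | h
  · exact eigD_hi (l := 56 / 75) (r := 286 / 375) (b₁ := 9133 / 100000) (b₂ := 19789 / 100000) (b₃ := 29444 / 100000)
      h1 h (by norm_num) (by norm_num) (by norm_num) (by norm_num) (by norm_num) (by norm_num)
      (by norm_num) (by norm_num) (by norm_num)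
  replace h1 := h
  clear h
  rcases le_total x (1171 / 1500) with h | h
  · exact eigD_hi (l := 286 / 375) (r := 1171 / 1500) (b₁ := 9117 / 100000) (b₂ := 19510 / 100000) (b₃ := 29852 / 100000)
      h1 h (by norm_num) (by norm_num) (by norm_num) (by norm_num) (by norm_num) (by norm_num)
      (by norm_num) (by norm_num) (by norm_num)
  replace h1 := h
  clear h
  rcases le_total x (599 / 750) with h | h
  · exact eigD_hi (l := 1171 / 1500) (r := 599 / 750) (b₁ := 9097 / 100000) (b₂ := 19204 / 100000) (b₃ := 30249 / 100000)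
      h1 h (by norm_num) (by norm_num) (by norm_num) (by norm_num) (by norm_num) (by norm_num)
      (by norm_num) (by norm_num) (by norm_num)
  replace h1 := h
  clear h
  rcases le_total x (307 / 375) with h | h
  · exact eigD_hi (l := 599 / 750) (r := 307 / 375) (b₁ := 9073 / 100000) (b₂ := 18905 / 100000) (b₃ := 30675 / 100000)
      h1 h (by norm_num) (by norm_num) (by norm_num) (by norm_num) (by norm_num) (by norm_num)
      (by norm_num) (by norm_num) (by norm_num)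
  replace h1 := h
  clear h
  rcases le_total x (629 / 750) with h | h
  · exact eigD_hi (l := 307 / 375) (r := 629 / 750) (b₁ := 9045 / 100000) (b₂ := 18583 / 100000) (b₃ := 31086 / 100000)
      h1 h (by norm_num) (by norm_num) (by norm_num) (by norm_num) (by norm_num) (by norm_num)
      (by norm_num) (by norm_num) (by norm_num)
  replace h1 := h
  clear h
  rcases le_total x (1291 / 1500) with h | h
  · exact eigD_hi (l := 629 / 750) (r := 1291 / 1500) (b₁ := 9013 / 100000) (b₂ := 18269 / 100000) (b₃ := 31523 / 100000)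
      h1 h (by norm_num) (by norm_num) (by norm_num) (by norm_num) (by norm_num) (by norm_num)
      (by norm_num) (by norm_num) (by norm_num)
  replace h1 := h
  clear h
  rcases le_total x (331 / 375) with h | h
  · exact eigD_hi (l := 1291 / 1500) (r := 331 / 375) (b₁ := 8976 / 100000) (b₂ := 17933 / 100000) (b₃ := 31942 / 100000)
      h1 h (by norm_num) (by norm_num) (by norm_num) (by norm_num) (by norm_num) (by norm_num)
      (by norm_num) (by norm_num) (by norm_num)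
  replace h1 := h
  clear h
  rcases le_total x (68 / 75) with h | h
  · exact eigD_hi (l := 331 / 375) (r := 68 / 75) (b₁ := 8936 / 100000) (b₂ := 17608 / 100000) (b₃ := 32381 / 100000)
      h1 h (by norm_num) (by norm_num) (by norm_num) (by norm_num) (by norm_num) (by norm_num)
      (by norm_num) (by norm_num) (by norm_num)
  replace h1 := h
  clear h
  rcases le_total x (349 / 375) with h | h
  · exact eigD_hi (l := 68 / 75) (r := 349 / 375) (b₁ := 8889 / 100000) (b₂ := 17263 / 100000) (b₃ := 32802 / 100000)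
      h1 h (by norm_num) (by norm_num) (by norm_num) (by norm_num) (by norm_num) (by norm_num)
      (by norm_num) (by norm_num) (by norm_num)
  replace h1 := h
  clear h
  rcases le_total x (1429 / 1500) with h | h
  · exact eigD_hi (l := 349 / 375) (r := 1429 / 1500) (b₁ := 8840 / 100000) (b₂ := 16930 / 100000) (b₃ := 33172 / 100000)
      h1 h (by norm_num) (by norm_num) (by norm_num) (by norm_num) (by norm_num) (by norm_num)
      (by norm_num) (by norm_num) (by norm_num)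
  replace h1 := h
  clear h
  rcases le_total x (731 / 750) with h | h
  · exact eigD_hi (l := 1429 / 1500) (r := 731 / 750) (b₁ := 8793 / 100000) (b₂ := 16634 / 100000) (b₃ := 33527 / 100000)
      h1 h (by norm_num) (by norm_num) (by norm_num) (by norm_num) (by norm_num) (by norm_num)
      (by norm_num) (by norm_num) (by norm_num)
  replace h1 := h
  clear h
  rcases le_total x (373 / 375) with h | h
  · exact eigD_hi (l := 731 / 750) (r := 373 / 375) (b₁ := 8744 / 100000) (b₂ := 16347 / 100000) (b₃ := 33837 / 100000)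
      h1 h (by norm_num) (by norm_num) (by norm_num) (by norm_num) (by norm_num) (by norm_num)
      (by norm_num) (by norm_num) (by norm_num)
  replace h1 := h
  clear h
  exact eigD_hi (l := 373 / 375) (r := 1) (b₁ := 8699 / 100000) (b₂ := 16092 / 100000) (b₃ := 33918 / 100000)
    h1 h2 (by norm_num) (by norm_num) (by norm_num) (by norm_num) (by norm_num) (by norm_num)
    (by norm_num) (by norm_num) (by norm_num)
-- END row eigD

end Pool.Agent.FleaU
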