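import Pool.Agent.FleaU.Sev2

/-! # Every root misses large areas -/

set_option autoImplicit false

namespace Pool.Agent.FleaU

open Finset Pool.Agent.FleaC

theorem root_missed {A B C : GaussianInt} (hd : Distinct A B C) {a b c s j : ℕ}
    (hr : Root a b c s) (hst : st A B C = ({a, b, c}, s)) (hjW : 4 * W (4 * j / s) < j) :
    ∃ D : ℕ, D % 2 = 1 ∧ 2 * j + 1 ≤ D ∧ D ≤ 4 * j ∧ ¬ Occurs A B C D := by
  by_contra hcon
  push Not at hcon
  have h := card_occ_ref hd hr hst (S := 4 * j)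
    (F := (Finset.range j).image fun i => 2 * j + 1 + 2 * i) (by
      intro D hD
      obtain ⟨i, hi, rfl⟩ := Finset.mem_image.1 hD
      rw [Finset.mem_range] at hi
      exact ⟨by omega, hcon _ (by omega) (by omega) (by omega)⟩)
  rw [Finset.card_image_of_injective _ (fun x y hxy => by simpa using hxy), Finset.card_range] at h
  omega

theorem root_one {A B C : GaussianInt} (hd : Distinct A B C) {a b c s : ℕ} (hs : 2 ≤ s)
    (hr : Root a b c s) (hst : st A B C = ({a, b, c}, s)) : ¬ Occurs A B C 1 := by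
  intro ho
  have h := card_occ_ref hd hr hst (S := 1) (F := {1}) (by
    intro D hD
    rw [Finset.mem_singleton] at hD
    rw [hD]
    exact ⟨le_rfl, ho⟩)
  rw [Finset.card_singleton, Nat.div_eq_of_lt (by omega : 1 < s), W_zero] at h
  omega

theorem ref_root {t C : ℝ} (ht : 1 < t)
    (hW : ∀ T : ℕ, 1 ≤ T → (W T : ℝ) ≤ C * (T : ℝ) ^ t) :
    ∃ e : ℝ, 0 < e ∧ ∀ (A B C' : GaussianInt) (a b c s : ℕ), Distinct A B C' → 2 ≤ s →
      Root a b c s → st A B C' = ({a, b, c}, s) →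
      ∃ D : ℕ, ¬ Occurs A B C' D ∧ Odd D ∧ e * (s : ℝ) ^ (t / (t - 1)) ≤ D := by
  have hC : 1 ≤ C := by
    have h1 := hW 1 le_rfl
    rw [Nat.cast_one, Real.one_rpow, mul_one] at h1
    have h2 : (1 : ℝ) ≤ W 1 := by exact_mod_cast one_le_W
    linarith
  have hC0 : 0 < C := by linarith
  have ht1 : 0 < t - 1 := by linarith
  have h4t : (0 : ℝ) < 4 ^ t := Real.rpow_pos_of_pos (by norm_num) _
  have he : 0 < (1 / (4 * C * 4 ^ t)) ^ (1 / (t - 1)) := Real.rpow_pos_of_pos (by positivity) _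
  refine ⟨(1 / (4 * C * 4 ^ t)) ^ (1 / (t - 1)) / 2, by positivity, ?_⟩
  intro A B C' a b c s hd hs2 hr hst
  have ps : (0 : ℝ) < s := by exact_mod_cast (by omega : 0 < s)
  have hx : (0 : ℝ) < (s : ℝ) / 4 := by positivity
  have hxt : 0 < ((s : ℝ) / 4) ^ t := Real.rpow_pos_of_pos hx _
  obtain ⟨y, hy⟩ : ∃ y : ℝ, y = (((s : ℝ) / 4) ^ t / (4 * C)) ^ (1 / (t - 1)) := ⟨_, rfl⟩
  have hy0 : 0 < y := by rw [hy]; exact Real.rpow_pos_of_pos (by positivity) _
  have hyp : y ^ (t - 1) = ((s : ℝ) / 4) ^ t / (4 * C) := by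
    rw [hy, ← Real.rpow_mul (by positivity), one_div_mul_cancel ht1.ne', Real.rpow_one]
  have hey : (1 / (4 * C * 4 ^ t)) ^ (1 / (t - 1)) * (s : ℝ) ^ (t / (t - 1)) = y := by
    have e1 : (s : ℝ) ^ (t / (t - 1)) = ((s : ℝ) ^ t) ^ (1 / (t - 1)) := by
      rw [← Real.rpow_mul ps.le]
      congr 1
      ring
    rw [e1, ← Real.mul_rpow (by positivity) (by positivity), hy]
    congr 1
    rw [Real.div_rpow ps.le (by norm_num)]
    field_simp
  by_cases hy2 : y < 2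
  · refine ⟨1, root_one hd hs2 hr hst, odd_one, ?_⟩
    rw [Nat.cast_one]
    linarith
  · push Not at hy2
    obtain ⟨j, hj⟩ : ∃ j : ℕ, j = ⌊y / 2⌋₊ := ⟨_, rfl⟩
    have hj1 : 1 ≤ j := by
      rw [hj]
      exact Nat.le_floor (by push_cast; linarith)
    have hjy : (j : ℝ) ≤ y / 2 := by
      rw [hj]
      exact Nat.floor_le (by linarith)
    have hjy2 : y / 2 < j + 1 := by
      rw [hj]
      exact Nat.lt_floor_add_one _
    have pj : (0 : ℝ) < j := by exact_mod_cast (by omega : 0 < j)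
    have hjW : 4 * W (4 * j / s) < j := by
      rcases Nat.eq_zero_or_pos (4 * j / s) with h0 | h0
      · rw [h0, W_zero]
        omega
      · have h1 := hW _ h0
        have h2 : (((4 * j / s : ℕ)) : ℝ) ≤ (j : ℝ) / ((s : ℝ) / 4) := by
          have := @Nat.cast_div_le ℝ _ _ _ (4 * j) s
          refine this.trans (le_of_eq ?_)
          push_cast
          field_simp
        have h3 : (((4 * j / s : ℕ)) : ℝ) ^ t ≤ ((j : ℝ) / ((s : ℝ) / 4)) ^ t :=
          Real.rpow_le_rpow (by positivity) h2 (by linarith)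
        have h4 : ((j : ℝ) / ((s : ℝ) / 4)) ^ t = (j : ℝ) ^ t / ((s : ℝ) / 4) ^ t :=
          Real.div_rpow (by positivity) (by positivity) _
        have h5 : (j : ℝ) ^ t = (j : ℝ) ^ (t - 1) * j := by
          conv_rhs => rw [← Real.rpow_add_one pj.ne']
          congr 1
          ring
        have h6 : (j : ℝ) ^ (t - 1) < ((s : ℝ) / 4) ^ t / (4 * C) := by
          rw [← hyp]
          exact Real.rpow_lt_rpow pj.le (by linarith) ht1
        rw [lt_div_iff₀ (by positivity)] at h6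
        have h7 : 4 * C * ((j : ℝ) ^ t / ((s : ℝ) / 4) ^ t) < j := by
          rw [h5, ← mul_div_assoc, div_lt_iff₀ hxt]
          calc 4 * C * ((j : ℝ) ^ (t - 1) * j) = (j : ℝ) ^ (t - 1) * (4 * C) * j := by ring
            _ < ((s : ℝ) / 4) ^ t * j := mul_lt_mul_of_pos_right h6 pj
            _ = j * ((s : ℝ) / 4) ^ t := mul_comm _ _
        rw [h4] at h3
        have h8 := mul_le_mul_of_nonneg_left h3 hC0.le
        have h9 : (4 : ℝ) * (W (4 * j / s) : ℝ) < j := by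
          calc (4 : ℝ) * (W (4 * j / s) : ℝ) ≤
                4 * (C * ((j : ℝ) ^ t / ((s : ℝ) / 4) ^ t)) :=
                mul_le_mul_of_nonneg_left (h1.trans h8) (by norm_num)
            _ = 4 * C * ((j : ℝ) ^ t / ((s : ℝ) / 4) ^ t) := by ring
            _ < j := h7
        exact_mod_cast h9
    obtain ⟨D, hD1, hD2, hD3, hD4⟩ := root_missed hd hr hst hjW
    refine ⟨D, hD4, Nat.odd_iff.2 hD1, ?_⟩
    have hD5 : 2 * (j : ℝ) + 1 ≤ D := by exact_mod_cast hD2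
    linarith

/-- the target of a descent is a valid state -/
theorem val_desc {X Y : St} (h : Desc X Y) : ∃ a b c s : ℕ, Val a b c s ∧ Y = ({a, b, c}, s) := by
  obtain ⟨a, b, c, s, hv, -, h2, h3, -, hY⟩ := h
  exact ⟨_, _, _, _, hv.minus h2 h3, hY⟩

/-- the descent ends -/
theorem terminal (n : ℕ) : ∀ X : St, sg X ≤ n → (∃ a b c s : ℕ, Val a b c s ∧ X = ({a, b, c}, s)) →
    ∃ R : St, Relation.ReflTransGen Desc X R ∧ (∀ Y, ¬ Desc R Y) ∧
      ∃ a b c s : ℕ, Val a b c s ∧ R = ({a, b, c}, s) := by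
  induction n with
  | zero =>
    intro X hX hv
    refine ⟨X, Relation.ReflTransGen.refl, fun Y hY => ?_, hv⟩
    have := hY.sg_lt
    omega
  | succ n ih =>
    intro X hX hv
    by_cases h : ∃ Y, Desc X Y
    · obtain ⟨Y, hY⟩ := h
      have h1 := hY.sg_lt
      obtain ⟨R, h2, h3, h4⟩ := ih Y (by omega) (val_desc hY)
      exact ⟨R, Relation.ReflTransGen.head hY h2, h3, h4⟩
    · push Not at h
      exact ⟨X, Relation.ReflTransGen.refl, h, hv⟩

/-- the states without a descent -/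
theorem classify {a b c s : ℕ} (hv : Val a b c s) (hs : 1 ≤ s)
    (h : ∀ Y, ¬ Desc ({a, b, c}, s) Y) :
    ∃ a' b' c' : ℕ, ({a, b, c} : Multiset ℕ) = {a', b', c'} ∧
      (Root a' b' c' s ∨ (a' = s ∧ b' = 2 * s ∧ c' = s)) := by
  obtain ⟨a', b', c', hv', hm, h1, h2, -⟩ := exists_min hv
  rw [hm] at h
  by_cases hc : 2 * s ≤ c'
  · exact ⟨a', b', c', hm, Or.inl ⟨hv', hs, by omega, by omega, hc⟩⟩
  · have k1 := two_s_le hv'
    have k2 := two_s_le hv'.swap
    have k3 : 2 * s = a' + c' ∨ 2 * s = b' + c' := by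
      by_contra hcon
      push Not at hcon
      exact h _ ⟨a', b', c', s, hv', by omega, by omega, by omega, rfl, rfl⟩
    have her := hv'.her
    rcases k3 with k | k
    · have e0 : (2 * (s : ℤ)) = a' + c' := by exact_mod_cast k
      have e1 : ((a' : ℤ) - c') ^ 2 + (2 * s - b') ^ 2 = 0 := by nlinarith
      have e2 : (a' : ℤ) - c' = 0 := by nlinarith [sq_nonneg ((a' : ℤ) - c'), sq_nonneg (2 * (s : ℤ) - b')]
      have e3 : 2 * (s : ℤ) - b' = 0 := by nlinarith [sq_nonneg ((a' : ℤ) - c'), sq_nonneg (2 * (s : ℤ) - b')]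
      refine ⟨a', b', c', hm, Or.inr ⟨by omega, by omega, by omega⟩⟩
    · have e0 : (2 * (s : ℤ)) = b' + c' := by exact_mod_cast k
      have e1 : ((b' : ℤ) - c') ^ 2 + (2 * s - a') ^ 2 = 0 := by nlinarith
      have e2 : (b' : ℤ) - c' = 0 := by nlinarith [sq_nonneg ((b' : ℤ) - c'), sq_nonneg (2 * (s : ℤ) - a')]
      have e3 : 2 * (s : ℤ) - a' = 0 := by nlinarith [sq_nonneg ((b' : ℤ) - c'), sq_nonneg (2 * (s : ℤ) - a')]
      refine ⟨b', a', c', hm.trans (rot3 a' b' c'), Or.inr ⟨by omega, by omega, by omega⟩⟩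

/-- all data of the state are divisible by `m` -/
def DvS (m : ℕ) (X : St) : Prop := (∀ x ∈ X.1, m ∣ x) ∧ m ∣ X.2

theorem dvs_mk {m a b c s : ℕ} : DvS m ({a, b, c}, s) ↔ m ∣ a ∧ m ∣ b ∧ m ∣ c ∧ m ∣ s := by
  unfold DvS
  simp only [Multiset.insert_eq_cons, Multiset.mem_cons, Multiset.mem_singleton, forall_eq_or_imp,
    forall_eq]
  tauto

theorem dvs_stp {m : ℕ} {X Y : St} (h : Stp X Y) (hX : DvS m X) : DvS m Y := by
  obtain ⟨a, b, c, s, -, rfl, hY⟩ := h
  rw [dvs_mk] at hX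
  obtain ⟨h1, h2, h3, h4⟩ := hX
  have h5 : m ∣ 2 * s := h4.mul_left 2
  rcases hY with rfl | ⟨-, -, rfl⟩
  · rw [dvs_mk]
    exact ⟨(h1.add h3).add h5, (h2.add h3).add h5, h3, h4.add h3⟩
  · rw [dvs_mk]
    refine ⟨Nat.dvd_sub (h1.add h3) h5, Nat.dvd_sub (h2.add h3) h5, h3, ?_⟩
    unfold df
    exact (Nat.dvd_sub h3 h4).add (Nat.dvd_sub h4 h3)

theorem dvs_pth {m n : ℕ} {X Y : St} (h : Pth Stp n X Y) (hX : DvS m X) : DvS m Y := by
  induction n generalizing X with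
  | zero =>
    have : X = Y := h
    rw [← this]
    exact hX
  | succ n ih =>
    obtain ⟨Z, h1, h2⟩ := h
    exact ih h2 (dvs_stp h1 hX)

/-- connected triangles have the same areas -/
theorem occurs_conn {A B C P Q T : GaussianInt} (hd : Distinct A B C) (hd' : Distinct P Q T)
    (h : Conn (st A B C) (st P Q T)) {D : ℕ} (ho : Occurs A B C D) : Occurs P Q T D := by
  obtain ⟨P', Q', T', h1, hD⟩ := ho
  obtain ⟨U, V, Z, e, hd2, h3⟩ := reach_conn hd h1
  have e2 := st_perm e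
  obtain ⟨n, -, hp⟩ := short (val_st hd2) (conn_equiv.trans (conn_equiv.symm h) h3)
  obtain ⟨P2, Q2, T2, h5, -, h7⟩ := lift_path hd' hp
  refine ⟨P2, Q2, T2, mpth_reach h5, ?_⟩
  have h8 : area2 P2 Q2 T2 = area2 U V Z := congrArg Prod.snd h7
  have h9 : area2 P' Q' T' = area2 U V Z := congrArg Prod.snd e2
  rw [h8, ← h9, hD]

/-- every orbit without small areas misses large areas -/
theorem ref_orbit {t C : ℝ} (ht : 1 < t)
    (hW : ∀ T : ℕ, 1 ≤ T → (W T : ℝ) ≤ C * (T : ℝ) ^ t) :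
    ∃ e : ℝ, 0 < e ∧ ∀ (A B C' : GaussianInt) (s : ℕ), Distinct A B C' → 2 ≤ s →
      (∀ D : ℕ, Occurs A B C' D → s ≤ D) →
      ∃ D : ℕ, ¬ Occurs A B C' D ∧ Odd D ∧ e * (s : ℝ) ^ (t / (t - 1)) ≤ D := by
  obtain ⟨e, he, H⟩ := ref_root ht hW
  refine ⟨e, he, fun A B C' s hd hs hocc => ?_⟩
  obtain ⟨R, h1, h2, a, b, c, m, hv, hR⟩ := terminal (sg (st A B C')) (st A B C') le_rfl
    ⟨_, _, _, _, val_st hd, rfl⟩
  obtain ⟨n, -, hp⟩ := pth_down h1
  obtain ⟨P, Q, T, h3, h4, h5⟩ := lift_path hd hp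
  have hconn : Conn (st A B C') (st P Q T) := by
    rw [h5]
    exact ⟨R, h1, Relation.ReflTransGen.refl⟩
  have hm : area2 P Q T = m := by
    have := congrArg Prod.snd (h5.trans hR)
    exact this
  have hsm : s ≤ m := by
    rw [← hm]
    exact hocc _ ⟨P, Q, T, mpth_reach h3, rfl⟩
  have key : ∀ D : ℕ, ¬ Occurs P Q T D → ¬ Occurs A B C' D :=
    fun D h h' => h (occurs_conn hd h4 hconn h')
  rw [hR] at h2
  obtain ⟨a', b', c', hm2, hcase⟩ := classify hv (by omega) h2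
  have hst : st P Q T = ({a', b', c'}, m) := by rw [h5, hR, hm2]
  rcases hcase with hr | ⟨ea, eb, ec⟩
  · obtain ⟨D, hD1, hD2, hD3⟩ := H P Q T a' b' c' m h4 (by omega) hr hst
    refine ⟨D, key D hD1, hD2, le_trans ?_ hD3⟩
    have h6 : (s : ℝ) ≤ m := by exact_mod_cast hsm
    have h7 : (s : ℝ) ^ (t / (t - 1)) ≤ (m : ℝ) ^ (t / (t - 1)) :=
      Real.rpow_le_rpow (Nat.cast_nonneg s) h6 (div_nonneg (by linarith) (by linarith))
    exact mul_le_mul_of_nonneg_left h7 he.le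
  · have hdv : ∀ D : ℕ, Occurs P Q T D → m ∣ D := by
      intro D hD
      obtain ⟨n, -, Y, hpY, hY⟩ := (occurs_iff h4 D).1 hD
      have h6 : DvS m (st P Q T) := by
        rw [hst, dvs_mk, ea, eb, ec]
        exact ⟨dvd_rfl, Dvd.intro_left 2 rfl, dvd_rfl, dvd_rfl⟩
      rw [← hY]
      exact (dvs_pth hpY h6).2
    obtain ⟨M, hM⟩ := exists_nat_ge (e * (s : ℝ) ^ (t / (t - 1)))
    refine ⟨2 * (m * M) + 1, key _ (fun h => ?_), odd_two_mul_add_one _, hM.trans ?_⟩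
    · have h6 := hdv _ h
      have h7 : m ∣ 2 * (m * M) := (Dvd.intro M rfl).mul_left 2
      have h8 : m ∣ 1 := (Nat.dvd_add_right h7).1 h6
      have h9 : m = 1 := Nat.dvd_one.1 h8
      omega
    · have h6 : M ≤ 2 * (m * M) + 1 := by nlinarith
      exact_mod_cast h6

/-- the exponent `7 / 2` for every orbit -/
theorem every : ∃ e : ℝ, 0 < e ∧ ∀ (A B C : GaussianInt) (s : ℕ), Distinct A B C → 2 ≤ s →
      (∀ D : ℕ, Occurs A B C D → s ≤ D) →
      ∃ D : ℕ, ¬ Occurs A B C D ∧ Odd D ∧ e * (s : ℝ) ^ (7 / 2 : ℝ) ≤ D := by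
  obtain ⟨K, hK⟩ := W_le7
  obtain ⟨e, he, h⟩ := ref_orbit (t := 7 / 5) (C := K) (by norm_num) (fun T _ => hK T)
  have e1 : (7 / 5 / (7 / 5 - 1) : ℝ) = 7 / 2 := by norm_num
  rw [e1] at h
  exact ⟨e, he, h⟩

end Pool.Agent.FleaU
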