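import Pool.Agent.FleaU.Cor
import Pool.Agent.FleaC.Quart

/-! # Many missed areas up to the fourth power of the side length -/

set_option autoImplicit false

namespace Pool.Agent.FleaU

open Finset Pool.Agent.FleaC

theorem adm_q {k : ℕ} (hk : 2 ≤ k) (deg : Bool) : Adm deg qA (qB k) (qC k) := by
  refine ⟨q_distinct hk, q_prim k, Or.inr ?_⟩
  rw [q_area]
  have : 1 ≤ k ^ 2 := Nat.one_le_pow _ _ (by omega)
  omega

open Classical in
theorem many_missed {k j N : ℕ} (deg : Bool) (hk : 2 ≤ k) (hj : 1 ≤ j) (hjk : 7 * j < k ^ 4)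
    (hs : SidesLe N qA (qB k) (qC k)) : 2 * j < 3 * cnt deg N (2 * j) := by
  set O := (range j).filter fun i => Occurs qA (qB k) (qC k) (2 * i + 1) with hO
  set M := (range j).filter fun i => ¬ Occurs qA (qB k) (qC k) (2 * i + 1) with hM
  have hOM : O.card + M.card = j := by
    have := card_filter_add_card_filter_not (s := range j) (fun i => Occurs qA (qB k) (qC k) (2 * i + 1))
    rw [card_range] at this
    exact this
  have hinj : Function.Injective (fun i : ℕ => 2 * i + 1) := fun x y hxy => by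
    have : 2 * x + 1 = 2 * y + 1 := hxy
    omega
  have hst : st qA (qB k) (qC k) = ({68 * k ^ 2 + 16 * k + 1, 20 * k ^ 2 + 8 * k + 1, 16 * k ^ 2},
      8 * k ^ 2) := by
    unfold st
    rw [q_ab, q_bc, q_ca, q_area]
  have h := card_occ (q_distinct hk) (q_root hk) (Or.inr (Or.inr (by omega))) hst (S := 2 * j)
    (F := O.image fun i => 2 * i + 1) (by
      intro D hD
      obtain ⟨i, hi, rfl⟩ := Finset.mem_image.1 hD
      rw [hO, mem_filter, mem_range] at hi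
      exact ⟨by omega, hi.2⟩)
  rw [card_image_of_injective _ hinj] at h
  have hMc : M.card ≤ cnt deg N (2 * j) := by
    rw [cnt_eq, ← card_image_of_injective M hinj, ← Set.ncard_coe_finset]
    refine Set.ncard_le_ncard ?_ ((Set.finite_Iio (2 * j)).subset fun D hD => hD.1)
    intro D hD
    rw [mem_coe, mem_image] at hD
    obtain ⟨i, hi, rfl⟩ := hD
    rw [hM, mem_filter, mem_range] at hi
    refine ⟨by omega, qA, qB k, qC k, adm_q hk deg, hs, hi.2, fun n hn => ?_⟩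
    omega
  have pk : (0 : ℝ) < k := by exact_mod_cast (by omega : 0 < k)
  have pj : (0 : ℝ) < j := by exact_mod_cast (by omega : 0 < j)
  have hjk' : 7 * (j : ℝ) < (k : ℝ) ^ 4 := by exact_mod_cast hjk
  have e : (((2 * j : ℕ) : ℝ)) ^ 2 * (36 / ((8 * k ^ 2 : ℕ) : ℝ) ^ 2) =
      9 / 4 * (j : ℝ) ^ 2 / (k : ℝ) ^ 4 := by
    push_cast
    field_simp
    ring
  rw [e, le_div_iff₀ (by positivity)] at h
  have hOM' : (O.card : ℝ) + M.card = j := by exact_mod_cast hOM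
  have hMc' : (M.card : ℝ) ≤ cnt deg N (2 * j) := by exact_mod_cast hMc
  have hO3 : 3 * (O.card : ℝ) < j := by
    by_contra hcon
    push Not at hcon
    have pk4 : (0 : ℝ) < (k : ℝ) ^ 4 := by positivity
    nlinarith
  have : (2 : ℝ) * j < 3 * cnt deg N (2 * j) := by linarith
  exact_mod_cast this

theorem low {deg : Bool} {N q X0 : ℕ} (hN : 18 ≤ N) (hq : 3 ≤ q)
    (hF : ∀ X : ℕ, X0 < X → q * cnt deg N X ≤ X) : N ^ 4 ≤ 150000 * X0 := by
  obtain ⟨k, hk, h9, h13⟩ : ∃ k : ℕ, 2 ≤ k ∧ 9 * k ≤ N ∧ N ≤ 13 * k :=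
    ⟨N / 9, by omega, by omega, by omega⟩
  have h16 : 16 ≤ k ^ 4 := by
    calc 16 = 2 ^ 4 := by norm_num
      _ ≤ k ^ 4 := Nat.pow_le_pow_left hk 4
  obtain ⟨j, hj, hj1, hj2⟩ : ∃ j : ℕ, 2 ≤ j ∧ 7 * j < k ^ 4 ∧ k ^ 4 ≤ 7 * j + 7 :=
    ⟨(k ^ 4 - 1) / 7, by omega, by omega, by omega⟩
  have hN2 : 81 * k ^ 2 ≤ N ^ 2 := by
    calc 81 * k ^ 2 = (9 * k) ^ 2 := by ring
      _ ≤ N ^ 2 := Nat.pow_le_pow_left h9 2
  have hkk : 2 * k ≤ k ^ 2 := by nlinarith
  have hk4 : 1 ≤ k ^ 2 := Nat.one_le_pow _ _ (by omega)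
  have hs : SidesLe N qA (qB k) (qC k) := by
    refine ⟨?_, ?_, ?_⟩
    · rw [q_ab]
      omega
    · rw [q_bc]
      omega
    · rw [q_ca]
      omega
  have h1 := many_missed deg hk (by omega : 1 ≤ j) hj1 hs
  have h2 : 2 * j ≤ X0 := by
    by_contra hcon
    push Not at hcon
    have h3 := hF (2 * j) hcon
    have h4 : 3 * cnt deg N (2 * j) ≤ q * cnt deg N (2 * j) := Nat.mul_le_mul_right _ hq
    omega
  calc N ^ 4 ≤ (13 * k) ^ 4 := Nat.pow_le_pow_left h13 4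
    _ = 28561 * k ^ 4 := by ring
    _ ≤ 28561 * (7 * j + 7) := Nat.mul_le_mul_left _ hj2
    _ ≤ 150000 * X0 := by omega

end Pool.Agent.FleaU
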