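import Pool.Agent.FleaU.EffMain
import Pool.Agent.FleaU.EffRoot
import Pool.Agent.FleaU.Close
import Pool.Agent.FleaC.Main

/-! # The uniform density theorem -/

set_option autoImplicit false

namespace Pool.Agent.FleaU

open Finset Pool.Agent.FleaC

/-- the first pair -/
theorem prs_start {A B C : GaussianInt} (hd : Distinct A B C) (hprim : Primitive A B C) :
    ∃ a b : GaussianInt, Prs (st A B C) a b ∧ IsCoprime a b ∧ b ≠ 0 ∧ a = B - A ∧
      b = -(I * (C - B)) := by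
  have hI : I * I = (-1 : GaussianInt) := by
    apply Zsqrtd.ext <;> simp [I]
  have hb : I * (-(I * (C - B))) = C - B := by
    linear_combination -(C - B) * hI
  have hBA : B - A ≠ 0 := sub_ne_zero.2 (Ne.symm hd.1)
  refine ⟨B - A, -(I * (C - B)), ⟨A, B, C, Or.inl ⟨hd, conn_equiv.refl _⟩, rfl, hb.symm⟩, ?_, ?_, rfl, rfl⟩
  · rw [← EuclideanDomain.gcd_isUnit_iff]
    by_contra hu
    have h1 := EuclideanDomain.gcd_dvd_left (B - A) (-(I * (C - B)))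
    have h2 := EuclideanDomain.gcd_dvd_right (B - A) (-(I * (C - B)))
    set c := EuclideanDomain.gcd (B - A) (-(I * (C - B))) with hc
    have hc0 : c ≠ 0 := by
      intro h
      rw [h, zero_dvd_iff] at h1
      exact hBA h1
    have h3 : c ∣ C - B := by
      rw [← hb]
      exact Dvd.dvd.mul_left h2 I
    have hn : 1 < c.norm := by
      have h4 : 0 < c.norm := by
        rw [← Pool.Agent.Flea.N_eq_norm]
        exact Pool.Agent.Flea.N_pos hc0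
      have h5 : c.norm ≠ 1 := by
        intro h
        apply hu
        rw [← Zsqrtd.norm_eq_one_iff, h]
        rfl
      omega
    refine hprim A c hn ⟨?_, h1, ?_⟩
    · rw [sub_self]
      exact dvd_zero c
    · have h6 : C - A = (C - B) + (B - A) := by ring
      rw [h6]
      exact dvd_add h3 h1
  · intro h
    rw [h, mul_zero] at hb
    exact hd.2.1 (sub_eq_zero.1 hb.symm).symm

theorem bnd_start {N : ℕ} {A B C : GaussianInt} (_hN : 1 ≤ N) (hs : SidesLe N A B C) :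
    Bnd (N : ℤ) (B - A) (-(I * (C - B))) := by
  obtain ⟨h1, h2⟩ := sq_le_of_dist hs.1
  obtain ⟨h3, h4⟩ := sq_le_of_dist hs.2.1
  have hIr : (-(I * (C - B))).re = C.im - B.im := by simp [I]
  have hIi : (-(I * (C - B))).im = -(C.re - B.re) := by simp [I]
  refine ⟨h1, h2, ?_, ?_⟩
  · rw [hIr]
    exact h4
  · rw [hIi, abs_neg]
    exact h3

open Classical in
/-- one triangle -/
theorem one_tri : ∃ (η C5 : ℝ) (A5 : ℕ), 0 < η ∧ η < 1 ∧ 0 < C5 ∧
    ∀ (N Y X : ℕ), 1 ≤ N → 1 ≤ X → ∀ A B C : GaussianInt, Adm true A B C → SidesLe N A B C →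
      ((((range X).filter fun n : ℕ => ¬ Occurs A B C (Y + n)).card : ℕ) : ℝ) ≤
        C5 * (N : ℝ) ^ A5 * (X : ℝ) ^ (1 - η) := by
  obtain ⟨η, C4, A4, h0, h1, hC4, hmain⟩ := main_eff
  refine ⟨η, C4 * (7000 * 2 ^ 8) ^ A4 + 1, 8 * A4, h0, h1, by positivity, ?_⟩
  intro N Y X hN hX A B C hA hs
  obtain ⟨a, b, hab, hcop, hb, rfl, rfl⟩ := prs_start hA.1 hA.2.1
  have hclo := prs_clo (st A B C)
  have hN' : (1 : ℤ) ≤ (N : ℤ) := by exact_mod_cast hN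
  obtain ⟨a', b', hn, hD⟩ := root_eff hclo hab hcop hb hN' (bnd_start hN hs)
  have hmain' := hmain _ hclo a' b' hn (Y : ℤ) X hX
  have hNR : (1 : ℝ) ≤ N := by exact_mod_cast hN
  have hXR : (1 : ℝ) ≤ X := by exact_mod_cast hX
  have hXp : (1 : ℝ) ≤ (X : ℝ) ^ (1 - η) := Real.one_le_rpow hXR (by linarith)
  have hD' : (Pool.Agent.Flea.D a' b' : ℝ) ≤ 7000 * 2 ^ 8 * (N : ℝ) ^ 8 := by
    have : (Pool.Agent.Flea.D a' b' : ℝ) ≤ 7000 * (2 * (N : ℝ)) ^ 8 := by exact_mod_cast hD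
    refine this.trans (le_of_eq ?_)
    ring
  have hD0 : (0 : ℝ) ≤ (Pool.Agent.Flea.D a' b' : ℝ) := by
    have := hn.pos
    exact_mod_cast this.le
  have hpow : (Pool.Agent.Flea.D a' b' : ℝ) ^ A4 ≤ (7000 * 2 ^ 8) ^ A4 * (N : ℝ) ^ (8 * A4) := by
    calc (Pool.Agent.Flea.D a' b' : ℝ) ^ A4 ≤ (7000 * 2 ^ 8 * (N : ℝ) ^ 8) ^ A4 :=
          pow_le_pow_left₀ hD0 hD' _
      _ = (7000 * 2 ^ 8) ^ A4 * (N : ℝ) ^ (8 * A4) := by rw [mul_pow, ← pow_mul]
  have hsub : ((range X).filter fun n : ℕ => ¬ Occurs A B C (Y + n)) ⊆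
      insert 0 ((range X).filter fun n : ℕ => ¬ ∃ v w, Prs (st A B C) v w ∧
        Pool.Agent.Flea.R v w = (n : ℤ) + (Y : ℤ)) := by
    intro n hn
    rw [mem_filter] at hn
    rw [mem_insert, mem_filter]
    by_cases h : n = 0
    · exact Or.inl h
    · refine Or.inr ⟨hn.1, fun ⟨v, w, hvw, hR⟩ => hn.2 (occurs_of_prs hA.1 (by omega) hvw ?_)⟩
      rw [hR]
      push_cast
      ring
  have hcard : ((((range X).filter fun n : ℕ => ¬ Occurs A B C (Y + n)).card : ℕ) : ℝ) ≤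
      ((((range X).filter fun n : ℕ => ¬ ∃ v w, Prs (st A B C) v w ∧
        Pool.Agent.Flea.R v w = (n : ℤ) + (Y : ℤ)).card : ℕ) : ℝ) + 1 := by
    have := (card_le_card hsub).trans (card_insert_le _ _)
    exact_mod_cast this
  have h5 : C4 * (Pool.Agent.Flea.D a' b' : ℝ) ^ A4 * (X : ℝ) ^ (1 - η) ≤
      C4 * ((7000 * 2 ^ 8) ^ A4 * (N : ℝ) ^ (8 * A4)) * (X : ℝ) ^ (1 - η) :=
    mul_le_mul_of_nonneg_right (mul_le_mul_of_nonneg_left hpow hC4.le) (by linarith)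
  have h6 : (1 : ℝ) ≤ (N : ℝ) ^ (8 * A4) * (X : ℝ) ^ (1 - η) := by
    have : (1 : ℝ) ≤ (N : ℝ) ^ (8 * A4) := one_le_pow₀ hNR
    nlinarith
  calc ((((range X).filter fun n : ℕ => ¬ Occurs A B C (Y + n)).card : ℕ) : ℝ)
      ≤ C4 * (Pool.Agent.Flea.D a' b' : ℝ) ^ A4 * (X : ℝ) ^ (1 - η) + 1 := by linarith
    _ ≤ C4 * ((7000 * 2 ^ 8) ^ A4 * (N : ℝ) ^ (8 * A4)) * (X : ℝ) ^ (1 - η) +
        (N : ℝ) ^ (8 * A4) * (X : ℝ) ^ (1 - η) := add_le_add h5 h6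
    _ = (C4 * (7000 * 2 ^ 8) ^ A4 + 1) * (N : ℝ) ^ (8 * A4) * (X : ℝ) ^ (1 - η) := by ring

open Classical in
/-- all triangles with sides at most `N` -/
theorem all_tri : ∃ (η C5 : ℝ) (A5 : ℕ), 0 < η ∧ η < 1 ∧ 1 ≤ C5 ∧
    ∀ (N Y X : ℕ), 1 ≤ N → 1 ≤ X →
      ((((range X).filter fun n : ℕ => ∃ A B C : GaussianInt, Adm true A B C ∧ SidesLe N A B C ∧
        ¬ Occurs A B C (Y + n)).card : ℕ) : ℝ) ≤
        C5 * (N : ℝ) ^ A5 * (X : ℝ) ^ (1 - η) := by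
  obtain ⟨η, C4, A4, h0, h1, hC4, hone⟩ := one_tri
  refine ⟨η, 64 * C4 + 1, A4 + 6, h0, h1, by linarith, ?_⟩
  intro N Y X hN hX
  set bx : Finset (ℕ × ℕ) := range (N + 1) ×ˢ range (N + 1) with hbx
  set tri : Finset ((ℕ × ℕ) × (ℕ × ℕ) × (ℕ × ℕ)) := bx ×ˢ bx ×ˢ bx with htri
  have hNR : (1 : ℝ) ≤ N := by exact_mod_cast hN
  have hXR : (1 : ℝ) ≤ X := by exact_mod_cast hX
  have hXp : (1 : ℝ) ≤ (X : ℝ) ^ (1 - η) := Real.one_le_rpow hXR (by linarith)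
  have hsub : ((range X).filter fun n : ℕ => ∃ A B C : GaussianInt, Adm true A B C ∧
      SidesLe N A B C ∧ ¬ Occurs A B C (Y + n)) ⊆
      tri.biUnion fun t => (range X).filter fun n : ℕ =>
        Adm true (pt t.1) (pt t.2.1) (pt t.2.2) ∧ SidesLe N (pt t.1) (pt t.2.1) (pt t.2.2) ∧
          ¬ Occurs (pt t.1) (pt t.2.1) (pt t.2.2) (Y + n) := by
    intro n hn
    rw [mem_filter] at hn
    obtain ⟨hn1, A, B, C, hA, hs, ho⟩ := hn
    obtain ⟨v, a, b, c, ha, hb, hc, ea, eb, ec⟩ := exists_box hs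
    rw [mem_box] at ha hb hc
    rw [mem_biUnion]
    refine ⟨(a, b, c), ?_, ?_⟩
    · rw [htri, hbx]
      simp only [mem_product, mem_range]
      omega
    · rw [mem_filter]
      refine ⟨hn1, ?_⟩
      change Adm true (pt a) (pt b) (pt c) ∧ SidesLe N (pt a) (pt b) (pt c) ∧
        ¬ Occurs (pt a) (pt b) (pt c) (Y + n)
      rw [ea, eb, ec, adm_add, sidesLe_add, occurs_add v hA.1]
      exact ⟨hA, hs, ho⟩
  have hcard : (tri.card : ℝ) ≤ 64 * (N : ℝ) ^ 6 := by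
    have e : tri.card = (N + 1) ^ 6 := by
      rw [htri, hbx]
      simp only [card_product, card_range]
      ring
    rw [e]
    push_cast
    calc ((N : ℝ) + 1) ^ 6 ≤ (2 * (N : ℝ)) ^ 6 := pow_le_pow_left₀ (by positivity) (by linarith) 6
      _ = 64 * (N : ℝ) ^ 6 := by ring
  have hbd : ∀ t ∈ tri, ((((range X).filter fun n : ℕ =>
        Adm true (pt t.1) (pt t.2.1) (pt t.2.2) ∧ SidesLe N (pt t.1) (pt t.2.1) (pt t.2.2) ∧
          ¬ Occurs (pt t.1) (pt t.2.1) (pt t.2.2) (Y + n)).card : ℕ) : ℝ) ≤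
        C4 * (N : ℝ) ^ A4 * (X : ℝ) ^ (1 - η) := by
    intro t _
    by_cases h : Adm true (pt t.1) (pt t.2.1) (pt t.2.2) ∧ SidesLe N (pt t.1) (pt t.2.1) (pt t.2.2)
    · refine le_trans ?_ (hone N Y X hN hX _ _ _ h.1 h.2)
      have : ((range X).filter fun n : ℕ =>
          Adm true (pt t.1) (pt t.2.1) (pt t.2.2) ∧ SidesLe N (pt t.1) (pt t.2.1) (pt t.2.2) ∧
          ¬ Occurs (pt t.1) (pt t.2.1) (pt t.2.2) (Y + n)) ⊆
          ((range X).filter fun n : ℕ => ¬ Occurs (pt t.1) (pt t.2.1) (pt t.2.2) (Y + n)) := by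
        intro n hn
        rw [mem_filter] at hn ⊢
        exact ⟨hn.1, hn.2.2.2⟩
      exact_mod_cast card_le_card this
    · have : ((range X).filter fun n : ℕ =>
          Adm true (pt t.1) (pt t.2.1) (pt t.2.2) ∧ SidesLe N (pt t.1) (pt t.2.1) (pt t.2.2) ∧
          ¬ Occurs (pt t.1) (pt t.2.1) (pt t.2.2) (Y + n)) = ∅ := by
        rw [filter_eq_empty_iff]
        intro n _ hn
        exact h ⟨hn.1, hn.2.1⟩
      rw [this, card_empty, Nat.cast_zero]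
      positivity
  have h2 : ((((range X).filter fun n : ℕ => ∃ A B C : GaussianInt, Adm true A B C ∧ SidesLe N A B C ∧
        ¬ Occurs A B C (Y + n)).card : ℕ) : ℝ) ≤ tri.card * (C4 * (N : ℝ) ^ A4 * (X : ℝ) ^ (1 - η)) := by
    have k1 := (card_le_card hsub).trans card_biUnion_le
    have k2 : ((((range X).filter fun n : ℕ => ∃ A B C : GaussianInt, Adm true A B C ∧ SidesLe N A B C ∧
        ¬ Occurs A B C (Y + n)).card : ℕ) : ℝ) ≤ ∑ t ∈ tri, ((((range X).filter fun n : ℕ =>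
        Adm true (pt t.1) (pt t.2.1) (pt t.2.2) ∧ SidesLe N (pt t.1) (pt t.2.1) (pt t.2.2) ∧
          ¬ Occurs (pt t.1) (pt t.2.1) (pt t.2.2) (Y + n)).card : ℕ) : ℝ) := by
      exact_mod_cast k1
    refine k2.trans ?_
    refine (sum_le_card_nsmul _ _ _ hbd).trans (le_of_eq ?_)
    rw [nsmul_eq_mul]
  refine h2.trans ?_
  have h3 : (0 : ℝ) ≤ C4 * (N : ℝ) ^ A4 * (X : ℝ) ^ (1 - η) := by positivity
  calc tri.card * (C4 * (N : ℝ) ^ A4 * (X : ℝ) ^ (1 - η))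
      ≤ 64 * (N : ℝ) ^ 6 * (C4 * (N : ℝ) ^ A4 * (X : ℝ) ^ (1 - η)) :=
        mul_le_mul_of_nonneg_right hcard h3
    _ = 64 * C4 * (N : ℝ) ^ (A4 + 6) * (X : ℝ) ^ (1 - η) := by ring
    _ ≤ (64 * C4 + 1) * (N : ℝ) ^ (A4 + 6) * (X : ℝ) ^ (1 - η) := by
        refine mul_le_mul_of_nonneg_right ?_ (by linarith)
        exact mul_le_mul_of_nonneg_right (by linarith) (by positivity)

end Pool.Agent.FleaU
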