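import Pool.Agent.FleaU.Sext3

/-! # The tree of the unit triangle controls all roots -/

set_option autoImplicit false

namespace Pool.Agent.FleaU

open Finset Pool.Agent.FleaC

/-- the three steps up from the state with the squared sides `a`, `b`, `c` and the doubled area
`s`: the state after the move of the side `c`, `a` or `b` which increases the area -/
def step (i : Fin 3) (X : ℕ × ℕ × ℕ × ℕ) : ℕ × ℕ × ℕ × ℕ :=
  let ⟨a, b, c, s⟩ := X
  ![(a + c + 2 * s, b + c + 2 * s, c, s + c), (b + a + 2 * s, c + a + 2 * s, a, s + a),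
    (c + b + 2 * s, a + b + 2 * s, b, s + b)] i

/-- the state after the steps `w`, first step first -/
def go : List (Fin 3) → ℕ × ℕ × ℕ × ℕ → ℕ × ℕ × ℕ × ℕ
  | [], X => X
  | i :: w, X => go w (step i X)

/-- the number of the words whose steps lead from the unit triangle `0, 1, i` (squared sides
`1, 1, 2`, doubled area `1`) to a doubled area at most `T` -/
noncomputable def W (T : ℕ) : ℕ := Nat.card {w : List (Fin 3) // (go w (1, 1, 2, 1)).2.2.2 ≤ T}

/-- `X` is at least `k` times `Y` -/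
def Dom (k : ℕ) (X Y : ℕ × ℕ × ℕ × ℕ) : Prop :=
  k * Y.1 ≤ X.1 ∧ k * Y.2.1 ≤ X.2.1 ∧ k * Y.2.2.1 ≤ X.2.2.1 ∧ k * Y.2.2.2 ≤ X.2.2.2

theorem Dom.step {k : ℕ} {X Y : ℕ × ℕ × ℕ × ℕ} (h : Dom k X Y) (i : Fin 3) :
    Dom k (step i X) (step i Y) := by
  obtain ⟨a, b, c, s⟩ := X
  obtain ⟨a', b', c', s'⟩ := Y
  obtain ⟨h1, h2, h3, h4⟩ := h
  simp only at h1 h2 h3 h4
  fin_cases i <;> simp [Dom, FleaU.step] <;> refine ⟨?_, ?_, ?_, ?_⟩ <;> nlinarith

theorem Dom.go {k : ℕ} (w : List (Fin 3)) : ∀ {X Y : ℕ × ℕ × ℕ × ℕ}, Dom k X Y →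
    Dom k (go w X) (go w Y) := by
  induction w with
  | nil => exact fun h => h
  | cons i w ih => exact fun h => ih (h.step i)

/-- the areas grow -/
theorem len_le (w : List (Fin 3)) : ∀ X : ℕ × ℕ × ℕ × ℕ, 1 ≤ X.1 → 1 ≤ X.2.1 → 1 ≤ X.2.2.1 →
    X.2.2.2 + w.length ≤ (go w X).2.2.2 := by
  induction w with
  | nil => intro X _ _ _; exact le_refl _
  | cons i w ih =>
    rintro ⟨a, b, c, s⟩ h1 h2 h3
    simp only at h1 h2 h3
    change s + (w.length + 1) ≤ (go w (step i (a, b, c, s))).2.2.2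
    fin_cases i
    · have := ih (a + c + 2 * s, b + c + 2 * s, c, s + c) (by simp only; omega) (by simp only; omega)
        (by simp only; omega)
      simp only at this
      change s + (w.length + 1) ≤ (go w (a + c + 2 * s, b + c + 2 * s, c, s + c)).2.2.2
      omega
    · have := ih (b + a + 2 * s, c + a + 2 * s, a, s + a) (by simp only; omega) (by simp only; omega)
        (by simp only; omega)
      simp only at this
      change s + (w.length + 1) ≤ (go w (b + a + 2 * s, c + a + 2 * s, a, s + a)).2.2.2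
      omega
    · have := ih (c + b + 2 * s, a + b + 2 * s, b, s + b) (by simp only; omega) (by simp only; omega)
        (by simp only; omega)
      simp only at this
      change s + (w.length + 1) ≤ (go w (c + b + 2 * s, a + b + 2 * s, b, s + b)).2.2.2
      omega

theorem fin_W (T : ℕ) : {w : List (Fin 3) | (go w (1, 1, 2, 1)).2.2.2 ≤ T}.Finite := by
  refine (List.finite_length_le (Fin 3) T).subset ?_
  intro w hw
  have := len_le w (1, 1, 2, 1) (by simp) (by simp) (by simp)
  have h2 : (go w (1, 1, 2, 1)).2.2.2 ≤ T := hw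
  simp only at this
  change w.length ≤ T
  omega

/-- every area of the tree is the area of a word -/
theorem vals_word (n : ℕ) : ∀ {a b c s D : ℕ}, D ∈ vals n a b c s →
    ∃ w : List (Fin 3), (go w (a, b, c, s)).2.2.2 = D := by
  induction n with
  | zero =>
    intro a b c s D h
    change D ∈ ({s} : Finset ℕ) at h
    rw [Finset.mem_singleton] at h
    exact ⟨[], h.symm⟩
  | succ n ih =>
    intro a b c s D h
    change D ∈ insert s (vals n (a + c + 2 * s) (b + c + 2 * s) c (s + c) ∪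
      (vals n (b + a + 2 * s) (c + a + 2 * s) a (s + a) ∪
        vals n (c + b + 2 * s) (a + b + 2 * s) b (s + b))) at h
    rw [Finset.mem_insert, Finset.mem_union, Finset.mem_union] at h
    rcases h with h | h | h | h
    · exact ⟨[], h.symm⟩
    · obtain ⟨w, hw⟩ := ih h
      exact ⟨0 :: w, hw⟩
    · obtain ⟨w, hw⟩ := ih h
      exact ⟨1 :: w, hw⟩
    · obtain ⟨w, hw⟩ := ih h
      exact ⟨2 :: w, hw⟩

/-- a tree above a state which is at least `k` times the unit triangle -/
theorem card_ref {n a b c s k S : ℕ} (hk : 1 ≤ k) (ha : k ≤ a) (hb : k ≤ b) (hc : 2 * k ≤ c)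
    (hs : k ≤ s) : ((vals n a b c s).filter (· ≤ S)).card ≤ W (S / k) := by
  classical
  have hdom : Dom k (a, b, c, s) (1, 1, 2, 1) := by
    refine ⟨?_, ?_, ?_, ?_⟩ <;> simp only <;> omega
  have hch : ∀ D : ℕ, ∃ w : List (Fin 3), D ∈ (vals n a b c s).filter (· ≤ S) →
      (go w (a, b, c, s)).2.2.2 = D := by
    intro D
    by_cases h : D ∈ (vals n a b c s).filter (· ≤ S)
    · obtain ⟨w, hw⟩ := vals_word n (Finset.mem_filter.1 h).1
      exact ⟨w, fun _ => hw⟩
    · exact ⟨[], fun h' => absurd h' h⟩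
  choose f hf using hch
  unfold W
  change _ ≤ Nat.card ↑{w : List (Fin 3) | (go w (1, 1, 2, 1)).2.2.2 ≤ S / k}
  rw [Nat.card_coe_set_eq, ← Set.ncard_coe_finset]
  refine Set.ncard_le_ncard_of_injOn f ?_ ?_ (fin_W _)
  · intro D hD
    have h1 := hf D hD
    have h2 := (hdom.go (f D)).2.2.2
    rw [h1] at h2
    have h3 : D ≤ S := (Finset.mem_filter.1 hD).2
    change (go (f D) (1, 1, 2, 1)).2.2.2 ≤ S / k
    rw [Nat.le_div_iff_mul_le (by omega)]
    calc _ = k * (go (f D) (1, 1, 2, 1)).2.2.2 := mul_comm _ _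
      _ ≤ S := h2.trans h3
  · intro D hD D' hD' h
    rw [← hf D hD, ← hf D' hD', h]

/-- at most `4 W (S / s)` areas up to `S` occur for a root of the doubled area `s` -/
theorem card_occ_ref {A B C : GaussianInt} (hd : Distinct A B C) {a b c s : ℕ} (hr : Root a b c s)
    (hst : st A B C = ({a, b, c}, s)) {S : ℕ}
    {F : Finset ℕ} (hF : ∀ D ∈ F, D ≤ S ∧ Occurs A B C D) : F.card ≤ 4 * W (S / s) := by
  classical
  have hsub : F ⊆ (vals S a b c s).filter (· ≤ S) ∪
      ((vals S (a + c - 2 * s) (b + c - 2 * s) c (c - s)).filter (· ≤ S) ∪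
      ((vals S (b + a - 2 * s) (c + a - 2 * s) a (a - s)).filter (· ≤ S) ∪
        (vals S (c + b - 2 * s) (a + b - 2 * s) b (b - s)).filter (· ≤ S))) := by
    intro D hD
    obtain ⟨h1, h2⟩ := hF D hD
    have h3 := occ_mem hd hr hst h1 h2
    simp only [Finset.mem_union, Finset.mem_filter] at h3 ⊢
    rcases h3 with h | h | h | h
    · exact Or.inl ⟨h, h1⟩
    · exact Or.inr (Or.inl ⟨h, h1⟩)
    · exact Or.inr (Or.inr (Or.inl ⟨h, h1⟩))
    · exact Or.inr (Or.inr (Or.inr ⟨h, h1⟩))
  have ps := hr.ps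
  have q1 := hr.ha
  have q2 := hr.hb
  have q3 := hr.hc
  have c0 := card_ref (n := S) (a := a) (b := b) (c := c) (s := s) (k := s) (S := S) ps (by omega)
    (by omega) (by omega) le_rfl
  have c1 := card_ref (n := S) (a := a + c - 2 * s) (b := b + c - 2 * s) (c := c) (s := c - s)
    (k := s) (S := S) ps (by omega) (by omega) (by omega) (by omega)
  have c2 := card_ref (n := S) (a := b + a - 2 * s) (b := c + a - 2 * s) (c := a) (s := a - s)
    (k := s) (S := S) ps (by omega) (by omega) (by omega) (by omega)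
  have c3 := card_ref (n := S) (a := c + b - 2 * s) (b := a + b - 2 * s) (c := b) (s := b - s)
    (k := s) (S := S) ps (by omega) (by omega) (by omega) (by omega)
  have h0 := (Finset.card_le_card hsub).trans ((Finset.card_union_le _ _).trans
    (Nat.add_le_add_left ((Finset.card_union_le _ _).trans
      (Nat.add_le_add_left (Finset.card_union_le _ _) _)) _))
  omega

/-- the family of triangles of doubled area `8 k ^ 2` -/
theorem q_card_ref {k S : ℕ} (hk : 2 ≤ k) {F : Finset ℕ}
    (hF : ∀ D ∈ F, D ≤ S ∧ Occurs qA (qB k) (qC k) D) : F.card ≤ 4 * W (S / (8 * k ^ 2)) := by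
  have hst : st qA (qB k) (qC k) = ({68 * k ^ 2 + 16 * k + 1, 20 * k ^ 2 + 8 * k + 1, 16 * k ^ 2},
      8 * k ^ 2) := by
    unfold st
    rw [q_ab, q_bc, q_ca, q_area]
  exact card_occ_ref (q_distinct hk) (q_root hk) hst hF

theorem q_missed_ref {k j : ℕ} (hk : 2 ≤ k) (hjW : 4 * W (4 * j / (8 * k ^ 2)) < j) :
    ∃ D : ℕ, D % 2 = 1 ∧ 2 * j + 1 ≤ D ∧ D ≤ 4 * j ∧ ¬ Occurs qA (qB k) (qC k) D := by
  by_contra hcon
  push Not at hcon
  have h := q_card_ref hk (S := 4 * j)
    (F := (Finset.range j).image fun i => 2 * j + 1 + 2 * i) (by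
      intro D hD
      obtain ⟨i, hi, rfl⟩ := Finset.mem_image.1 hD
      rw [Finset.mem_range] at hi
      exact ⟨by omega, hcon _ (by omega) (by omega) (by omega)⟩)
  rw [Finset.card_image_of_injective _ (fun x y hxy => by simpa using hxy), Finset.card_range] at h
  omega

end Pool.Agent.FleaU
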