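import Pool.Agent.FleaU.Ref

/-! # The growth of the missed areas in terms of the orbit of the unit triangle -/

set_option autoImplicit false

namespace Pool.Agent.FleaU

open Finset Pool.Agent.FleaC

theorem W_zero : W 0 = 0 := by
  unfold W
  rw [Nat.card_eq_zero]
  left
  constructor
  rintro ⟨w, hw⟩
  have := len_le w (1, 1, 2, 1) (by simp) (by simp) (by simp)
  simp only at this
  omega

theorem one_le_W : 1 ≤ W 1 := by
  unfold W
  have hf : Finite {w : List (Fin 3) // (go w (1, 1, 2, 1)).2.2.2 ≤ 1} := (fin_W 1).to_subtype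
  have hn : Nonempty {w : List (Fin 3) // (go w (1, 1, 2, 1)).2.2.2 ≤ 1} := ⟨⟨[], le_refl _⟩⟩
  exact Nat.card_pos

theorem ref_growth {t C : ℝ} (ht : 1 < t)
    (hW : ∀ T : ℕ, 1 ≤ T → (W T : ℝ) ≤ C * (T : ℝ) ^ t) :
    ∃ e : ℝ, 0 < e ∧ ∀ N : ℕ, 72 ≤ N → ∃ A B C' : GaussianInt, Adm false A B C' ∧
      SidesLe N A B C' ∧ ∃ D : ℕ, Missed A B C' D ∧ D % 2 = 1 ∧
        e * (N : ℝ) ^ (2 * t / (t - 1)) ≤ D := by
  have hC : 1 ≤ C := by
    have h1 := hW 1 le_rfl
    rw [Nat.cast_one, Real.one_rpow, mul_one] at h1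
    have h2 : (1 : ℝ) ≤ W 1 := by exact_mod_cast one_le_W
    linarith
  have hC0 : 0 < C := by linarith
  have ht1 : 0 < t - 1 := by linarith
  have h50 : (0 : ℝ) < 50 ^ t := Real.rpow_pos_of_pos (by norm_num) _
  have he : 0 < (1 / (4 * C * 50 ^ t)) ^ (1 / (t - 1)) := Real.rpow_pos_of_pos (by positivity) _
  refine ⟨(1 / (4 * C * 50 ^ t)) ^ (1 / (t - 1)) / 2, by positivity, ?_⟩
  intro N hN
  obtain ⟨k, hk8, hk9, hk10⟩ : ∃ k : ℕ, 8 ≤ k ∧ 9 * k ≤ N ∧ N ≤ 10 * k :=
    ⟨N / 9, by omega, by omega, by omega⟩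
  have pk : (0 : ℝ) < k := by exact_mod_cast (by omega : 0 < k)
  have pN : (0 : ℝ) < N := by exact_mod_cast (by omega : 0 < N)
  have hNk : (N : ℝ) ≤ 10 * k := by exact_mod_cast hk10
  have hx : (0 : ℝ) < 2 * (k : ℝ) ^ 2 := by positivity
  have hxt : 0 < (2 * (k : ℝ) ^ 2) ^ t := Real.rpow_pos_of_pos hx _
  obtain ⟨y, hy⟩ : ∃ y : ℝ, y = ((2 * (k : ℝ) ^ 2) ^ t / (4 * C)) ^ (1 / (t - 1)) := ⟨_, rfl⟩
  have hy0 : 0 < y := by rw [hy]; exact Real.rpow_pos_of_pos (by positivity) _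
  have hyp : y ^ (t - 1) = (2 * (k : ℝ) ^ 2) ^ t / (4 * C) := by
    rw [hy, ← Real.rpow_mul (by positivity), one_div_mul_cancel ht1.ne', Real.rpow_one]
  -- the lower bound for `y`
  have hey : (1 / (4 * C * 50 ^ t)) ^ (1 / (t - 1)) * (N : ℝ) ^ (2 * t / (t - 1)) ≤ y := by
    have e1 : (N : ℝ) ^ (2 * t / (t - 1)) = (((N : ℝ) ^ 2) ^ t) ^ (1 / (t - 1)) := by
      rw [← Real.rpow_natCast, ← Real.rpow_mul pN.le, ← Real.rpow_mul pN.le]
      congr 1
      push_cast
      ring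
    rw [e1, ← Real.mul_rpow (by positivity) (by positivity), hy]
    apply Real.rpow_le_rpow (by positivity) _ (by positivity)
    have e2 : 1 / (4 * C * 50 ^ t) * ((N : ℝ) ^ 2) ^ t = (((N : ℝ) ^ 2) / 50) ^ t / (4 * C) := by
      rw [Real.div_rpow (by positivity) (by norm_num)]
      field_simp
    rw [e2]
    apply div_le_div_of_nonneg_right _ (by positivity)
    apply Real.rpow_le_rpow (by positivity) _ (by linarith)
    nlinarith
  by_cases hy2 : y < 2
  · obtain ⟨A, B, C', h1, h2, D, h3, h4, h5⟩ := sextic N hN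
    refine ⟨A, B, C', h1, h2, D, h3, h4, ?_⟩
    have hD : (1 : ℝ) ≤ D := by
      exact_mod_cast (by omega : 1 ≤ D)
    linarith
  · push Not at hy2
    obtain ⟨j, hj⟩ : ∃ j : ℕ, j = ⌊y / 2⌋₊ := ⟨_, rfl⟩
    have hj1 : 1 ≤ j := by
      rw [hj]
      exact Nat.le_floor (by push_cast; linarith)
    have hjy : (j : ℝ) ≤ y / 2 := by
      rw [hj]
      exact Nat.floor_le (by linarith)
    have hjy2 : y / 2 < j + 1 := by
      rw [hj]
      exact Nat.lt_floor_add_one _
    have pj : (0 : ℝ) < j := by exact_mod_cast (by omega : 0 < j)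
    have hjW : 4 * W (4 * j / (8 * k ^ 2)) < j := by
      rcases Nat.eq_zero_or_pos (4 * j / (8 * k ^ 2)) with h0 | h0
      · rw [h0, W_zero]
        omega
      · have h1 := hW _ h0
        have h2 : (((4 * j / (8 * k ^ 2) : ℕ)) : ℝ) ≤ (j : ℝ) / (2 * (k : ℝ) ^ 2) := by
          have := @Nat.cast_div_le ℝ _ _ _ (4 * j) (8 * k ^ 2)
          refine this.trans (le_of_eq ?_)
          push_cast
          field_simp
          ring
        have h3 : (((4 * j / (8 * k ^ 2) : ℕ)) : ℝ) ^ t ≤ ((j : ℝ) / (2 * (k : ℝ) ^ 2)) ^ t :=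
          Real.rpow_le_rpow (by positivity) h2 (by linarith)
        have h4 : ((j : ℝ) / (2 * (k : ℝ) ^ 2)) ^ t = (j : ℝ) ^ t / (2 * (k : ℝ) ^ 2) ^ t :=
          Real.div_rpow (by positivity) (by positivity) _
        have h5 : (j : ℝ) ^ t = (j : ℝ) ^ (t - 1) * j := by
          conv_rhs => rw [← Real.rpow_add_one pj.ne']
          congr 1
          ring
        have h6 : (j : ℝ) ^ (t - 1) < (2 * (k : ℝ) ^ 2) ^ t / (4 * C) := by
          rw [← hyp]
          exact Real.rpow_lt_rpow pj.le (by linarith) ht1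
        rw [lt_div_iff₀ (by positivity)] at h6
        have h7 : 4 * C * ((j : ℝ) ^ t / (2 * (k : ℝ) ^ 2) ^ t) < j := by
          rw [h5, ← mul_div_assoc, div_lt_iff₀ hxt]
          calc 4 * C * ((j : ℝ) ^ (t - 1) * j) = (j : ℝ) ^ (t - 1) * (4 * C) * j := by ring
            _ < (2 * (k : ℝ) ^ 2) ^ t * j := mul_lt_mul_of_pos_right h6 pj
            _ = j * (2 * (k : ℝ) ^ 2) ^ t := mul_comm _ _
        rw [h4] at h3
        have h8 := mul_le_mul_of_nonneg_left h3 hC0.le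
        have h9 : (4 : ℝ) * (W (4 * j / (8 * k ^ 2)) : ℝ) < j := by
          calc (4 : ℝ) * (W (4 * j / (8 * k ^ 2)) : ℝ) ≤
                4 * (C * ((j : ℝ) ^ t / (2 * (k : ℝ) ^ 2) ^ t)) :=
                mul_le_mul_of_nonneg_left (h1.trans h8) (by norm_num)
            _ = 4 * C * ((j : ℝ) ^ t / (2 * (k : ℝ) ^ 2) ^ t) := by ring
            _ < j := h7
        exact_mod_cast h9
    obtain ⟨D, hD1, hD2, hD3, hD4⟩ := q_missed_ref (by omega) hjW
    refine ⟨qA, qB k, qC k, adm_q (by omega) false, sides_q (by omega) hk9, D,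
      ⟨hD4, fun n hn => by omega⟩, hD1, ?_⟩
    have hD5 : 2 * (j : ℝ) + 1 ≤ D := by exact_mod_cast hD2
    linarith

/-- the words of length at most `n` from `X` with area at most `S` -/
def nw : ℕ → ℕ × ℕ × ℕ × ℕ → ℕ → ℕ
  | 0, X, S => if X.2.2.2 ≤ S then 1 else 0
  | n + 1, X, S => (if X.2.2.2 ≤ S then 1 else 0) +
      (nw n (step 0 X) S + (nw n (step 1 X) S + nw n (step 2 X) S))

theorem fin_len (n S : ℕ) (X : ℕ × ℕ × ℕ × ℕ) :
    {w : List (Fin 3) | w.length ≤ n ∧ (go w X).2.2.2 ≤ S}.Finite :=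
  (List.finite_length_le (Fin 3) n).subset fun _ hw => hw.1

theorem ncard_nw (S n : ℕ) : ∀ X : ℕ × ℕ × ℕ × ℕ,
    {w : List (Fin 3) | w.length ≤ n ∧ (go w X).2.2.2 ≤ S}.ncard ≤ nw n X S := by
  induction n with
  | zero =>
    intro X
    unfold nw
    by_cases h : X.2.2.2 ≤ S
    · rw [if_pos h, ← Set.ncard_singleton ([] : List (Fin 3))]
      refine Set.ncard_le_ncard ?_ (Set.finite_singleton _)
      rintro w ⟨hw, -⟩
      exact List.length_eq_zero_iff.1 (by omega)
    · rw [if_neg h]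
      have : {w : List (Fin 3) | w.length ≤ 0 ∧ (go w X).2.2.2 ≤ S} = ∅ := by
        ext w
        simp only [Set.mem_ofPred_eq, Set.mem_empty_iff_false, iff_false]
        rintro ⟨hw, h2⟩
        have h3 : w = [] := List.length_eq_zero_iff.1 (by omega)
        rw [h3] at h2
        exact h h2
      rw [this, Set.ncard_empty]
  | succ n ih =>
    intro X
    set A : Fin 3 → Set (List (Fin 3)) :=
      fun i => {w : List (Fin 3) | w.length ≤ n ∧ (go w (step i X)).2.2.2 ≤ S} with hA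
    set B : Set (List (Fin 3)) := {w | w = [] ∧ X.2.2.2 ≤ S} with hB
    have hsub : {w : List (Fin 3) | w.length ≤ n + 1 ∧ (go w X).2.2.2 ≤ S} ⊆
        B ∪ ((fun w => 0 :: w) '' A 0 ∪ ((fun w => 1 :: w) '' A 1 ∪ (fun w => 2 :: w) '' A 2)) := by
      rintro w ⟨hw, h2⟩
      cases w with
      | nil => exact Or.inl ⟨rfl, h2⟩
      | cons i w =>
        have hl : w.length ≤ n := by
          have : w.length + 1 ≤ n + 1 := hw
          omega
        have h3 : (go w (step i X)).2.2.2 ≤ S := h2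
        have hi : i = 0 ∨ i = 1 ∨ i = 2 := by
          fin_cases i
          · exact Or.inl rfl
          · exact Or.inr (Or.inl rfl)
          · exact Or.inr (Or.inr rfl)
        rcases hi with rfl | rfl | rfl
        · exact Or.inr (Or.inl ⟨w, ⟨hl, h3⟩, rfl⟩)
        · exact Or.inr (Or.inr (Or.inl ⟨w, ⟨hl, h3⟩, rfl⟩))
        · exact Or.inr (Or.inr (Or.inr ⟨w, ⟨hl, h3⟩, rfl⟩))
    have hBf : B.Finite := (Set.finite_singleton ([] : List (Fin 3))).subset fun w hw => hw.1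
    have hAf : ∀ i, (A i).Finite := fun i => fin_len n S (step i X)
    have hBc : B.ncard ≤ if X.2.2.2 ≤ S then 1 else 0 := by
      by_cases h : X.2.2.2 ≤ S
      · rw [if_pos h, ← Set.ncard_singleton ([] : List (Fin 3))]
        exact Set.ncard_le_ncard (fun w hw => hw.1) (Set.finite_singleton _)
      · rw [if_neg h]
        have : B = ∅ := by
          ext w
          simp only [hB, Set.mem_ofPred_eq, Set.mem_empty_iff_false, iff_false]
          rintro ⟨-, h2⟩
          exact h h2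
        rw [this, Set.ncard_empty]
    have h0 := Set.ncard_le_ncard hsub (hBf.union (((hAf 0).image _).union
      (((hAf 1).image _).union ((hAf 2).image _))))
    have u1 := Set.ncard_union_le B
      ((fun w => 0 :: w) '' A 0 ∪ ((fun w => 1 :: w) '' A 1 ∪ (fun w => 2 :: w) '' A 2))
    have u2 := Set.ncard_union_le ((fun w => (0 : Fin 3) :: w) '' A 0)
      ((fun w => 1 :: w) '' A 1 ∪ (fun w => 2 :: w) '' A 2)
    have u3 := Set.ncard_union_le ((fun w => (1 : Fin 3) :: w) '' A 1) ((fun w => 2 :: w) '' A 2)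
    have i0 := Set.ncard_image_le (f := fun w => (0 : Fin 3) :: w) (hAf 0)
    have i1 := Set.ncard_image_le (f := fun w => (1 : Fin 3) :: w) (hAf 1)
    have i2 := Set.ncard_image_le (f := fun w => (2 : Fin 3) :: w) (hAf 2)
    have j0 := ih (step 0 X)
    have j1 := ih (step 1 X)
    have j2 := ih (step 2 X)
    change (A 0).ncard ≤ _ at j0
    change (A 1).ncard ≤ _ at j1
    change (A 2).ncard ≤ _ at j2
    change _ ≤ (if X.2.2.2 ≤ S then 1 else 0) +
      (nw n (step 0 X) S + (nw n (step 1 X) S + nw n (step 2 X) S))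
    omega

theorem ite_one {s S : ℕ} (hs : 1 ≤ s) :
    (((if s ≤ S then 1 else 0 : ℕ)) : ℝ) ≤ (S : ℝ) * √S * (1 / ((s : ℝ) * √s)) := by
  refine le_trans (le_of_eq ?_) (card_one (S := S) hs)
  by_cases h : s ≤ S
  · rw [if_pos h, Finset.filter_singleton, if_pos h, Finset.card_singleton]
  · rw [if_neg h, Finset.filter_singleton, if_neg h, Finset.card_empty]

theorem nw_le {n a b c s S : ℕ} (hv : Val a b c s) (hs : 1 ≤ s) (hc : c ≤ s) :
    ((nw n (a, b, c, s) S : ℕ) : ℝ) ≤ (S : ℝ) * √S * pt3 a b c s := by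
  induction n generalizing a b c s with
  | zero =>
    have g := gain3 hv hs hc
    have k1 := pt3_nonneg (a := a + c + 2 * s) (b := b + c + 2 * s) (c := c) (s := s + c) (by omega)
    have k2 := pt3_nonneg (a := b + a + 2 * s) (b := c + a + 2 * s) (c := a) (s := s + a) (by omega)
    have k3 := pt3_nonneg (a := c + b + 2 * s) (b := a + b + 2 * s) (c := b) (s := s + b) (by omega)
    change (((if s ≤ S then 1 else 0 : ℕ)) : ℝ) ≤ _
    refine (ite_one hs).trans (mul_le_mul_of_nonneg_left (by linarith) (by positivity))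
  | succ n ih =>
    have g := gain3 hv hs hc
    have i1 := ih hv.plus (by omega) (by omega)
    have i2 := ih hv.rot.plus (by omega) (by omega)
    have i3 := ih hv.rot.rot.plus (by omega) (by omega)
    have hS : (0 : ℝ) ≤ (S : ℝ) * √S := by positivity
    have h0 := ite_one (S := S) hs
    have g' := mul_le_mul_of_nonneg_left g hS
    rw [mul_add, mul_add, mul_add] at g'
    change ((((if s ≤ S then 1 else 0) +
      (nw n (a + c + 2 * s, b + c + 2 * s, c, s + c) S +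
      (nw n (b + a + 2 * s, c + a + 2 * s, a, s + a) S +
        nw n (c + b + 2 * s, a + b + 2 * s, b, s + b) S)) : ℕ)) : ℝ) ≤ _
    rw [Nat.cast_add, Nat.cast_add, Nat.cast_add]
    linarith

/-- the exponent `3 / 2` for the orbit of the unit triangle -/
theorem W_le : ∃ C : ℝ, ∀ T : ℕ, (W T : ℝ) ≤ C * (T : ℝ) ^ (3 / 2 : ℝ) := by
  have hv : Val 1 1 2 1 := ⟨le_rfl, le_rfl, by norm_num, by norm_num⟩
  refine ⟨1 + (pt3 5 5 2 3 + (pt3 4 5 1 2 + pt3 5 4 1 2)), fun T => ?_⟩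
  have h1 : W T ≤ nw (T + 1) (1, 1, 2, 1) T := by
    refine le_trans ?_ (ncard_nw T (T + 1) (1, 1, 2, 1))
    unfold W
    change Nat.card ↑{w : List (Fin 3) | (go w (1, 1, 2, 1)).2.2.2 ≤ T} ≤ _
    rw [Nat.card_coe_set_eq]
    refine Set.ncard_le_ncard ?_ (fin_len _ _ _)
    intro w hw
    have h2 := len_le w (1, 1, 2, 1) (by simp) (by simp) (by simp)
    have h3 : (go w (1, 1, 2, 1)).2.2.2 ≤ T := hw
    simp only at h2
    exact ⟨by omega, h3⟩
  have h2 : nw (T + 1) (1, 1, 2, 1) T = (if 1 ≤ T then 1 else 0) +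
      (nw T (5, 5, 2, 3) T + (nw T (4, 5, 1, 2) T + nw T (5, 4, 1, 2) T)) := rfl
  have i0 := ite_one (S := T) (s := 1) le_rfl
  have i1 := nw_le (n := T) (S := T) (a := 5) (b := 5) (c := 2) (s := 3)
    ⟨by norm_num, by norm_num, by norm_num, by norm_num⟩ (by norm_num) (by norm_num)
  have i2 := nw_le (n := T) (S := T) (a := 4) (b := 5) (c := 1) (s := 2)
    ⟨by norm_num, by norm_num, by norm_num, by norm_num⟩ (by norm_num) (by norm_num)
  have i3 := nw_le (n := T) (S := T) (a := 5) (b := 4) (c := 1) (s := 2)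
    ⟨by norm_num, by norm_num, by norm_num, by norm_num⟩ (by norm_num) (by norm_num)
  have e : (T : ℝ) ^ (3 / 2 : ℝ) = (T : ℝ) * √T := by
    rcases Nat.eq_zero_or_pos T with h | h
    · rw [h]
      norm_num
    · have hT : (0 : ℝ) < T := by exact_mod_cast h
      rw [Real.sqrt_eq_rpow]
      conv_rhs => rw [← Real.rpow_one_add' hT.le (by norm_num)]
      norm_num
  rw [e]
  have h3 : (W T : ℝ) ≤ ((nw (T + 1) (1, 1, 2, 1) T : ℕ) : ℝ) := by exact_mod_cast h1
  rw [h2, Nat.cast_add, Nat.cast_add, Nat.cast_add] at h3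
  have e2 : (1 : ℝ) / (((1 : ℕ) : ℝ) * √((1 : ℕ) : ℝ)) = 1 := by
    rw [Nat.cast_one, Real.sqrt_one]
    norm_num
  rw [e2] at i0
  have e3 : (1 + (pt3 5 5 2 3 + (pt3 4 5 1 2 + pt3 5 4 1 2))) * ((T : ℝ) * √T) =
      (T : ℝ) * √T * 1 + ((T : ℝ) * √T * pt3 5 5 2 3 + ((T : ℝ) * √T * pt3 4 5 1 2 +
        (T : ℝ) * √T * pt3 5 4 1 2)) := by ring
  rw [e3]
  linarith

end Pool.Agent.FleaU
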