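import Pool.Agent.FleaU.Ref2

/-! # The exponent 7/5 for the orbit of the unit triangle: inequalities -/

set_option autoImplicit false

namespace Pool.Agent.FleaU

-- BEGIN row sevA
/-- Tangent (Bernoulli) of `x ^ (-2/5)` at `s + c`: `s ^ (-2/5) ≥ (s+c) ^ (-2/5) +
(2/5) c (s+c) ^ (-7/5)`, multiplied by `(5/2) / c`. -/
theorem sev_A {s c : ℝ} (hs : 0 < s) (hc : 0 < c) :
    (s + c) ^ (-(7 / 5) : ℝ) + 5 / 2 * (s + c) ^ (-(2 / 5) : ℝ) / c ≤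
      5 / 2 * s ^ (-(2 / 5) : ℝ) / c := by
  obtain ⟨w, hw⟩ : ∃ w : ℝ, w = s + c := ⟨_, rfl⟩
  rw [← hw]
  have hw0 : 0 < w := by linarith
  obtain ⟨t, ht⟩ : ∃ t : ℝ, t = c / w := ⟨_, rfl⟩
  have ht0 : 0 < t := by rw [ht]; exact div_pos hc hw0
  have ht1 : t < 1 := by
    rw [ht, div_lt_one hw0]
    linarith
  have hst : s = w * (1 - t) := by
    rw [ht, mul_sub, mul_one, mul_div_cancel₀ _ hw0.ne']
    linarith
  have h1 : (1 - t) ^ (2 / 5 : ℝ) ≤ 1 - 2 / 5 * t := by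
    have := rpow_one_add_le_one_add_mul_self (s := -t) (by linarith) (p := 2 / 5)
      (by norm_num) (by norm_num)
    rw [← sub_eq_add_neg] at this
    linarith
  have h2 : 0 < (1 - t) ^ (2 / 5 : ℝ) := Real.rpow_pos_of_pos (by linarith) _
  have h3 : 1 + 2 / 5 * t ≤ (1 - t) ^ (-(2 / 5) : ℝ) := by
    rw [Real.rpow_neg (by linarith), ← one_div, le_div_iff₀ h2]
    nlinarith
  have hA : 0 < w ^ (-(2 / 5) : ℝ) := Real.rpow_pos_of_pos hw0 _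
  have h4 : s ^ (-(2 / 5) : ℝ) = w ^ (-(2 / 5) : ℝ) * (1 - t) ^ (-(2 / 5) : ℝ) := by
    rw [hst, Real.mul_rpow hw0.le (by linarith)]
  have h5 : w ^ (-(7 / 5) : ℝ) = w ^ (-(2 / 5) : ℝ) / w := by
    rw [show (-(7 / 5) : ℝ) = -(2 / 5) - 1 by norm_num, Real.rpow_sub_one hw0.ne']
  have h6 := mul_le_mul_of_nonneg_left h3 hA.le
  rw [h4, h5]
  have h7 : w ^ (-(2 / 5) : ℝ) / w + 5 / 2 * w ^ (-(2 / 5) : ℝ) / c =
      5 / 2 * (w ^ (-(2 / 5) : ℝ) * (1 + 2 / 5 * t)) / c := by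
    rw [ht]
    field_simp
    ring
  rw [h7]
  gcongr
-- END row sevA

-- BEGIN row sevB
/-- Midpoint inequality of the convex function `x ^ (-14/5)`. With `Q = P + c/2`, `v = c/(2Q) < 1`
it is `(18/5) v ≤ (1-v) ^ (-9/5) - (1+v) ^ (-9/5)`: the difference vanishes at `v = 0` and has the
derivative `(9/5) ((1-v) ^ (-14/5) + (1+v) ^ (-14/5) - 2) ≥ 0` (AM-GM, `1 - v ^ 2 ≤ 1`). -/
theorem sev_B {P c : ℝ} (hP : 0 < P) (hc : 0 < c) :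
    9 / 5 * c * (P + c / 2) ^ (-(14 / 5) : ℝ) ≤ P ^ (-(9 / 5) : ℝ) - (P + c) ^ (-(9 / 5) : ℝ) := by
  obtain ⟨Q, hQe⟩ : ∃ Q, Q = P + c / 2 := ⟨_, rfl⟩
  have hQ : c / 2 < Q := by linarith
  have hQ0 : 0 < Q := by linarith
  have hder : ∀ t ∈ Set.Icc (0 : ℝ) (c / 2), HasDerivAt
      (fun t : ℝ => (Q - t) ^ (-(9 / 5) : ℝ) - (Q + t) ^ (-(9 / 5) : ℝ) -
        18 / 5 * t * Q ^ (-(14 / 5) : ℝ))
      (9 / 5 * ((Q - t) ^ (-(14 / 5) : ℝ) + (Q + t) ^ (-(14 / 5) : ℝ) - 2 * Q ^ (-(14 / 5) : ℝ)))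
      t := by
    rintro t ⟨ht0, ht1⟩
    have h1 : HasDerivAt (fun t : ℝ => (Q - t) ^ (-(9 / 5) : ℝ))
        (-1 * (-(9 / 5)) * (Q - t) ^ (-(9 / 5) - 1 : ℝ)) t :=
      ((hasDerivAt_id t).const_sub Q).rpow_const (Or.inl (by simp only [id]; linarith))
    have h2 : HasDerivAt (fun t : ℝ => (Q + t) ^ (-(9 / 5) : ℝ))
        (1 * (-(9 / 5)) * (Q + t) ^ (-(9 / 5) - 1 : ℝ)) t :=
      ((hasDerivAt_id t).const_add Q).rpow_const (Or.inl (by simp only [id]; linarith))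
    have h3 : HasDerivAt (fun t : ℝ => 18 / 5 * t * Q ^ (-(14 / 5) : ℝ))
        (18 / 5 * 1 * Q ^ (-(14 / 5) : ℝ)) t :=
      ((hasDerivAt_id t).const_mul (18 / 5)).mul_const _
    have h4 := (h1.sub h2).sub h3
    have h5 : (-(9 / 5) - 1 : ℝ) = -(14 / 5) := by norm_num
    rw [h5] at h4
    refine h4.congr_deriv ?_
    ring
  have hmono : MonotoneOn (fun t : ℝ => (Q - t) ^ (-(9 / 5) : ℝ) - (Q + t) ^ (-(9 / 5) : ℝ) -
        18 / 5 * t * Q ^ (-(14 / 5) : ℝ)) (Set.Icc 0 (c / 2)) := by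
    refine monotoneOn_of_deriv_nonneg (convex_Icc 0 (c / 2))
      (fun t ht => (hder t ht).continuousAt.continuousWithinAt)
      (fun t ht => (hder t (interior_subset ht)).differentiableAt.differentiableWithinAt) ?_
    intro t ht
    have ht' := interior_subset ht
    rw [(hder t ht').deriv]
    obtain ⟨ht0, ht1⟩ := ht'
    have ha : 0 < Q - t := by linarith
    have hb : 0 < Q + t := by linarith
    have e1 : (Q - t) ^ (-(14 / 5) : ℝ) = ((Q - t) ^ (-(7 / 5) : ℝ)) ^ 2 := by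
      rw [← Real.rpow_natCast, ← Real.rpow_mul ha.le]
      norm_num
    have e2 : (Q + t) ^ (-(14 / 5) : ℝ) = ((Q + t) ^ (-(7 / 5) : ℝ)) ^ 2 := by
      rw [← Real.rpow_natCast, ← Real.rpow_mul hb.le]
      norm_num
    have e3 : Q ^ (-(14 / 5) : ℝ) = (Q * Q) ^ (-(7 / 5) : ℝ) := by
      rw [Real.mul_rpow hQ0.le hQ0.le, ← Real.rpow_add hQ0]
      norm_num
    have e4 : (Q * Q) ^ (-(7 / 5) : ℝ) ≤ (Q - t) ^ (-(7 / 5) : ℝ) * (Q + t) ^ (-(7 / 5) : ℝ) := by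
      rw [← Real.mul_rpow ha.le hb.le]
      exact Real.rpow_le_rpow_of_nonpos (mul_pos ha hb) (by nlinarith) (by norm_num)
    rw [e1, e2, e3]
    nlinarith [sq_nonneg ((Q - t) ^ (-(7 / 5) : ℝ) - (Q + t) ^ (-(7 / 5) : ℝ))]
  have h := hmono (Set.left_mem_Icc.2 (by linarith)) (Set.right_mem_Icc.2 (by linarith))
    (show (0 : ℝ) ≤ c / 2 by linarith)
  simp only [sub_zero, add_zero, sub_self, mul_zero, zero_mul] at h
  have g1 : Q - c / 2 = P := by rw [hQe]; ring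
  have g2 : Q + c / 2 = P + c := by rw [hQe]; ring
  rw [g1, g2] at h
  rw [← hQe]
  linarith
-- END row sevB

-- BEGIN row sevC
private theorem sevC_pw {x : ℝ} (hx : 0 < x) :
    ((x ^ 2)⁻¹) ^ (7 / 10 : ℝ) = x ^ (-(7 / 5) : ℝ) := by
  have h1 : (x ^ 2)⁻¹ = x ^ (-2 : ℝ) := by
    rw [Real.rpow_neg hx.le, Real.rpow_two]
  rw [h1, ← Real.rpow_mul hx.le]
  norm_num

private theorem sevC_poly {M H D : ℝ} (hM : 0 < M) (hH : 0 ≤ H) (hD : 9 * D ≤ 4 * (M * H)) :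
    M ^ 2 * ((M + H) ^ 2 + D) ≤ ((M + H) ^ 2 - D) ^ 2 := by
  have hMH : 0 ≤ M * H := by positivity
  have h1 : M ^ 2 * ((M + H) ^ 2 + D) ≤ M ^ 2 * ((M + H) ^ 2 + 4 / 9 * (M * H)) :=
    mul_le_mul_of_nonneg_left (by linarith) (by positivity)
  have h2 : 0 ≤ (M + H) ^ 2 - 4 / 9 * (M * H) := by nlinarith [sq_nonneg M, sq_nonneg H]
  have h3 : ((M + H) ^ 2 - 4 / 9 * (M * H)) ^ 2 ≤ ((M + H) ^ 2 - D) ^ 2 :=
    pow_le_pow_left₀ h2 (by linarith) 2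
  have h4 : M ^ 2 * ((M + H) ^ 2 + 4 / 9 * (M * H)) ≤ ((M + H) ^ 2 - 4 / 9 * (M * H)) ^ 2 := by
    have e : ((M + H) ^ 2 - 4 / 9 * (M * H)) ^ 2 - M ^ 2 * ((M + H) ^ 2 + 4 / 9 * (M * H)) =
        2 / 3 * (M ^ 3 * H) + 277 / 81 * (M ^ 2 * H ^ 2) + 28 / 9 * (M * H ^ 3) + H ^ 4 := by ring
    have : 0 ≤ 2 / 3 * (M ^ 3 * H) + 277 / 81 * (M ^ 2 * H ^ 2) + 28 / 9 * (M * H ^ 3) + H ^ 4 := by
      positivity
    linarith
  linarith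

/-- With `M = (P + c/2) ^ 2`, `y = c/2 + h`, `z = c/2 - h`: `c (P+u) = M + h^2 + c h = X`,
`c (P+v) = M + h^2 - c h = Y`, both positive. `X ^ (-7/5) = (X ^ (-2)) ^ (7/10)`, and by concavity of
`x ^ (7/10)` (`Real.concaveOn_rpow`) `X ^ (-7/5) + Y ^ (-7/5) ≤ 2 ((X ^ (-2) + Y ^ (-2)) / 2) ^ (7/10)`.
With `B = M + h^2`, `δ = c h`: `(X ^ (-2) + Y ^ (-2)) / 2 = (B^2 + δ^2) / (B^2 - δ^2)^2 ≤ 1 / M^2`,
because `δ^2 ≤ (4/9) M h^2` (as `M ≥ 9 c^2 / 4`) and, with `H = h^2`,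
`M^2 ((M+H)^2 + (4/9) M H) ≤ ((M+H)^2 - (4/9) M H)^2`. -/
theorem sev_C {P c u v y z : ℝ} (hc : 0 < c) (hP : c ≤ P) (hu : c * u = P ^ 2 + y ^ 2)
    (hv : c * v = P ^ 2 + z ^ 2) (hyz : y + z = c) :
    (P + u) ^ (-(7 / 5) : ℝ) + (P + v) ^ (-(7 / 5) : ℝ) ≤
      2 * (c ^ (7 / 5 : ℝ) * (P + c / 2) ^ (-(14 / 5) : ℝ)) := by
  have hP0 : 0 < P := by linarith
  obtain ⟨h, hh⟩ : ∃ h : ℝ, h = y - c / 2 := ⟨_, rfl⟩
  have hy : y = c / 2 + h := by rw [hh]; ring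
  have hz : z = c / 2 - h := by rw [hh]; linarith
  obtain ⟨M, hM⟩ : ∃ M : ℝ, M = (P + c / 2) ^ 2 := ⟨_, rfl⟩
  have hM9 : 9 * c ^ 2 ≤ 4 * M := by
    rw [hM]
    nlinarith
  have hM0 : 0 < M := by rw [hM]; positivity
  obtain ⟨X, hX⟩ : ∃ X : ℝ, X = M + h ^ 2 + c * h := ⟨_, rfl⟩
  obtain ⟨Y, hY⟩ : ∃ Y : ℝ, Y = M + h ^ 2 - c * h := ⟨_, rfl⟩
  have hXu : c * (P + u) = X := by
    rw [hX, hM, mul_add, hu, hy]
    ring
  have hYv : c * (P + v) = Y := by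
    rw [hY, hM, mul_add, hv, hz]
    ring
  have hX0 : 0 < X := by
    rw [hX]
    nlinarith [sq_nonneg (h + c / 2)]
  have hY0 : 0 < Y := by
    rw [hY]
    nlinarith [sq_nonneg (h - c / 2)]
  have hPu : P + u = X / c := by rw [eq_div_iff hc.ne', mul_comm]; exact hXu
  have hPv : P + v = Y / c := by rw [eq_div_iff hc.ne', mul_comm]; exact hYv
  have hdiv : ∀ Z : ℝ, 0 < Z → (Z / c) ^ (-(7 / 5) : ℝ) = c ^ (7 / 5 : ℝ) * Z ^ (-(7 / 5) : ℝ) := by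
    intro Z hZ
    rw [Real.div_rpow hZ.le hc.le, Real.rpow_neg hc.le, div_inv_eq_mul, mul_comm]
  have hMp : (P + c / 2) ^ (-(14 / 5) : ℝ) = M ^ (-(7 / 5) : ℝ) := by
    rw [hM, ← Real.rpow_natCast, ← Real.rpow_mul (by positivity)]
    norm_num
  rw [hPu, hPv, hdiv X hX0, hdiv Y hY0, hMp]
  -- the power mean
  have hcc := (Real.concaveOn_rpow (p := 7 / 10) (by norm_num) (by norm_num)).2
    (show (X ^ 2)⁻¹ ∈ Set.Ici (0 : ℝ) from Set.mem_Ici.2 (by positivity))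
    (show (Y ^ 2)⁻¹ ∈ Set.Ici (0 : ℝ) from Set.mem_Ici.2 (by positivity))
    (show (0 : ℝ) ≤ 1 / 2 by norm_num) (show (0 : ℝ) ≤ 1 / 2 by norm_num) (by norm_num)
  simp only [smul_eq_mul] at hcc
  rw [sevC_pw hX0, sevC_pw hY0] at hcc
  have hle : 1 / 2 * (X ^ 2)⁻¹ + 1 / 2 * (Y ^ 2)⁻¹ ≤ (M ^ 2)⁻¹ := by
    have hXY : X * Y = (M + h ^ 2) ^ 2 - (c * h) ^ 2 := by rw [hX, hY]; ring
    have hXY2 : X ^ 2 + Y ^ 2 = 2 * ((M + h ^ 2) ^ 2 + (c * h) ^ 2) := by rw [hX, hY]; ring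
    have hpoly := sevC_poly (M := M) (H := h ^ 2) (D := (c * h) ^ 2) hM0 (by positivity)
      (by nlinarith [sq_nonneg h])
    have e : 1 / 2 * (X ^ 2)⁻¹ + 1 / 2 * (Y ^ 2)⁻¹ =
        ((M + h ^ 2) ^ 2 + (c * h) ^ 2) / (X * Y) ^ 2 := by
      have h1 : (M + h ^ 2) ^ 2 + (c * h) ^ 2 = (X ^ 2 + Y ^ 2) / 2 := by rw [hXY2]; ring
      rw [h1]
      field_simp
      ring
    rw [e, inv_eq_one_div, div_le_div_iff₀ (by positivity) (by positivity), one_mul, hXY, mul_comm]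
    exact hpoly
  have hmono : (1 / 2 * (X ^ 2)⁻¹ + 1 / 2 * (Y ^ 2)⁻¹) ^ (7 / 10 : ℝ) ≤ M ^ (-(7 / 5) : ℝ) := by
    rw [← sevC_pw hM0]
    exact Real.rpow_le_rpow (by positivity) hle (by norm_num)
  have hc0 : 0 ≤ c ^ (7 / 5 : ℝ) := Real.rpow_nonneg hc.le _
  have hfin : X ^ (-(7 / 5) : ℝ) + Y ^ (-(7 / 5) : ℝ) ≤ 2 * M ^ (-(7 / 5) : ℝ) := by
    linarith
  calc c ^ (7 / 5 : ℝ) * X ^ (-(7 / 5) : ℝ) + c ^ (7 / 5 : ℝ) * Y ^ (-(7 / 5) : ℝ)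
      = c ^ (7 / 5 : ℝ) * (X ^ (-(7 / 5) : ℝ) + Y ^ (-(7 / 5) : ℝ)) := by ring
    _ ≤ c ^ (7 / 5 : ℝ) * (2 * M ^ (-(7 / 5) : ℝ)) := mul_le_mul_of_nonneg_left hfin hc0
    _ = 2 * (c ^ (7 / 5 : ℝ) * M ^ (-(7 / 5) : ℝ)) := by ring
-- END row sevC

-- BEGIN row sevD
private theorem sevD_up {a b : ℝ} (n : ℕ) (ha : 0 ≤ a) (hb : 0 ≤ b) (h : a ^ n ≤ b ^ 5) :
    a ^ ((n : ℝ) / 5) ≤ b := by
  have h1 : a ^ ((n : ℝ) / 5) = (a ^ n) ^ ((1 : ℝ) / 5) := by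
    rw [← Real.rpow_natCast, ← Real.rpow_mul ha]
    congr 1
    ring
  have h2 : (b ^ 5) ^ ((1 : ℝ) / 5) = b := by
    rw [← Real.rpow_natCast, ← Real.rpow_mul hb]
    norm_num
  calc a ^ ((n : ℝ) / 5) = (a ^ n) ^ ((1 : ℝ) / 5) := h1
    _ ≤ (b ^ 5) ^ ((1 : ℝ) / 5) := Real.rpow_le_rpow (pow_nonneg ha n) h (by norm_num)
    _ = b := h2

private theorem sevD_int {l r b₁ b₂ b₃ x : ℝ} (hl : 0 < l) (hlx : l ≤ x) (hxr : x ≤ r) (hr : r ≤ 1)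
    (p1 : 0 ≤ b₁) (p2 : 0 ≤ b₂) (p3 : 0 ≤ b₃) (e1 : r ^ 2 ≤ b₁ ^ 5)
    (e2 : ((1 + l)⁻¹) ^ 9 ≤ b₂ ^ 5) (e3 : (r / (1 + r / 2) ^ 2) ^ 7 ≤ b₃ ^ 5)
    (e : 10 / 9 * (b₁ * b₂) + 2 * b₃ ≤ 994 / 1000) :
    10 / 9 * (x ^ (2 / 5 : ℝ) * (1 + x) ^ (-(9 / 5) : ℝ)) +
      2 * (x ^ (7 / 5 : ℝ) * (1 + x / 2) ^ (-(14 / 5) : ℝ)) ≤ 994 / 1000 := by
  have hx : 0 < x := hl.trans_le hlx
  have hrp : 0 < r := hx.trans_le hxr
  have a1 : x ^ (2 / 5 : ℝ) ≤ b₁ := by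
    have h := sevD_up (a := x) (b := b₁) 2 hx.le p1 ((pow_le_pow_left₀ hx.le hxr 2).trans e1)
    simpa using h
  have a2 : (1 + x) ^ (-(9 / 5) : ℝ) ≤ b₂ := by
    have h0 : (1 + x)⁻¹ ≤ (1 + l)⁻¹ := inv_anti₀ (by linarith) (by linarith)
    have h := sevD_up (a := (1 + x)⁻¹) (b := b₂) 9 (by positivity) p2
      ((pow_le_pow_left₀ (by positivity) h0 9).trans e2)
    rw [Real.rpow_neg (by linarith), ← Real.inv_rpow (by linarith)]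
    simpa using h
  have a3 : x ^ (7 / 5 : ℝ) * (1 + x / 2) ^ (-(14 / 5) : ℝ) ≤ b₃ := by
    have h0 : x / (1 + x / 2) ^ 2 ≤ r / (1 + r / 2) ^ 2 := by
      rw [div_le_div_iff₀ (by positivity) (by positivity)]
      nlinarith [mul_nonneg (sub_nonneg.2 hxr) (mul_nonneg hx.le hrp.le),
        mul_nonneg (sub_nonneg.2 hxr) (sub_nonneg.2 hr),
        mul_nonneg (mul_nonneg (sub_nonneg.2 hxr) hx.le) (sub_nonneg.2 hr)]
    have h := sevD_up (a := x / (1 + x / 2) ^ 2) (b := b₃) 7 (by positivity) p3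
      ((pow_le_pow_left₀ (by positivity) h0 7).trans e3)
    have h3 : x ^ (7 / 5 : ℝ) * (1 + x / 2) ^ (-(14 / 5) : ℝ) =
        (x / (1 + x / 2) ^ 2) ^ (7 / 5 : ℝ) := by
      rw [Real.div_rpow hx.le (by positivity), ← Real.rpow_natCast, ← Real.rpow_mul (by positivity),
        Real.rpow_neg (by positivity), ← div_eq_mul_inv]
      norm_num
    rw [h3]
    simpa using h
  have b1 : 0 ≤ x ^ (2 / 5 : ℝ) := by positivity
  have b2 : 0 ≤ (1 + x) ^ (-(9 / 5) : ℝ) := by positivity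
  have m := mul_le_mul a1 a2 b2 p1
  linarith

/-- Numerics (true maximum 0.9617 at `x = 1`). On each of the intervals `[l, r]` =
`[0.5, 0.65], [0.65, 0.8], [0.8, 0.9], [0.9, 1]` bound `x ^ (2/5) ≤ r ^ (2/5)`,
`(1+x) ^ (-9/5) ≤ (1+l) ^ (-9/5)`, and `x ^ (7/5) (1+x/2) ^ (-14/5) = (x / (1+x/2)^2) ^ (7/5)`
with `x / (1+x/2)^2 ≤ r / (1+r/2)^2`; the sums are 0.9486, 0.9831, 0.9795, 0.9926. Numbers: `a ^ (n/5) ≤ b`
if `a ^ n ≤ b ^ 5`. -/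
theorem sev_D {x : ℝ} (h1 : 1 / 2 ≤ x) (h2 : x ≤ 1) :
    10 / 9 * (x ^ (2 / 5 : ℝ) * (1 + x) ^ (-(9 / 5) : ℝ)) +
      2 * (x ^ (7 / 5 : ℝ) * (1 + x / 2) ^ (-(14 / 5) : ℝ)) ≤ 994 / 1000 := by
  rcases le_total x (65 / 100) with h | h
  · exact sevD_int (l := 1 / 2) (r := 65 / 100) (b₁ := 8418 / 10000) (b₂ := 4821 / 10000)
      (b₃ := 2491 / 10000) (by norm_num) h1 h (by norm_num) (by norm_num) (by norm_num)
      (by norm_num) (by norm_num) (by norm_num) (by norm_num) (by norm_num)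
  rcases le_total x (8 / 10) with h' | h'
  · exact sevD_int (l := 65 / 100) (r := 8 / 10) (b₁ := 9147 / 10000) (b₂ := 4061 / 10000)
      (b₃ := 2856 / 10000) (by norm_num) h h' (by norm_num) (by norm_num) (by norm_num)
      (by norm_num) (by norm_num) (by norm_num) (by norm_num) (by norm_num)
  rcases le_total x (9 / 10) with h'' | h''
  · exact sevD_int (l := 8 / 10) (r := 9 / 10) (b₁ := 9588 / 10000) (b₂ := 3473 / 10000)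
      (b₃ := 3053 / 10000) (by norm_num) h' h'' (by norm_num) (by norm_num) (by norm_num)
      (by norm_num) (by norm_num) (by norm_num) (by norm_num) (by norm_num)
  · exact sevD_int (l := 9 / 10) (r := 1) (b₁ := 1) (b₂ := 3150 / 10000)
      (b₃ := 3215 / 10000) (by norm_num) h'' h2 (by norm_num) (by norm_num) (by norm_num)
      (by norm_num) (by norm_num) (by norm_num) (by norm_num) (by norm_num)
-- END row sevD

end Pool.Agent.FleaU
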