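import Pool.Agent.FleaU.Sev

/-! # The exponent 7/5 for the orbit of the unit triangle -/

set_option autoImplicit false

namespace Pool.Agent.FleaU

open Finset Pool.Agent.FleaC

/-- the potential of a large side, `t` is the sum of the area and the squared side -/
noncomputable def pw7 (t : ℝ) : ℝ := 1000 * t ^ (-(7 / 5) : ℝ)

/-- the potential of the small side `c` of a state of area `s` -/
noncomputable def pv7 (s c : ℝ) : ℝ := s ^ (-(7 / 5) : ℝ) + 5 / 2 * s ^ (-(2 / 5) : ℝ) / c +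
  10 / 9 * (1000 * (c ^ (2 / 5 : ℝ) * (s + c) ^ (-(9 / 5) : ℝ)))

/-- the potential of a state with the distinguished small side `c` -/
noncomputable def pt7 (a b c s : ℕ) : ℝ := pv7 s c + (pw7 (s + a) + pw7 (s + b))

theorem step_small7 {s c u v y z : ℝ} (hs : 0 < s) (hc : 0 < c) (hu : c * u = (s + c) ^ 2 + y ^ 2)
    (hv : c * v = (s + c) ^ 2 + z ^ 2) (hyz : y + z = c) :
    s ^ (-(7 / 5) : ℝ) + (pv7 (s + c) c + (pw7 (s + c + u) + pw7 (s + c + v))) ≤ pv7 s c := by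
  have hP : 0 < s + c := by positivity
  have hA := sev_A hs hc
  have hB := sev_B hP hc
  have hC := sev_C hc (by linarith : c ≤ s + c) hu hv hyz
  have e1 : c ^ (7 / 5 : ℝ) = c ^ (2 / 5 : ℝ) * c := by
    conv_rhs => rw [← Real.rpow_add_one hc.ne']
    norm_num
  have hc2 : 0 < c ^ (2 / 5 : ℝ) := Real.rpow_pos_of_pos hc _
  have hB' := mul_le_mul_of_nonneg_left hB hc2.le
  unfold pv7 pw7
  rw [e1] at hC
  nlinarith

theorem step_large7 {s a u v y z : ℝ} (hs : 0 < s) (ha : s ≤ a) (hu : a * u = (s + a) ^ 2 + y ^ 2)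
    (hv : a * v = (s + a) ^ 2 + z ^ 2) (hyz : y + z = a) :
    pv7 (s + a) a + (pw7 (s + a + u) + pw7 (s + a + v)) ≤ pw7 (s + a) := by
  have ha0 : 0 < a := lt_of_lt_of_le hs ha
  have hS : 0 < s + a := by positivity
  have hC := sev_C ha0 (by linarith : a ≤ s + a) hu hv hyz
  set S := s + a with hSdef
  obtain ⟨x, hx⟩ : ∃ x : ℝ, x = a / S := ⟨_, rfl⟩
  have hax : a = S * x := by rw [hx]; field_simp
  have hx0 : 0 < x := by rw [hx]; positivity
  have hx1 : 1 / 2 ≤ x := by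
    rw [hx, le_div_iff₀ hS]
    linarith
  have hx2 : x ≤ 1 := by
    rw [hx, div_le_iff₀ hS]
    linarith
  have hD := sev_D hx1 hx2
  have q : 0 < S ^ (-(7 / 5) : ℝ) := Real.rpow_pos_of_pos hS _
  have k1 : 5 / 2 * S ^ (-(2 / 5) : ℝ) / a ≤ 5 * S ^ (-(7 / 5) : ℝ) := by
    have e : S ^ (-(2 / 5) : ℝ) = S ^ (-(7 / 5) : ℝ) * S := by
      conv_rhs => rw [← Real.rpow_add_one hS.ne']
      norm_num
    rw [e, div_le_iff₀ ha0]
    have h2 : S ≤ 2 * a := by linarith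
    nlinarith
  have k2 : a ^ (2 / 5 : ℝ) * (S + a) ^ (-(9 / 5) : ℝ) =
      (x ^ (2 / 5 : ℝ) * (1 + x) ^ (-(9 / 5) : ℝ)) * S ^ (-(7 / 5) : ℝ) := by
    have e1 : S + a = S * (1 + x) := by rw [hax]; ring
    rw [e1, hax, Real.mul_rpow hS.le hx0.le, Real.mul_rpow hS.le (by positivity)]
    have e2 : S ^ (-(7 / 5) : ℝ) = S ^ (2 / 5 : ℝ) * S ^ (-(9 / 5) : ℝ) := by
      rw [← Real.rpow_add hS]
      norm_num
    rw [e2]
    ring
  have k3 : a ^ (7 / 5 : ℝ) * (S + a / 2) ^ (-(14 / 5) : ℝ) =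
      (x ^ (7 / 5 : ℝ) * (1 + x / 2) ^ (-(14 / 5) : ℝ)) * S ^ (-(7 / 5) : ℝ) := by
    have e1 : S + a / 2 = S * (1 + x / 2) := by rw [hax]; ring
    rw [e1, hax, Real.mul_rpow hS.le hx0.le, Real.mul_rpow hS.le (by positivity)]
    have e2 : S ^ (-(7 / 5) : ℝ) = S ^ (7 / 5 : ℝ) * S ^ (-(14 / 5) : ℝ) := by
      rw [← Real.rpow_add hS]
      norm_num
    rw [e2]
    ring
  rw [k3] at hC
  unfold pv7 pw7
  rw [k2]
  have hD' := mul_le_mul_of_nonneg_right hD q.le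
  linarith

theorem gain7 {a b c s : ℕ} (hv : Val a b c s) (hs : 1 ≤ s) (hc : c ≤ s) :
    (s : ℝ) ^ (-(7 / 5) : ℝ) + (pt7 (a + c + 2 * s) (b + c + 2 * s) c (s + c) +
      (pt7 (b + a + 2 * s) (c + a + 2 * s) a (s + a) +
        pt7 (c + b + 2 * s) (a + b + 2 * s) b (s + b))) ≤ pt7 a b c s := by
  have pa : (0 : ℝ) < a := by exact_mod_cast hv.pa
  have pb : (0 : ℝ) < b := by exact_mod_cast hv.pb
  have pc : (0 : ℝ) < c := by exact_mod_cast hv.pc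
  have ps : (0 : ℝ) < s := by exact_mod_cast hs
  have hcs : (c : ℝ) ≤ s := by exact_mod_cast hc
  have her : 4 * (s : ℝ) ^ 2 = 2 * (a * b + b * c + c * a) - a ^ 2 - b ^ 2 - c ^ 2 := by
    exact_mod_cast hv.her
  have bc := sq_le_prod hv.rot
  have ca := sq_le_prod hv.rot.rot
  have hsa : (s : ℝ) ≤ a := by nlinarith
  have hsb : (s : ℝ) ≤ b := by nlinarith
  have g1 := step_small7 (s := (s : ℝ)) (c := (c : ℝ)) (u := (a : ℝ) + c + 2 * s)
    (v := (b : ℝ) + c + 2 * s) (y := ((a : ℝ) + c - b) / 2) (z := ((b : ℝ) + c - a) / 2) ps pc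
    (by linarith) (by linarith) (by ring)
  have g2 := step_large7 (s := (s : ℝ)) (a := (a : ℝ)) (u := (b : ℝ) + a + 2 * s)
    (v := (c : ℝ) + a + 2 * s) (y := ((b : ℝ) + a - c) / 2) (z := ((c : ℝ) + a - b) / 2) ps hsa
    (by linarith) (by linarith) (by ring)
  have g3 := step_large7 (s := (s : ℝ)) (a := (b : ℝ)) (u := (c : ℝ) + b + 2 * s)
    (v := (a : ℝ) + b + 2 * s) (y := ((c : ℝ) + b - a) / 2) (z := ((a : ℝ) + b - c) / 2) ps hsb
    (by linarith) (by linarith) (by ring)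
  unfold pt7
  push_cast
  linarith

theorem pt7_nonneg {a b c s : ℕ} : 0 ≤ pt7 a b c s := by
  unfold pt7 pv7 pw7
  positivity

theorem ite_one7 {s S : ℕ} (hs : 1 ≤ s) :
    (((if s ≤ S then 1 else 0 : ℕ)) : ℝ) ≤ (S : ℝ) ^ (7 / 5 : ℝ) * (s : ℝ) ^ (-(7 / 5) : ℝ) := by
  have ps : (0 : ℝ) < s := by exact_mod_cast hs
  by_cases h : s ≤ S
  · rw [if_pos h, Nat.cast_one]
    have h1 : (s : ℝ) ≤ S := by exact_mod_cast h
    have h2 : (s : ℝ) ^ (7 / 5 : ℝ) ≤ (S : ℝ) ^ (7 / 5 : ℝ) :=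
      Real.rpow_le_rpow ps.le h1 (by norm_num)
    have h3 : 0 < (s : ℝ) ^ (-(7 / 5) : ℝ) := Real.rpow_pos_of_pos ps _
    have h4 : (s : ℝ) ^ (7 / 5 : ℝ) * (s : ℝ) ^ (-(7 / 5) : ℝ) = 1 := by
      rw [← Real.rpow_add ps]
      norm_num
    rw [← h4]
    exact mul_le_mul_of_nonneg_right h2 h3.le
  · rw [if_neg h, Nat.cast_zero]
    positivity

theorem nw_le7 {n a b c s S : ℕ} (hv : Val a b c s) (hs : 1 ≤ s) (hc : c ≤ s) :
    ((nw n (a, b, c, s) S : ℕ) : ℝ) ≤ (S : ℝ) ^ (7 / 5 : ℝ) * pt7 a b c s := by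
  induction n generalizing a b c s with
  | zero =>
    have g := gain7 hv hs hc
    have k1 := pt7_nonneg (a := a + c + 2 * s) (b := b + c + 2 * s) (c := c) (s := s + c)
    have k2 := pt7_nonneg (a := b + a + 2 * s) (b := c + a + 2 * s) (c := a) (s := s + a)
    have k3 := pt7_nonneg (a := c + b + 2 * s) (b := a + b + 2 * s) (c := b) (s := s + b)
    change (((if s ≤ S then 1 else 0 : ℕ)) : ℝ) ≤ _
    refine (ite_one7 hs).trans (mul_le_mul_of_nonneg_left (by linarith) (by positivity))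
  | succ n ih =>
    have g := gain7 hv hs hc
    have i1 := ih hv.plus (by omega) (by omega)
    have i2 := ih hv.rot.plus (by omega) (by omega)
    have i3 := ih hv.rot.rot.plus (by omega) (by omega)
    have hS : (0 : ℝ) ≤ (S : ℝ) ^ (7 / 5 : ℝ) := by positivity
    have h0 := ite_one7 (S := S) hs
    have g' := mul_le_mul_of_nonneg_left g hS
    rw [mul_add, mul_add, mul_add] at g'
    change ((((if s ≤ S then 1 else 0) +
      (nw n (a + c + 2 * s, b + c + 2 * s, c, s + c) S +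
      (nw n (b + a + 2 * s, c + a + 2 * s, a, s + a) S +
        nw n (c + b + 2 * s, a + b + 2 * s, b, s + b) S)) : ℕ)) : ℝ) ≤ _
    rw [Nat.cast_add, Nat.cast_add, Nat.cast_add]
    linarith

/-- the exponent `7 / 5` for the orbit of the unit triangle -/
theorem W_le7 : ∃ K : ℝ, ∀ T : ℕ, (W T : ℝ) ≤ K * (T : ℝ) ^ (7 / 5 : ℝ) := by
  refine ⟨1 + (pt7 5 5 2 3 + (pt7 4 5 1 2 + pt7 5 4 1 2)), fun T => ?_⟩
  have h1 : W T ≤ nw (T + 1) (1, 1, 2, 1) T := by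
    refine le_trans ?_ (ncard_nw T (T + 1) (1, 1, 2, 1))
    unfold W
    change Nat.card ↑{w : List (Fin 3) | (go w (1, 1, 2, 1)).2.2.2 ≤ T} ≤ _
    rw [Nat.card_coe_set_eq]
    refine Set.ncard_le_ncard ?_ (fin_len _ _ _)
    intro w hw
    have h2 := len_le w (1, 1, 2, 1) (by simp) (by simp) (by simp)
    have h3 : (go w (1, 1, 2, 1)).2.2.2 ≤ T := hw
    simp only at h2
    exact ⟨by omega, h3⟩
  have h2 : nw (T + 1) (1, 1, 2, 1) T = (if 1 ≤ T then 1 else 0) +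
      (nw T (5, 5, 2, 3) T + (nw T (4, 5, 1, 2) T + nw T (5, 4, 1, 2) T)) := rfl
  have i0 := ite_one7 (S := T) (s := 1) le_rfl
  have i1 := nw_le7 (n := T) (S := T) (a := 5) (b := 5) (c := 2) (s := 3)
    ⟨by norm_num, by norm_num, by norm_num, by norm_num⟩ (by norm_num) (by norm_num)
  have i2 := nw_le7 (n := T) (S := T) (a := 4) (b := 5) (c := 1) (s := 2)
    ⟨by norm_num, by norm_num, by norm_num, by norm_num⟩ (by norm_num) (by norm_num)
  have i3 := nw_le7 (n := T) (S := T) (a := 5) (b := 4) (c := 1) (s := 2)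
    ⟨by norm_num, by norm_num, by norm_num, by norm_num⟩ (by norm_num) (by norm_num)
  have h3 : (W T : ℝ) ≤ ((nw (T + 1) (1, 1, 2, 1) T : ℕ) : ℝ) := by exact_mod_cast h1
  rw [h2, Nat.cast_add, Nat.cast_add, Nat.cast_add] at h3
  rw [Nat.cast_one, Real.one_rpow] at i0
  have e3 : (1 + (pt7 5 5 2 3 + (pt7 4 5 1 2 + pt7 5 4 1 2))) * (T : ℝ) ^ (7 / 5 : ℝ) =
      (T : ℝ) ^ (7 / 5 : ℝ) * 1 + ((T : ℝ) ^ (7 / 5 : ℝ) * pt7 5 5 2 3 +
        ((T : ℝ) ^ (7 / 5 : ℝ) * pt7 4 5 1 2 + (T : ℝ) ^ (7 / 5 : ℝ) * pt7 5 4 1 2)) := by ring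
  rw [e3]
  linarith

/-- the seventh power -/
theorem seventh : ∃ e : ℝ, 0 < e ∧ ∀ N : ℕ, 72 ≤ N → ∃ A B C : GaussianInt, Adm false A B C ∧
    SidesLe N A B C ∧ ∃ D : ℕ, Missed A B C D ∧ D % 2 = 1 ∧ e * (N : ℝ) ^ 7 ≤ D := by
  obtain ⟨K, hK⟩ := W_le7
  obtain ⟨e, he, h⟩ := ref_growth (t := 7 / 5) (C := K) (by norm_num) (fun T _ => hK T)
  refine ⟨e, he, fun N hN => ?_⟩
  obtain ⟨A, B, C, h1, h2, D, h3, h4, h5⟩ := h N hN
  refine ⟨A, B, C, h1, h2, D, h3, h4, ?_⟩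
  have e1 : (2 * (7 / 5) / (7 / 5 - 1) : ℝ) = ((7 : ℕ) : ℝ) := by norm_num
  rw [e1, Real.rpow_natCast] at h5
  exact h5

end Pool.Agent.FleaU
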