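import Pool.Agent.FleaC.Quart

/-! # The number of the areas of an orbit: exponent 3/2 -/

set_option autoImplicit false

namespace Pool.Agent.FleaU

open Pool.Agent.FleaC

/-- the potential of a large side, `t` is the sum of the area and the squared side -/
noncomputable def pw (t : ℝ) : ℝ := 75 / (t * √t)

/-- the potential of the small side `c` of a state of area `s` -/
noncomputable def pv (s c : ℝ) : ℝ := 1 / (s * √s) + 2 / (c * √s) + 75 * √c / (s + c) ^ 2

theorem pw_nonneg {t : ℝ} (h : 0 < t) : 0 ≤ pw t := by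
  unfold pw
  positivity

theorem pw_mono {t t' : ℝ} (h : 0 < t) (h' : t ≤ t') : pw t' ≤ pw t := by
  unfold pw
  have h1 : √t ≤ √t' := Real.sqrt_le_sqrt h'
  have h2 : 0 < √t := Real.sqrt_pos.2 h
  apply div_le_div_of_nonneg_left (by norm_num) (by positivity)
  exact mul_le_mul h' h1 h2.le (by linarith)

/-- the potential of a new side -/
theorem pw_new {P c u : ℝ} (hP : 0 < P) (hc : 0 < c) (hu : P ^ 2 ≤ c * u) :
    pw (P + u) ≤ 75 * (c * √c) / (P * (P + c) * √(P * (P + c))) := by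
  have hT : P * (P + c) / c ≤ P + u := by
    rw [div_le_iff₀ hc]
    nlinarith
  have hT0 : 0 < P * (P + c) / c := by positivity
  refine (pw_mono hT0 hT).trans (le_of_eq ?_)
  unfold pw
  have hk : √c ≠ 0 := (Real.sqrt_pos.2 hc).ne'
  have hR : √(P * (P + c)) ≠ 0 := (Real.sqrt_pos.2 (by positivity)).ne'
  rw [Real.sqrt_div (by positivity)]
  have hPc : P + c ≠ 0 := by positivity
  field_simp

theorem step_small {s c u v : ℝ} (hs : 0 < s) (hc : 0 < c) (hu : (s + c) ^ 2 ≤ c * u)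
    (hv : (s + c) ^ 2 ≤ c * v) :
    1 / (s * √s) + (pv (s + c) c + (pw (s + c + u) + pw (s + c + v))) ≤ pv s c := by
  have hP : 0 < s + c := by positivity
  have n1 := pw_new hP hc hu
  have n2 := pw_new hP hc hv
  -- the part with the constant
  have hQ : 0 < s + c + c := by positivity
  have hR := Real.sqrt_pos.2 (mul_pos hP hQ)
  have hR2 : √((s + c) * (s + c + c)) ^ 2 = (s + c) * (s + c + c) := Real.sq_sqrt (by positivity)
  set R := √((s + c) * (s + c + c)) with hRdef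
  have hRle : 2 * R ≤ (s + c) + (s + c + c) := by
    nlinarith [sq_nonneg ((s + c) - (s + c + c))]
  have hk := Real.sqrt_pos.2 hc
  have hB : 75 * √c / (s + c + c) ^ 2 + 2 * (75 * (c * √c) / ((s + c) * (s + c + c) * R)) ≤
      75 * √c / (s + c) ^ 2 := by
    have e : 75 * √c / (s + c) ^ 2 - 75 * √c / (s + c + c) ^ 2 =
        75 * √c * (c * ((s + c) + (s + c + c))) / ((s + c) ^ 2 * (s + c + c) ^ 2) := by
      field_simp
      ring
    have e2 : (s + c) ^ 2 * (s + c + c) ^ 2 = (s + c) * (s + c + c) * R * R := by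
      have : (s + c) ^ 2 * (s + c + c) ^ 2 = ((s + c) * (s + c + c)) * R ^ 2 := by rw [hR2]; ring
      rw [this]
      ring
    have e3 : 2 * (75 * (c * √c) / ((s + c) * (s + c + c) * R)) =
        75 * √c * (c * (2 * R)) / ((s + c) ^ 2 * (s + c + c) ^ 2) := by
      rw [e2]
      field_simp
    have e4 : 75 * √c * (c * (2 * R)) / ((s + c) ^ 2 * (s + c + c) ^ 2) ≤
        75 * √c * (c * ((s + c) + (s + c + c))) / ((s + c) ^ 2 * (s + c + c) ^ 2) := by
      apply div_le_div_of_nonneg_right _ (by positivity)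
      exact mul_le_mul_of_nonneg_left (mul_le_mul_of_nonneg_left hRle hc.le) (by positivity)
    linarith
  -- the part without
  have hσ := Real.sqrt_pos.2 hs
  have hπ := Real.sqrt_pos.2 hP
  have hσ2 : √s ^ 2 = s := Real.sq_sqrt hs.le
  have hπ2 : √(s + c) ^ 2 = s + c := Real.sq_sqrt hP.le
  have hle : √s ≤ √(s + c) := Real.sqrt_le_sqrt (by linarith)
  have hA : 1 / ((s + c) * √(s + c)) + 2 / (c * √(s + c)) ≤ 2 / (c * √s) := by
    set σ := √s with hσd
    set π := √(s + c) with hπd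
    have ec : c = π ^ 2 - σ ^ 2 := by rw [hσ2, hπ2]; ring
    have hπσ : σ < π := Real.sqrt_lt_sqrt hs.le (by linarith)
    have e5 : 2 / (c * σ) - 2 / (c * π) = 2 / (σ * π * (π + σ)) := by
      rw [ec]
      have h1 : π ^ 2 - σ ^ 2 ≠ 0 := by
        have : 0 < π ^ 2 - σ ^ 2 := by nlinarith
        exact this.ne'
      have h2 : π + σ ≠ 0 := by positivity
      field_simp
      ring
    have e6 : 1 / ((s + c) * π) ≤ 2 / (σ * π * (π + σ)) := by
      rw [← hπ2, div_le_div_iff₀ (by positivity) (by positivity)]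
      nlinarith [mul_pos hσ hπ, mul_nonneg hπ.le (mul_nonneg (sub_nonneg.2 hle) (sub_nonneg.2 hle)),
        mul_nonneg hπ.le (mul_nonneg hσ.le (sub_nonneg.2 hle)),
        mul_nonneg hπ.le (mul_nonneg hπ.le (sub_nonneg.2 hle))]
    linarith
  unfold pv
  have e7 : s + c + c = s + c + c := rfl
  linarith

theorem step_large {s a u v : ℝ} (hs : 0 < s) (ha : s ≤ a) (hu : (s + a) ^ 2 ≤ a * u)
    (hv : (s + a) ^ 2 ≤ a * v) :
    pv (s + a) a + (pw (s + a + u) + pw (s + a + v)) ≤ pw (s + a) := by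
  have ha0 : 0 < a := lt_of_lt_of_le hs ha
  have hS : 0 < s + a := by positivity
  have n1 := pw_new hS ha0 hu
  have n2 := pw_new hS ha0 hv
  set S := s + a with hSdef
  have hSa : a ≤ S := by linarith
  have hS2 : S ≤ 2 * a := by linarith
  have hα := Real.sqrt_pos.2 ha0
  have hβ := Real.sqrt_pos.2 hS
  have hG : 0 < S + a := by positivity
  have hγ := Real.sqrt_pos.2 hG
  have hα2 : √a ^ 2 = a := Real.sq_sqrt ha0.le
  have hβ2 : √S ^ 2 = S := Real.sq_sqrt hS.le
  have hγ2 : √(S + a) ^ 2 = S + a := Real.sq_sqrt hG.le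
  have hR : √(S * (S + a)) = √S * √(S + a) := Real.sqrt_mul hS.le _
  rw [hR] at n1 n2
  set α := √a with hαd
  set β := √S with hβd
  set γ := √(S + a) with hγd
  -- the ratio
  obtain ⟨g, hg⟩ : ∃ g : ℝ, g = γ / α := ⟨_, rfl⟩
  have hgγ : γ = g * α := by rw [hg]; field_simp
  have hg0 : 0 < g := by rw [hg]; positivity
  have hSg : S = (g ^ 2 - 1) * α ^ 2 := by
    have : γ ^ 2 = g ^ 2 * α ^ 2 := by rw [hgγ]; ring
    have h1 : S + a = g ^ 2 * α ^ 2 := by rw [← hγ2, this]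
    rw [← hα2] at h1
    linarith
  have hg1 : 2 ≤ g ^ 2 := by
    have h1 : α ^ 2 ≤ (g ^ 2 - 1) * α ^ 2 := by rw [← hSg, hα2]; exact hSa
    have h2 : 0 < α ^ 2 := by positivity
    nlinarith
  have hg2 : g ^ 2 ≤ 3 := by
    have h1 : (g ^ 2 - 1) * α ^ 2 ≤ 2 * α ^ 2 := by rw [← hSg, hα2]; exact hS2
    have h2 : 0 < α ^ 2 := by positivity
    nlinarith
  have hg3 : 1.414 ≤ g := by
    by_contra hcon
    push Not at hcon
    nlinarith
  have hg4 : g ≤ 1.733 := by
    by_contra hcon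
    push Not at hcon
    nlinarith
  have hpoly : 4 * g ^ 5 + 300 ≤ 77 * g ^ 3 + 75 * g := by
    obtain ⟨t, ht⟩ : ∃ t : ℝ, t = g - 1.414 := ⟨_, rfl⟩
    have hgt : g = t + 1.414 := by rw [ht]; ring
    have ht0 : 0 ≤ t := by rw [ht]; linarith
    have ht1 : t ≤ 0.32 := by rw [ht]; linarith
    rw [hgt]
    have p2 : 0 ≤ t ^ 2 := by positivity
    have p3 : t ^ 3 ≤ 0.32 * t ^ 2 := by
      have : t ^ 3 = t * t ^ 2 := by ring
      rw [this]
      exact mul_le_mul_of_nonneg_right ht1 p2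
    have p4 : t ^ 4 ≤ 0.32 * (0.32 * t ^ 2) := by
      have : t ^ 4 = t * t ^ 3 := by ring
      have p3' : 0 ≤ t ^ 3 := by positivity
      calc t ^ 4 = t * t ^ 3 := this
        _ ≤ 0.32 * (0.32 * t ^ 2) := mul_le_mul ht1 p3 p3' (by norm_num)
    have p5 : t ^ 5 ≤ 0.32 * (0.32 * (0.32 * t ^ 2)) := by
      have p4' : 0 ≤ t ^ 4 := by positivity
      calc t ^ 5 = t * t ^ 4 := by ring
        _ ≤ 0.32 * (0.32 * (0.32 * t ^ 2)) := mul_le_mul ht1 p4 p4' (by norm_num)
    have p3' : 0 ≤ t ^ 3 := by positivity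
    nlinarith
  -- all terms in `g` and `α`
  have hβg : β ^ 2 = (g ^ 2 - 1) * α ^ 2 := by rw [hβ2, ← hSg]
  have hamgm : 2 * (α * β) ≤ g ^ 2 * α ^ 2 := by
    nlinarith [sq_nonneg (α - β)]
  have t1 : 75 * α / (S + a) ^ 2 ≤ 75 * (1 / (2 * g ^ 2 * α ^ 2 * β)) := by
    have e1 : (S + a) ^ 2 = (g ^ 2 * α ^ 2) ^ 2 := by rw [← hγ2, hgγ]; ring
    rw [e1, mul_one_div, div_le_div_iff₀ (by positivity) (by positivity)]
    have : 75 * α * (2 * g ^ 2 * α ^ 2 * β) = 75 * (g ^ 2 * α ^ 2) * (2 * (α * β)) := by ring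
    rw [this]
    calc 75 * (g ^ 2 * α ^ 2) * (2 * (α * β)) ≤ 75 * (g ^ 2 * α ^ 2) * (g ^ 2 * α ^ 2) :=
          mul_le_mul_of_nonneg_left hamgm (by positivity)
      _ = 75 * (g ^ 2 * α ^ 2) ^ 2 := by ring
  have t2 : 75 * (a * α) / (S * (S + a) * (β * γ)) = 75 * (1 / (S * (g ^ 3 * β))) := by
    have e1 : S + a = g ^ 2 * α ^ 2 := by rw [← hγ2, hgγ]; ring
    rw [hgγ, e1, ← hα2]
    field_simp
  have hfin : pv S a + 2 * (75 * (1 / (S * (g ^ 3 * β)))) ≤ pw S := by
    have e0 : pv S a = 1 / (S * β) + 2 / (a * β) + 75 * α / (S + a) ^ 2 := rfl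
    have e1 : pw S = 75 / (S * β) := rfl
    rw [e0, e1]
    have k1 : 2 / (a * β) = 2 * (g ^ 2 - 1) / (S * β) := by
      rw [← hα2, hSg]
      have : g ^ 2 - 1 ≠ 0 := by
        have : 0 < g ^ 2 - 1 := by linarith
        exact this.ne'
      field_simp
    have k2 : 75 * (1 / (2 * g ^ 2 * α ^ 2 * β)) = 75 * ((g ^ 2 - 1) / (2 * g ^ 2)) / (S * β) := by
      rw [hSg]
      have : g ^ 2 - 1 ≠ 0 := by
        have : 0 < g ^ 2 - 1 := by linarith
        exact this.ne'
      field_simp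
    have k3 : 75 * (1 / (S * (g ^ 3 * β))) = 75 * (1 / g ^ 3) / (S * β) := by
      field_simp
    have k4 : 1 + 2 * (g ^ 2 - 1) + 75 * ((g ^ 2 - 1) / (2 * g ^ 2)) + 2 * (75 * (1 / g ^ 3)) ≤ 75 := by
      have e : 1 + 2 * (g ^ 2 - 1) + 75 * ((g ^ 2 - 1) / (2 * g ^ 2)) + 2 * (75 * (1 / g ^ 3)) =
          75 - (77 * g ^ 3 + 75 * g - 4 * g ^ 5 - 300) / (2 * g ^ 3) := by
        field_simp
        ring
      rw [e]
      have : 0 ≤ (77 * g ^ 3 + 75 * g - 4 * g ^ 5 - 300) / (2 * g ^ 3) := by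
        apply div_nonneg (by linarith) (by positivity)
      linarith
    have k5 := div_le_div_of_nonneg_right k4 (by positivity : (0 : ℝ) ≤ S * β)
    rw [add_div, add_div, add_div] at k5
    rw [k1]
    rw [k2] at t1
    rw [k3]
    have k6 : 2 * (75 * (1 / g ^ 3)) / (S * β) = 2 * (75 * (1 / g ^ 3) / (S * β)) := by ring
    rw [k6] at k5
    linarith
  rw [t2] at n1 n2
  linarith

end Pool.Agent.FleaU
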