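import Pool.Agent.FleaU.Sext

/-! # The number of the areas of an orbit: exponent 3/2, the tree -/

set_option autoImplicit false

namespace Pool.Agent.FleaU

open Pool.Agent.FleaC

/-- the potential of a state with the distinguished small side `c` -/
noncomputable def pt3 (a b c s : ℕ) : ℝ := pv s c + (pw (s + a) + pw (s + b))

theorem sq_le_prod {a b c s : ℕ} (hv : Val a b c s) : ((s : ℝ)) ^ 2 ≤ a * b := by
  have her := hv.her
  have h1 : (s : ℤ) ^ 2 ≤ a * b := by nlinarith [sq_nonneg ((a : ℤ) + b - c)]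
  exact_mod_cast h1

theorem gain3 {a b c s : ℕ} (hv : Val a b c s) (hs : 1 ≤ s) (hc : c ≤ s) :
    1 / ((s : ℝ) * √s) + (pt3 (a + c + 2 * s) (b + c + 2 * s) c (s + c) +
      (pt3 (b + a + 2 * s) (c + a + 2 * s) a (s + a) +
        pt3 (c + b + 2 * s) (a + b + 2 * s) b (s + b))) ≤ pt3 a b c s := by
  have pa : (0 : ℝ) < a := by exact_mod_cast hv.pa
  have pb : (0 : ℝ) < b := by exact_mod_cast hv.pb
  have pc : (0 : ℝ) < c := by exact_mod_cast hv.pc
  have ps : (0 : ℝ) < s := by exact_mod_cast hs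
  have hcs : (c : ℝ) ≤ s := by exact_mod_cast hc
  have ab := sq_le_prod hv
  have bc := sq_le_prod hv.rot
  have ca := sq_le_prod hv.rot.rot
  have hsa : (s : ℝ) ≤ a := by nlinarith
  have hsb : (s : ℝ) ≤ b := by nlinarith
  have g1 := step_small (s := (s : ℝ)) (c := (c : ℝ)) (u := (a : ℝ) + c + 2 * s)
    (v := (b : ℝ) + c + 2 * s) ps pc (by nlinarith) (by nlinarith)
  have g2 := step_large (s := (s : ℝ)) (a := (a : ℝ)) (u := (b : ℝ) + a + 2 * s)
    (v := (c : ℝ) + a + 2 * s) ps hsa (by nlinarith) (by nlinarith)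
  have g3 := step_large (s := (s : ℝ)) (a := (b : ℝ)) (u := (c : ℝ) + b + 2 * s)
    (v := (a : ℝ) + b + 2 * s) ps hsb (by nlinarith) (by nlinarith)
  unfold pt3
  push_cast
  linarith

theorem pt3_nonneg {a b c s : ℕ} (hs : 1 ≤ s) : 0 ≤ pt3 a b c s := by
  have ps : (0 : ℝ) < s := by exact_mod_cast hs
  unfold pt3
  have h1 : (0 : ℝ) < s + a := by positivity
  have h2 : (0 : ℝ) < s + b := by positivity
  have h3 := pw_nonneg h1
  have h4 := pw_nonneg h2
  have h5 : 0 ≤ pv (s : ℝ) (c : ℝ) := by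
    unfold pv
    positivity
  linarith

/-- one area -/
theorem card_one {s S : ℕ} (hs : 1 ≤ s) :
    ((({s} : Finset ℕ).filter (· ≤ S)).card : ℝ) ≤ (S : ℝ) * √S * (1 / ((s : ℝ) * √s)) := by
  have ps : (0 : ℝ) < s := by exact_mod_cast hs
  by_cases h : s ≤ S
  · rw [Finset.filter_singleton, if_pos h, Finset.card_singleton]
    have h1 : (s : ℝ) ≤ S := by exact_mod_cast h
    have h2 : √(s : ℝ) ≤ √S := Real.sqrt_le_sqrt h1
    have h3 : (s : ℝ) * √s ≤ S * √S := mul_le_mul h1 h2 (Real.sqrt_nonneg _) (by linarith)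
    have h4 : 0 < (s : ℝ) * √s := by positivity
    push_cast
    rw [mul_one_div, le_div_iff₀ h4]
    linarith
  · rw [Finset.filter_singleton, if_neg h, Finset.card_empty]
    push_cast
    positivity

theorem card_step (n a b c s S : ℕ) :
    (((vals (n + 1) a b c s).filter (· ≤ S)).card : ℝ) ≤
      ((({s} : Finset ℕ).filter (· ≤ S)).card : ℝ) +
      ((((vals n (a + c + 2 * s) (b + c + 2 * s) c (s + c)).filter (· ≤ S)).card : ℝ) +
      ((((vals n (b + a + 2 * s) (c + a + 2 * s) a (s + a)).filter (· ≤ S)).card : ℝ) +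
      (((vals n (c + b + 2 * s) (a + b + 2 * s) b (s + b)).filter (· ≤ S)).card : ℝ))) := by
  have e : (vals (n + 1) a b c s).filter (· ≤ S) =
      ({s} : Finset ℕ).filter (· ≤ S) ∪
      ((vals n (a + c + 2 * s) (b + c + 2 * s) c (s + c)).filter (· ≤ S) ∪
      ((vals n (b + a + 2 * s) (c + a + 2 * s) a (s + a)).filter (· ≤ S) ∪
      (vals n (c + b + 2 * s) (a + b + 2 * s) b (s + b)).filter (· ≤ S))) := by
    rw [← Finset.filter_union, ← Finset.filter_union, ← Finset.filter_union]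
    rfl
  have hc : ((vals (n + 1) a b c s).filter (· ≤ S)).card ≤
      (({s} : Finset ℕ).filter (· ≤ S)).card +
      (((vals n (a + c + 2 * s) (b + c + 2 * s) c (s + c)).filter (· ≤ S)).card +
      (((vals n (b + a + 2 * s) (c + a + 2 * s) a (s + a)).filter (· ≤ S)).card +
      ((vals n (c + b + 2 * s) (a + b + 2 * s) b (s + b)).filter (· ≤ S)).card)) := by
    rw [e]
    refine (Finset.card_union_le _ _).trans (Nat.add_le_add_left ?_ _)
    refine (Finset.card_union_le _ _).trans (Nat.add_le_add_left ?_ _)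
    exact Finset.card_union_le _ _
  exact_mod_cast hc

theorem card_vals3 {n a b c s S : ℕ} (hv : Val a b c s) (hs : 1 ≤ s) (hc : c ≤ s) :
    (((vals n a b c s).filter (· ≤ S)).card : ℝ) ≤ (S : ℝ) * √S * pt3 a b c s := by
  induction n generalizing a b c s with
  | zero =>
    have g := gain3 hv hs hc
    have k1 := pt3_nonneg (a := a + c + 2 * s) (b := b + c + 2 * s) (c := c) (s := s + c) (by omega)
    have k2 := pt3_nonneg (a := b + a + 2 * s) (b := c + a + 2 * s) (c := a) (s := s + a) (by omega)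
    have k3 := pt3_nonneg (a := c + b + 2 * s) (b := a + b + 2 * s) (c := b) (s := s + b) (by omega)
    change ((({s} : Finset ℕ).filter (· ≤ S)).card : ℝ) ≤ _
    refine (card_one hs).trans (mul_le_mul_of_nonneg_left (by linarith) (by positivity))
  | succ n ih =>
    have g := gain3 hv hs hc
    have i1 := ih hv.plus (by omega) (by omega)
    have i2 := ih hv.rot.plus (by omega) (by omega)
    have i3 := ih hv.rot.rot.plus (by omega) (by omega)
    have hS : (0 : ℝ) ≤ (S : ℝ) * √S := by positivity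
    have h0 := card_one (S := S) hs
    have h1 := card_step n a b c s S
    have g' := mul_le_mul_of_nonneg_left g hS
    rw [mul_add, mul_add, mul_add] at g'
    linarith

/-- `pw (s + x)` for `s + x ≥ 3 t` -/
theorem pw_three {t u : ℝ} (ht : 0 < t) (hu : 3 * t ≤ u) : pw u ≤ 14.5 / (t * √t) := by
  refine (pw_mono (by positivity) hu).trans ?_
  unfold pw
  have h1 : √(3 * t) = √3 * √t := Real.sqrt_mul (by norm_num) _
  have h2 : 1.73 ≤ √3 := Real.le_sqrt_of_sq_le (by norm_num)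
  have h3 := Real.sqrt_pos.2 ht
  rw [h1, div_le_div_iff₀ (by positivity) (by positivity)]
  have h4 : 0 < t * √t := by positivity
  have h5 : 14.5 * (3 * t * (√3 * √t)) = 43.5 * √3 * (t * √t) := by ring
  rw [h5]
  refine mul_le_mul_of_nonneg_right ?_ h4.le
  linarith

/-- a state all whose sides are at least its area -/
theorem card_any {n a b c s t S : ℕ} (hv : Val a b c s) (ht : 1 ≤ t) (hts : t ≤ s) (ha : s ≤ a)
    (hb : s ≤ b) (hc : s ≤ c) (ha3 : 3 * t ≤ s + a) (hb3 : 3 * t ≤ s + b) (hc3 : 3 * t ≤ s + c) :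
    (((vals n a b c s).filter (· ≤ S)).card : ℝ) ≤ (S : ℝ) * √S * (45 / ((t : ℝ) * √t)) := by
  have pa : (0 : ℝ) < a := by exact_mod_cast hv.pa
  have pb : (0 : ℝ) < b := by exact_mod_cast hv.pb
  have pc : (0 : ℝ) < c := by exact_mod_cast hv.pc
  have pt : (0 : ℝ) < t := by exact_mod_cast ht
  have hs : 1 ≤ s := by omega
  have ps : (0 : ℝ) < s := by exact_mod_cast hs
  have hS : (0 : ℝ) ≤ (S : ℝ) * √S := by positivity
  have hqt : 0 < (t : ℝ) * √t := by positivity
  have h0 := card_one (S := S) hs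
  have hmono : 1 / ((s : ℝ) * √s) ≤ 1 / ((t : ℝ) * √t) := by
    have h1 : (t : ℝ) ≤ s := by exact_mod_cast hts
    have h2 : √(t : ℝ) ≤ √s := Real.sqrt_le_sqrt h1
    exact one_div_le_one_div_of_le hqt (mul_le_mul h1 h2 (Real.sqrt_nonneg _) ps.le)
  have q1 := mul_le_mul_of_nonneg_left hmono hS
  cases n with
  | zero =>
    change ((({s} : Finset ℕ).filter (· ≤ S)).card : ℝ) ≤ _
    refine (h0.trans q1).trans (mul_le_mul_of_nonneg_left ?_ hS)
    exact div_le_div_of_nonneg_right (by norm_num) hqt.le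
  | succ n =>
    have i1 := card_vals3 (n := n) (S := S) hv.plus (by omega) (by omega : c ≤ s + c)
    have i2 := card_vals3 (n := n) (S := S) hv.rot.plus (by omega) (by omega : a ≤ s + a)
    have i3 := card_vals3 (n := n) (S := S) hv.rot.rot.plus (by omega) (by omega : b ≤ s + b)
    have h1 := card_step n a b c s S
    have ab := sq_le_prod hv
    have bc := sq_le_prod hv.rot
    have ca := sq_le_prod hv.rot.rot
    have hsa : (s : ℝ) ≤ a := by exact_mod_cast ha
    have hsb : (s : ℝ) ≤ b := by exact_mod_cast hb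
    have hsc : (s : ℝ) ≤ c := by exact_mod_cast hc
    have g1 := step_large (s := (s : ℝ)) (a := (c : ℝ)) (u := (a : ℝ) + c + 2 * s)
      (v := (b : ℝ) + c + 2 * s) ps hsc (by nlinarith) (by nlinarith)
    have g2 := step_large (s := (s : ℝ)) (a := (a : ℝ)) (u := (b : ℝ) + a + 2 * s)
      (v := (c : ℝ) + a + 2 * s) ps hsa (by nlinarith) (by nlinarith)
    have g3 := step_large (s := (s : ℝ)) (a := (b : ℝ)) (u := (c : ℝ) + b + 2 * s)
      (v := (a : ℝ) + b + 2 * s) ps hsb (by nlinarith) (by nlinarith)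
    have w1 : pw ((s : ℝ) + c) ≤ 14.5 / ((t : ℝ) * √t) := pw_three pt (by exact_mod_cast hc3)
    have w2 : pw ((s : ℝ) + a) ≤ 14.5 / ((t : ℝ) * √t) := pw_three pt (by exact_mod_cast ha3)
    have w3 : pw ((s : ℝ) + b) ≤ 14.5 / ((t : ℝ) * √t) := pw_three pt (by exact_mod_cast hb3)
    have e1 : pt3 (a + c + 2 * s) (b + c + 2 * s) c (s + c) ≤ 14.5 / ((t : ℝ) * √t) := by
      unfold pt3
      push_cast
      linarith
    have e2 : pt3 (b + a + 2 * s) (c + a + 2 * s) a (s + a) ≤ 14.5 / ((t : ℝ) * √t) := by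
      unfold pt3
      push_cast
      linarith
    have e3 : pt3 (c + b + 2 * s) (a + b + 2 * s) b (s + b) ≤ 14.5 / ((t : ℝ) * √t) := by
      unfold pt3
      push_cast
      linarith
    have f1 := mul_le_mul_of_nonneg_left e1 hS
    have f2 := mul_le_mul_of_nonneg_left e2 hS
    have f3 := mul_le_mul_of_nonneg_left e3 hS
    have e : (S : ℝ) * √S * (45 / ((t : ℝ) * √t)) = (S : ℝ) * √S * (1 / ((t : ℝ) * √t)) +
        ((S : ℝ) * √S * (14.5 / ((t : ℝ) * √t)) + ((S : ℝ) * √S * (14.5 / ((t : ℝ) * √t)) +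
        (S : ℝ) * √S * (14.5 / ((t : ℝ) * √t)))) + (S : ℝ) * √S * (0.5 / ((t : ℝ) * √t)) := by ring
    have hpos : 0 ≤ (S : ℝ) * √S * (0.5 / ((t : ℝ) * √t)) := by positivity
    rw [e]
    linarith

theorem card_side3 {a b c s : ℕ} (hr : Root a b c s) (n S : ℕ) :
    (((vals n (a + c - 2 * s) (b + c - 2 * s) c (c - s)).filter (· ≤ S)).card : ℝ) ≤
      (S : ℝ) * √S * (45 / ((s : ℝ) * √s)) := by
  have ha := hr.ha
  have hb := hr.hb
  have hc := hr.hc
  have ps := hr.ps
  have hd : df c s = c - s := by unfold df; omega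
  have hv := hr.val.minus (by omega) (by omega)
  rw [hd] at hv
  exact card_any hv ps (by omega) (by omega) (by omega) (by omega) (by omega) (by omega) (by omega)

/-- the number of the occurring areas up to `S` for a triangle which is a root -/
theorem card_occ3 {A B C : GaussianInt} (hd : Distinct A B C) {a b c s : ℕ} (hr : Root a b c s)
    (hst : st A B C = ({a, b, c}, s)) {S : ℕ}
    {F : Finset ℕ} (hF : ∀ D ∈ F, D ≤ S ∧ Occurs A B C D) :
    (F.card : ℝ) ≤ (S : ℝ) * √S * (180 / ((s : ℝ) * √s)) := by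
  classical
  have hsub : F ⊆ (vals S a b c s).filter (· ≤ S) ∪
      ((vals S (a + c - 2 * s) (b + c - 2 * s) c (c - s)).filter (· ≤ S) ∪
      ((vals S (b + a - 2 * s) (c + a - 2 * s) a (a - s)).filter (· ≤ S) ∪
        (vals S (c + b - 2 * s) (a + b - 2 * s) b (b - s)).filter (· ≤ S))) := by
    intro D hD
    obtain ⟨h1, h2⟩ := hF D hD
    have h3 := occ_mem hd hr hst h1 h2
    simp only [Finset.mem_union, Finset.mem_filter] at h3 ⊢
    rcases h3 with h | h | h | h
    · exact Or.inl ⟨h, h1⟩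
    · exact Or.inr (Or.inl ⟨h, h1⟩)
    · exact Or.inr (Or.inr (Or.inl ⟨h, h1⟩))
    · exact Or.inr (Or.inr (Or.inr ⟨h, h1⟩))
  have hr1 : Root b c a s := ⟨hr.val.rot, hr.ps, hr.hb, hr.hc, hr.ha⟩
  have hr2 : Root c a b s := ⟨hr.val.rot.rot, hr.ps, hr.hc, hr.ha, hr.hb⟩
  have q1 := hr.ha
  have q2 := hr.hb
  have q3 := hr.hc
  have c0 := card_any (n := S) (S := S) hr.val hr.ps le_rfl (by omega) (by omega) (by omega)
    (by omega) (by omega) (by omega)
  have c1 := card_side3 hr S S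
  have c2 := card_side3 hr1 S S
  have c3 := card_side3 hr2 S S
  have h0 := (Finset.card_le_card hsub).trans ((Finset.card_union_le _ _).trans
    (Nat.add_le_add_left ((Finset.card_union_le _ _).trans
      (Nat.add_le_add_left (Finset.card_union_le _ _) _)) _))
  have h1 : (F.card : ℝ) ≤ (((vals S a b c s).filter (· ≤ S)).card : ℝ) +
      ((((vals S (a + c - 2 * s) (b + c - 2 * s) c (c - s)).filter (· ≤ S)).card : ℝ) +
      ((((vals S (b + a - 2 * s) (c + a - 2 * s) a (a - s)).filter (· ≤ S)).card : ℝ) +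
        (((vals S (c + b - 2 * s) (a + b - 2 * s) b (b - s)).filter (· ≤ S)).card : ℝ))) := by
    exact_mod_cast h0
  have e : (S : ℝ) * √S * (180 / ((s : ℝ) * √s)) = 4 * ((S : ℝ) * √S * (45 / ((s : ℝ) * √s))) := by
    ring
  rw [e]
  linarith

/-- the number of the occurring areas for the triangles of the family -/
theorem card_q {k S : ℕ} (hk : 2 ≤ k) {F : Finset ℕ}
    (hF : ∀ D ∈ F, D ≤ S ∧ Occurs qA (qB k) (qC k) D) :
    (F.card : ℝ) ^ 2 * (k : ℝ) ^ 6 * 2 ≤ 127 * (S : ℝ) ^ 3 := by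
  have hst : st qA (qB k) (qC k) = ({68 * k ^ 2 + 16 * k + 1, 20 * k ^ 2 + 8 * k + 1, 16 * k ^ 2},
      8 * k ^ 2) := by
    unfold st
    rw [q_ab, q_bc, q_ca, q_area]
  have h := card_occ3 (q_distinct hk) (q_root hk) hst hF
  have pk : (0 : ℝ) < k := by exact_mod_cast (by omega : 0 < k)
  have hS0 : (0 : ℝ) ≤ S := Nat.cast_nonneg S
  have hx : (0 : ℝ) < ((8 * k ^ 2 : ℕ) : ℝ) := by push_cast; positivity
  have hF0 : (0 : ℝ) ≤ F.card := Nat.cast_nonneg _
  have h2 : (F.card : ℝ) ^ 2 ≤ ((S : ℝ) * √S * (180 / (((8 * k ^ 2 : ℕ) : ℝ) * √((8 * k ^ 2 : ℕ) : ℝ)))) ^ 2 :=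
    pow_le_pow_left₀ hF0 h 2
  have e : ((S : ℝ) * √S * (180 / (((8 * k ^ 2 : ℕ) : ℝ) * √((8 * k ^ 2 : ℕ) : ℝ)))) ^ 2 =
      32400 * (S : ℝ) ^ 3 / (512 * (k : ℝ) ^ 6) := by
    rw [mul_pow, mul_pow, div_pow, mul_pow, Real.sq_sqrt hS0, Real.sq_sqrt hx.le]
    push_cast
    field_simp
    ring
  rw [e, le_div_iff₀ (by positivity)] at h2
  have h3 : (0 : ℝ) ≤ (S : ℝ) ^ 3 := by positivity
  nlinarith

end Pool.Agent.FleaU
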