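import Pool.Agent.FleaU.Sext2
import Pool.Agent.FleaU.Low

/-! # Lower bounds of sixth order -/

set_option autoImplicit false

namespace Pool.Agent.FleaU

open Finset Pool.Agent.FleaC

theorem q_missed3 {k j : ℕ} (hk : 2 ≤ k) (hj : 1 ≤ j) (hjk : 4064 * j < k ^ 6) :
    ∃ D : ℕ, D % 2 = 1 ∧ 2 * j + 1 ≤ D ∧ D ≤ 4 * j ∧ ¬ Occurs qA (qB k) (qC k) D := by
  by_contra hcon
  push Not at hcon
  have h := card_q hk (S := 4 * j)
    (F := (Finset.range j).image fun i => 2 * j + 1 + 2 * i) (by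
      intro D hD
      obtain ⟨i, hi, rfl⟩ := Finset.mem_image.1 hD
      rw [Finset.mem_range] at hi
      exact ⟨by omega, hcon _ (by omega) (by omega) (by omega)⟩)
  rw [Finset.card_image_of_injective _ (fun x y hxy => by simpa using hxy), Finset.card_range] at h
  have pj : (0 : ℝ) < j := by exact_mod_cast (by omega : 0 < j)
  have hjk' : 4064 * (j : ℝ) < (k : ℝ) ^ 6 := by exact_mod_cast hjk
  have hj2 : (0 : ℝ) < (j : ℝ) ^ 2 := by positivity
  push_cast at h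
  nlinarith

theorem sides_q {N k : ℕ} (hk : 2 ≤ k) (h9 : 9 * k ≤ N) : SidesLe N qA (qB k) (qC k) := by
  have hN2 : 81 * k ^ 2 ≤ N ^ 2 := by
    calc 81 * k ^ 2 = (9 * k) ^ 2 := by ring
      _ ≤ N ^ 2 := Nat.pow_le_pow_left h9 2
  have hkk : 2 * k ≤ k ^ 2 := by nlinarith
  have hk4 : 1 ≤ k ^ 2 := Nat.one_le_pow _ _ (by omega)
  refine ⟨?_, ?_, ?_⟩
  · rw [q_ab]
    omega
  · rw [q_bc]
    omega
  · rw [q_ca]
    omega

theorem choose_k {N : ℕ} (hN : 72 ≤ N) : ∃ k : ℕ, 8 ≤ k ∧ 9 * k ≤ N ∧ N ^ 6 ≤ 1000000 * k ^ 6 := by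
  refine ⟨N / 9, by omega, by omega, ?_⟩
  calc N ^ 6 ≤ (10 * (N / 9)) ^ 6 := Nat.pow_le_pow_left (by omega) 6
    _ = 1000000 * (N / 9) ^ 6 := by ring

theorem sextic (N : ℕ) (hN : 72 ≤ N) : ∃ A B C : GaussianInt, Adm false A B C ∧
    SidesLe N A B C ∧ ∃ D : ℕ, Missed A B C D ∧ D % 2 = 1 ∧ N ^ 6 ≤ 3000000000 * D := by
  obtain ⟨k, hk, h9, h10⟩ := choose_k hN
  have h16 : 262144 ≤ k ^ 6 := by
    calc 262144 = 8 ^ 6 := by norm_num
      _ ≤ k ^ 6 := Nat.pow_le_pow_left hk 6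
  obtain ⟨j, hj, hj1, hj2⟩ : ∃ j : ℕ, 3 ≤ j ∧ 4064 * j < k ^ 6 ∧ k ^ 6 ≤ 4064 * j + 4064 :=
    ⟨(k ^ 6 - 1) / 4064, by omega, by omega, by omega⟩
  obtain ⟨D, hD1, hD2, hD3, hD4⟩ := q_missed3 (by omega) (by omega) hj1
  refine ⟨qA, qB k, qC k, adm_q (by omega) false, sides_q (by omega) h9, D,
    ⟨hD4, fun n hn => by omega⟩, hD1, ?_⟩
  calc N ^ 6 ≤ 1000000 * k ^ 6 := h10
    _ ≤ 1000000 * (4064 * j + 4064) := Nat.mul_le_mul_left _ hj2
    _ ≤ 3000000000 * D := by omega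

open Classical in
theorem many_missed3 {k j N : ℕ} (deg : Bool) (hk : 2 ≤ k) (hj : 1 ≤ j) (hjk : 4572 * j < k ^ 6)
    (hs : SidesLe N qA (qB k) (qC k)) : 2 * j < 3 * cnt deg N (2 * j) := by
  set O := (range j).filter fun i => Occurs qA (qB k) (qC k) (2 * i + 1) with hO
  set M := (range j).filter fun i => ¬ Occurs qA (qB k) (qC k) (2 * i + 1) with hM
  have hOM : O.card + M.card = j := by
    have := card_filter_add_card_filter_not (s := range j) (fun i => Occurs qA (qB k) (qC k) (2 * i + 1))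
    rw [card_range] at this
    exact this
  have hinj : Function.Injective (fun i : ℕ => 2 * i + 1) := fun x y hxy => by
    have : 2 * x + 1 = 2 * y + 1 := hxy
    omega
  have h := card_q hk (S := 2 * j)
    (F := O.image fun i => 2 * i + 1) (by
      intro D hD
      obtain ⟨i, hi, rfl⟩ := Finset.mem_image.1 hD
      rw [hO, mem_filter, mem_range] at hi
      exact ⟨by omega, hi.2⟩)
  rw [card_image_of_injective _ hinj] at h
  have hMc : M.card ≤ cnt deg N (2 * j) := by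
    rw [cnt_eq, ← card_image_of_injective M hinj, ← Set.ncard_coe_finset]
    refine Set.ncard_le_ncard ?_ ((Set.finite_Iio (2 * j)).subset fun D hD => hD.1)
    intro D hD
    rw [mem_coe, mem_image] at hD
    obtain ⟨i, hi, rfl⟩ := hD
    rw [hM, mem_filter, mem_range] at hi
    refine ⟨by omega, qA, qB k, qC k, adm_q hk deg, hs, hi.2, fun n hn => ?_⟩
    omega
  have pj : (0 : ℝ) < j := by exact_mod_cast (by omega : 0 < j)
  have hjk' : 4572 * (j : ℝ) < (k : ℝ) ^ 6 := by exact_mod_cast hjk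
  push_cast at h
  have hOM' : (O.card : ℝ) + M.card = j := by exact_mod_cast hOM
  have hMc' : (M.card : ℝ) ≤ cnt deg N (2 * j) := by exact_mod_cast hMc
  have hO3 : 3 * (O.card : ℝ) < j := by
    by_contra hcon
    push Not at hcon
    have h1 : (j : ℝ) ^ 2 ≤ (3 * (O.card : ℝ)) ^ 2 := pow_le_pow_left₀ pj.le hcon 2
    have h2 : (j : ℝ) ^ 2 * (4572 * (j : ℝ)) < (j : ℝ) ^ 2 * (k : ℝ) ^ 6 :=
      mul_lt_mul_of_pos_left hjk' (by positivity)
    have h3 : (j : ℝ) ^ 2 * (k : ℝ) ^ 6 ≤ (3 * (O.card : ℝ)) ^ 2 * (k : ℝ) ^ 6 :=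
      mul_le_mul_of_nonneg_right h1 (by positivity)
    nlinarith
  have : (2 : ℝ) * j < 3 * cnt deg N (2 * j) := by linarith
  exact_mod_cast this

theorem low3 {deg : Bool} {N q X0 : ℕ} (hN : 72 ≤ N) (hq : 3 ≤ q)
    (hF : ∀ X : ℕ, X0 < X → q * cnt deg N X ≤ X) : N ^ 6 ≤ 3000000000 * X0 := by
  obtain ⟨k, hk, h9, h10⟩ := choose_k hN
  have h16 : 262144 ≤ k ^ 6 := by
    calc 262144 = 8 ^ 6 := by norm_num
      _ ≤ k ^ 6 := Nat.pow_le_pow_left hk 6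
  obtain ⟨j, hj, hj1, hj2⟩ : ∃ j : ℕ, 5 ≤ j ∧ 4572 * j < k ^ 6 ∧ k ^ 6 ≤ 4572 * j + 4572 :=
    ⟨(k ^ 6 - 1) / 4572, by omega, by omega, by omega⟩
  have h1 := many_missed3 deg (by omega : 2 ≤ k) (by omega : 1 ≤ j) hj1 (sides_q (by omega) h9)
  have h2 : 2 * j ≤ X0 := by
    by_contra hcon
    push Not at hcon
    have h3 := hF (2 * j) hcon
    have h4 : 3 * cnt deg N (2 * j) ≤ q * cnt deg N (2 * j) := Nat.mul_le_mul_right _ hq
    omega
  calc N ^ 6 ≤ 1000000 * k ^ 6 := h10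
    _ ≤ 1000000 * (4572 * j + 4572) := Nat.mul_le_mul_left _ hj2
    _ ≤ 3000000000 * X0 := by omega

end Pool.Agent.FleaU
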